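import Pool.Agent.Lib_helper19.Src.Main

set_option autoImplicit false

namespace Pool.Agent.Lib_helper19.Src

open Finset



-- BEGIN BLOCK

/-- vertices of a connected graph ordered by the distance from a root -/
theorem blkTR_order {V : Type} [Fintype V] (G : SimpleGraph V) (hG : G.Connected) :
    ∃ (idx : V ≃ Fin (Fintype.card V)) (par : V → V),
      ∀ v, (idx v : ℕ) ≠ 0 → (idx (par v) : ℕ) < idx v ∧ G.Adj (par v) v := by
  classical
  have hne : Nonempty V := hG.nonempty
  obtain ⟨r⟩ := hne
  set n := Fintype.card V with hn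
  let e : V ≃ Fin n := Fintype.equivFin V
  let f : V → ℕ := fun v => G.dist r v * n + e v
  have hf : Function.Injective f := by
    intro v w h
    have h1 : f v % n = e v := by
      simp only [f]
      rw [Nat.add_comm, Nat.add_mul_mod_self_right, Nat.mod_eq_of_lt (e v).2]
    have h2 : f w % n = e w := by
      simp only [f]
      rw [Nat.add_comm, Nat.add_mul_mod_self_right, Nat.mod_eq_of_lt (e w).2]
    rw [h] at h1
    exact e.injective (Fin.ext (h1.symm.trans h2))
  let _ : LinearOrder V := LinearOrder.lift' f hf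
  have hlt : ∀ v w : V, f v < f w → v < w := fun v w h => h
  let σ : Fin n ≃o V := monoEquivOfFin V rfl
  have key : ∀ v : V, v ≠ r → ∃ w, G.Adj w v ∧ f w < f v := by
    intro v hv
    obtain ⟨q, hq⟩ := hG.exists_walk_length_eq_dist v r
    cases q with
    | nil => exact absurd rfl hv
    | cons h q' =>
      rename_i w
      refine ⟨w, h.symm, ?_⟩
      have h1 : G.dist w r ≤ q'.length := SimpleGraph.dist_le q'
      rw [SimpleGraph.Walk.length_cons] at hq
      have h2 : G.dist r w + 1 ≤ G.dist r v := by
        rw [SimpleGraph.dist_comm (u := r) (v := w), SimpleGraph.dist_comm (u := r) (v := v),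
          ← hq]
        omega
      have h3 := (e w).2
      calc f w = G.dist r w * n + e w := rfl
        _ < G.dist r w * n + n := by omega
        _ = (G.dist r w + 1) * n := by ring
        _ ≤ G.dist r v * n := Nat.mul_le_mul_right n h2
        _ ≤ f v := Nat.le_add_right _ _
  choose! par hpar using key
  refine ⟨σ.symm.toEquiv, par, fun v hv => ?_⟩
  have hvr : v ≠ r := by
    rintro rfl
    apply hv
    have h0 : 0 < n := Fintype.card_pos_iff.mpr ⟨v⟩
    have h1 : v ≤ σ ⟨0, h0⟩ := by
      by_contra hcon
      have hcon' : σ ⟨0, h0⟩ ≠ v := fun h => hcon (le_of_eq h.symm)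
      obtain ⟨w, hw⟩ : ∃ w, f w < f v := by
        have h2 : σ ⟨0, h0⟩ < v := not_le.mp hcon
        exact ⟨_, h2⟩
      have h3 : f v < n := by
        have := (e v).2
        simp only [f]
        rw [SimpleGraph.dist_self]
        omega
      have h4 : w ≠ v := by
        rintro rfl
        exact lt_irrefl _ hw
      have h5 : 0 < G.dist v w := (hG.pos_dist_of_ne (Ne.symm h4))
      have h6 : n ≤ f w := by
        simp only [f]
        calc n = 1 * n := (one_mul n).symm
          _ ≤ G.dist v w * n := Nat.mul_le_mul_right n h5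
          _ ≤ _ := Nat.le_add_right _ _
      omega
    have h2 : σ.symm v ≤ ⟨0, h0⟩ := by
      rw [← σ.symm_apply_apply ⟨0, h0⟩]
      exact σ.symm.monotone h1
    have h3 : ((σ.symm v : Fin n) : ℕ) ≤ 0 := h2
    exact Nat.le_zero.mp h3
  have h1 := hpar v hvr
  refine ⟨?_, h1.1⟩
  have h2 : par v < v := hlt _ _ h1.2
  exact σ.symm.strictMono h2

theorem blkTR_aux {V : Type} [Fintype V] (G : SimpleGraph V) (hG : G.IsTree) (n : ℕ)
    (hn : Fintype.card V = n) (idx : V ≃ Fin n) (par : V → V)
    (hpar : ∀ v, (idx v : ℕ) ≠ 0 → (idx (par v) : ℕ) < idx v ∧ G.Adj (par v) v) :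
    ∃ p : ℕ → ℕ, TreeFn n p ∧ ∀ j, numOrient G j = cnt n p j := by
  classical
  have hnpos : 0 < n := by
    have := hG.connected.nonempty
    rw [← hn]
    exact Fintype.card_pos
  -- every edge is a parent edge
  have huniq : ∀ v w : V, (idx v : ℕ) ≠ 0 → (idx w : ℕ) ≠ 0 → s(par v, v) = s(par w, w) →
      v = w := by
    intro v w hv hw h
    rw [Sym2.eq_iff] at h
    rcases h with h | h
    · exact h.2
    · exfalso
      have h1 := (hpar v hv).1
      have h2 := (hpar w hw).1
      rw [h.1] at h1
      rw [← h.2] at h2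
      omega
  have hsurj : ∀ e : G.edgeSet, ∃ v : V, (idx v : ℕ) ≠ 0 ∧ s(par v, v) = (e : Sym2 V) := by
    have hcard := hG.card_edgeFinset
    set S := (univ.filter (fun v : V => (idx v : ℕ) ≠ 0)).image (fun v => s(par v, v)) with hS
    have hsub : S ⊆ G.edgeFinset := by
      intro e he
      rw [hS, mem_image] at he
      obtain ⟨v, hv, rfl⟩ := he
      rw [mem_filter] at hv
      rw [SimpleGraph.mem_edgeFinset, SimpleGraph.mem_edgeSet]
      exact (hpar v hv.2).2
    have hcS : S.card = (univ.filter (fun v : V => (idx v : ℕ) ≠ 0)).card := by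
      apply card_image_of_injOn
      intro v hv w hw h
      exact huniq v w (mem_filter.mp hv).2 (mem_filter.mp hw).2 h
    have hcU : n ≤ (univ.filter (fun v : V => (idx v : ℕ) ≠ 0)).card + 1 := by
      have h1 : (univ : Finset V) ⊆
          insert (idx.symm ⟨0, hnpos⟩) (univ.filter (fun v : V => (idx v : ℕ) ≠ 0)) := by
        intro v _
        rw [mem_insert, mem_filter]
        by_cases hv : (idx v : ℕ) = 0
        · left
          rw [Equiv.eq_symm_apply]
          exact Fin.ext hv
        · right
          exact ⟨mem_univ _, hv⟩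
      calc n = (univ : Finset V).card := hn.symm
        _ ≤ _ := card_le_card h1
        _ ≤ _ := card_insert_le _ _
    have hSe : S = G.edgeFinset := by
      apply eq_of_subset_of_card_le hsub
      rw [hcS]
      omega
    intro e
    have he : (e : Sym2 V) ∈ S := by
      rw [hSe, SimpleGraph.mem_edgeFinset]
      exact e.2
    rw [hS, mem_image] at he
    obtain ⟨v, hv, hve⟩ := he
    exact ⟨v, (mem_filter.mp hv).2, hve⟩
  choose c hc0 hce using hsurj
  have hcinj : ∀ e e' : G.edgeSet, c e = c e' → e = e' := by
    intro e e' h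
    apply Subtype.ext
    rw [← hce e, ← hce e', h]
  have hedge : ∀ v : V, (idx v : ℕ) ≠ 0 → ∃ e : G.edgeSet, c e = v := by
    intro v hv
    refine ⟨⟨s(par v, v), ?_⟩, ?_⟩
    · rw [SimpleGraph.mem_edgeSet]
      exact (hpar v hv).2
    · exact huniq _ _ (hc0 _) hv (hce _)
  have hcne : ∀ e, par (c e) ≠ c e := fun e h => by
    have := (hpar (c e) (hc0 e)).1
    rw [h] at this
    exact lt_irrefl _ this
  have hor : ∀ (o : Orient G) (e : G.edgeSet), (o e : V) = par (c e) ∨ (o e : V) = c e := by
    intro o e
    have h2 : ∀ x : V, x ∈ (e : Sym2 V) → x = par (c e) ∨ x = c e := by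
      intro x hx
      rw [← hce e, Sym2.mem_iff] at hx
      exact hx
    exact h2 _ (o e).2
  -- the parent function
  set p : ℕ → ℕ := fun k => if h : k < n then (idx (par (idx.symm ⟨k, h⟩)) : ℕ) else 0 with hp
  have hpidx : ∀ v, p (idx v) = idx (par v) := by
    intro v
    simp only [hp]
    rw [dif_pos (idx v).2]
    simp
  have hkex : ∀ k ∈ Ico 1 n, ∃ e : G.edgeSet, (idx (c e) : ℕ) = k := by
    intro k hk
    rw [mem_Ico] at hk
    obtain ⟨e, he⟩ := hedge (idx.symm ⟨k, hk.2⟩) (by simp; omega)
    exact ⟨e, by rw [he]; simp⟩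
  have hidxmem : ∀ e, (idx (c e) : ℕ) ∈ Ico 1 n := fun e =>
    mem_Ico.mpr ⟨Nat.one_le_iff_ne_zero.mpr (hc0 e), (idx (c e)).2⟩
  refine ⟨p, ?_, ?_⟩
  · intro k hk
    obtain ⟨e, rfl⟩ := hkex k hk
    rw [hpidx]
    exact (hpar _ (hc0 e)).1
  · intro j
    let Φ : Orient G → Finset ℕ := fun o =>
      (Ico 1 n).filter (fun k => ∃ e : G.edgeSet, (idx (c e) : ℕ) = k ∧ (o e : V) ≠ c e)
    have hΦmem : ∀ (o : Orient G) (e : G.edgeSet), (idx (c e) : ℕ) ∈ Φ o ↔ (o e : V) ≠ c e := by
      intro o e
      simp only [Φ, mem_filter]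
      constructor
      · rintro ⟨_, e', h1, h2⟩
        have h3 : e' = e := hcinj _ _ (idx.injective (Fin.ext h1))
        subst h3
        exact h2
      · intro h
        exact ⟨hidxmem e, e, rfl, h⟩
    have hΦinj : Function.Injective Φ := by
      intro o o' h
      funext e
      apply Subtype.ext
      have h1 := hΦmem o e
      have h2 := hΦmem o' e
      rw [h] at h1
      have h3 : (o e : V) ≠ c e ↔ (o' e : V) ≠ c e := h1.symm.trans h2
      rcases hor o e with h4 | h4 <;> rcases hor o' e with h5 | h5
      · rw [h4, h5]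
      · exact absurd h5 (h3.mp (by rw [h4]; exact hcne e))
      · exact absurd h4 (h3.mpr (by rw [h5]; exact hcne e))
      · rw [h4, h5]
    have hsrc : ∀ (o : Orient G) (v : V),
        (∀ e : G.edgeSet, (o e : V) ≠ v) ↔ IsSrc n p (Φ o) (idx v : ℕ) := by
      intro o v
      constructor
      · intro h
        refine ⟨?_, ?_⟩
        · by_cases hv : (idx v : ℕ) = 0
          · exact Or.inl hv
          · right
            obtain ⟨e, rfl⟩ := hedge v hv
            exact (hΦmem o e).mpr (h e)
        · intro w hw hpw hwU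
          obtain ⟨e, rfl⟩ := hkex w hw
          rw [hpidx] at hpw
          have h1 : par (c e) = v := idx.injective (Fin.ext hpw)
          have h2 := (hΦmem o e).mp hwU
          rcases hor o e with h3 | h3
          · exact h e (h3.trans h1)
          · exact h2 h3
      · rintro ⟨h1, h2⟩ e he
        rcases hor o e with h3 | h3
        · have h4 : (idx (c e) : ℕ) ∈ Φ o := (hΦmem o e).mpr (by rw [h3]; exact hcne e)
          refine h2 _ (hidxmem e) ?_ h4
          rw [hpidx, ← h3, he]
        · have h4 : v = c e := he.symm.trans h3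
          rw [h4] at h1
          rcases h1 with h1 | h1
          · exact hc0 e h1
          · exact (hΦmem o e).mp h1 h3
    have hnum : ∀ o : Orient G, numSources G o = Zs n p (Φ o) := by
      intro o
      unfold numSources Zs
      have h1 : ((fun v : V => (idx v : ℕ)) '' {v : V | ∀ e : G.edgeSet, (o e : V) ≠ v}) =
          (((range n).filter (fun u => IsSrc n p (Φ o) u) : Finset ℕ) : Set ℕ) := by
        ext k
        simp only [Set.mem_image, Set.mem_ofPred_eq, coe_filter, mem_range]
        constructor
        · rintro ⟨v, hv, rfl⟩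
          exact ⟨(idx v).2, (hsrc o v).mp hv⟩
        · rintro ⟨hk, hs⟩
          refine ⟨idx.symm ⟨k, hk⟩, (hsrc o _).mpr ?_, ?_⟩
          · simpa using hs
          · simp
      rw [← Set.ncard_coe_finset, ← h1, Set.ncard_image_of_injective]
      intro v w h
      exact idx.injective (Fin.ext h)
    have himg : Φ '' {o : Orient G | numSources G o = j} =
        (((Ico 1 n).powerset.filter (fun U => Zs n p U = j) : Finset (Finset ℕ)) :
          Set (Finset ℕ)) := by
      ext U
      simp only [Set.mem_image, Set.mem_ofPred_eq, coe_filter, mem_powerset]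
      constructor
      · rintro ⟨o, ho, rfl⟩
        exact ⟨filter_subset _ _, by rw [← hnum]; exact ho⟩
      · rintro ⟨hU, hz⟩
        have hm1 : ∀ e : G.edgeSet, par (c e) ∈ (e : Sym2 V) := by
          intro e
          have h := Sym2.mem_mk_left (par (c e)) (c e)
          rw [hce e] at h
          exact h
        have hm2 : ∀ e : G.edgeSet, c e ∈ (e : Sym2 V) := by
          intro e
          have h := Sym2.mem_mk_right (par (c e)) (c e)
          rw [hce e] at h
          exact h
        let o : Orient G := fun e =>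
          if (idx (c e) : ℕ) ∈ U then ⟨par (c e), hm1 e⟩ else ⟨c e, hm2 e⟩
        have ho : ∀ e, (o e : V) ≠ c e ↔ (idx (c e) : ℕ) ∈ U := by
          intro e
          by_cases h : (idx (c e) : ℕ) ∈ U
          · have h1 : (o e : V) = par (c e) := by simp only [o, if_pos h]
            rw [h1]
            exact ⟨fun _ => h, fun _ => hcne e⟩
          · have h1 : (o e : V) = c e := by simp only [o, if_neg h]
            rw [h1]
            exact ⟨fun h2 => absurd rfl h2, fun h2 => absurd h2 h⟩
        have hΦo : Φ o = U := by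
          ext k
          constructor
          · intro hk
            have hk1 : k ∈ Ico 1 n := (mem_filter.mp hk).1
            obtain ⟨e, rfl⟩ := hkex k hk1
            exact (ho e).mp ((hΦmem o e).mp hk)
          · intro hk
            obtain ⟨e, rfl⟩ := hkex k (hU hk)
            exact (hΦmem o e).mpr ((ho e).mpr hk)
        exact ⟨o, by rw [hnum, hΦo]; exact hz, hΦo⟩
    unfold numOrient cnt
    rw [← Set.ncard_coe_finset, ← himg, Set.ncard_image_of_injective _ hΦinj]

theorem transfer {V : Type} [Fintype V] (G : SimpleGraph V) (hG : G.IsTree) :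
    ∃ p : ℕ → ℕ, TreeFn (Fintype.card V) p ∧
      ∀ j, numOrient G j = cnt (Fintype.card V) p j := by
  obtain ⟨idx, par, hpar⟩ := blkTR_order G hG.connected
  exact blkTR_aux G hG _ rfl idx par hpar

-- END BLOCK

end Pool.Agent.Lib_helper19.Src
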