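import Pool.Agent.Lib_helper19.Src.Main

set_option autoImplicit false

namespace Pool.Agent.Lib_helper19.Src

open Finset



-- BEGIN BLOCK

/-! ### Block CS: cut set -/

theorem blkCS_fuel {n : ℕ} {p : ℕ → ℕ} (hp : TreeFn n p) (K : Finset ℕ) (v : ℕ) :
    v < n → ∀ f g, v < f → v < g → rt p K f v = rt p K g v := by
  induction v using Nat.strong_induction_on with
  | _ v ih =>
    intro hv f g hf hg
    obtain ⟨f, rfl⟩ : ∃ f', f = f' + 1 := ⟨f - 1, by omega⟩
    obtain ⟨g, rfl⟩ : ∃ g', g = g' + 1 := ⟨g - 1, by omega⟩
    simp only [rt]
    by_cases h : v = 0 ∨ p v ∈ K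
    · rw [if_pos h, if_pos h]
    · rw [if_neg h, if_neg h]
      have hv0 : v ≠ 0 := fun h0 => h (Or.inl h0)
      have hlt := hp v (mem_Ico.2 ⟨by omega, hv⟩)
      exact ih _ hlt (by omega) _ _ (by omega) (by omega)

theorem blkCS_congr {n : ℕ} {p : ℕ → ℕ} (hp : TreeFn n p) (K K' : Finset ℕ) (f : ℕ) :
    ∀ v, v < n → (∀ u, u < v → (u ∈ K ↔ u ∈ K')) → rt p K f v = rt p K' f v := by
  induction f with
  | zero => intro v _ _; rfl
  | succ f ih =>
    intro v hv h
    simp only [rt]
    by_cases hv0 : v = 0
    · rw [if_pos (Or.inl hv0), if_pos (Or.inl hv0)]
    · have hlt := hp v (mem_Ico.2 ⟨by omega, hv⟩)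
      by_cases hk : p v ∈ K
      · rw [if_pos (Or.inr hk), if_pos (Or.inr ((h _ hlt).1 hk))]
      · have hk' : p v ∉ K' := fun hh => hk ((h _ hlt).2 hh)
        rw [if_neg (by tauto), if_neg (by tauto)]
        exact ih _ (by omega) (fun u hu => h u (by omega))

theorem blkCS_le {n : ℕ} {p : ℕ → ℕ} (hp : TreeFn n p) (K : Finset ℕ) (f : ℕ) :
    ∀ v, v < n → rt p K f v ≤ v := by
  induction f with
  | zero => intro v _; exact le_rfl
  | succ f ih =>
    intro v hv
    simp only [rt]
    split_ifs with h
    · exact le_rfl
    · have hv0 : v ≠ 0 := fun h0 => h (Or.inl h0)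
      have hlt := hp v (mem_Ico.2 ⟨by omega, hv⟩)
      exact (ih _ (by omega)).trans hlt.le

theorem blkCS_main {S : ℕ} {p : ℕ → ℕ} (n : ℕ) : TreeFn n p → ∀ s : ℕ → ℕ,
    ∃ K ⊆ range n, K.card * S ≤ ∑ v ∈ range n, s v ∧
      ∀ f, n ≤ f → ∀ c, ∑ v ∈ (range n \ K).filter (fun v => rt p K f v = c), s v ≤ S := by
  induction n with
  | zero => intro _ s; exact ⟨∅, by simp, by simp, by simp⟩
  | succ n ih =>
    intro hp s
    have hp' : TreeFn n p := fun v hv => hp v (by rw [mem_Ico] at hv ⊢; omega)
    by_cases hcut : S < s n
    · -- cut the last vertex
      obtain ⟨K, hK, hcard, hcomp⟩ := ih hp' s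
      have hnK : n ∉ K := fun h => by have := mem_range.1 (hK h); omega
      refine ⟨insert n K, ?_, ?_, ?_⟩
      · intro v hv
        rcases mem_insert.1 hv with rfl | hv
        · exact mem_range.2 (by omega)
        · exact mem_range.2 (by have := mem_range.1 (hK hv); omega)
      · rw [card_insert_of_notMem hnK, sum_range_succ]
        nlinarith
      · intro f hf c
        have hset : (range (n + 1) \ insert n K).filter (fun v => rt p (insert n K) f v = c) =
            (range n \ K).filter (fun v => rt p K f v = c) := by
          ext v
          simp only [mem_filter, mem_sdiff, mem_range, mem_insert, not_or]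
          constructor
          · rintro ⟨⟨h1, h2, h3⟩, h4⟩
            have hvn : v < n := by omega
            refine ⟨⟨hvn, h3⟩, ?_⟩
            rw [← h4]
            refine (blkCS_congr hp _ _ f v (by omega) (fun u hu => ?_)).symm
            rw [mem_insert]
            constructor
            · rintro (rfl | h)
              · omega
              · exact h
            · intro h; exact Or.inr h
          · rintro ⟨⟨h1, h3⟩, h4⟩
            refine ⟨⟨by omega, by omega, h3⟩, ?_⟩
            rw [← h4]
            refine (blkCS_congr hp _ _ f v (by omega) (fun u hu => ?_))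
            rw [mem_insert]
            constructor
            · rintro (rfl | h)
              · omega
              · exact h
            · intro h; exact Or.inr h
        rw [hset]
        exact hcomp f (by omega) c
    · push Not at hcut
      by_cases hn0 : n = 0
      · subst hn0
        refine ⟨∅, by simp, by simp, ?_⟩
        intro f _ c
        refine (sum_le_sum_of_subset (filter_subset _ _)).trans ?_
        simpa using hcut
      · set q := p n with hq
        have hqn : q < n := hp n (mem_Ico.2 ⟨by omega, by omega⟩)
        obtain ⟨K, hK, hcard, hcomp⟩ := ih hp' (Function.update s q (s q + s n))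
        have hnK : n ∉ K := fun h => by have := mem_range.1 (hK h); omega
        have hupd : ∀ A : Finset ℕ, ∑ v ∈ A, Function.update s q (s q + s n) v =
            ∑ v ∈ A, s v + if q ∈ A then s n else 0 := by
          intro A
          by_cases hqA : q ∈ A
          · rw [if_pos hqA, ← add_sum_erase A _ hqA, ← add_sum_erase A s hqA,
              Function.update_self]
            have : ∑ v ∈ A.erase q, Function.update s q (s q + s n) v = ∑ v ∈ A.erase q, s v :=
              sum_congr rfl (fun v hv => Function.update_of_ne (ne_of_mem_erase hv) _ _)
            rw [this]; ring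
          · rw [if_neg hqA, add_zero]
            refine sum_congr rfl (fun v hv => Function.update_of_ne ?_ _ _)
            rintro rfl
            exact hqA hv
        refine ⟨K, fun v hv => mem_range.2 (by have := mem_range.1 (hK hv); omega), ?_, ?_⟩
        · rw [hupd, if_pos (mem_range.2 hqn)] at hcard
          rw [sum_range_succ]
          exact hcard
        · intro f hf c
          have hset : (range (n + 1) \ K).filter (fun v => rt p K f v = c) =
              if rt p K f n = c then insert n ((range n \ K).filter (fun v => rt p K f v = c))
              else (range n \ K).filter (fun v => rt p K f v = c) := by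
            ext v
            split_ifs with hc
            · simp only [mem_filter, mem_sdiff, mem_range, mem_insert]
              constructor
              · rintro ⟨⟨h1, h2⟩, h3⟩
                by_cases hvn : v = n
                · exact Or.inl hvn
                · exact Or.inr ⟨⟨by omega, h2⟩, h3⟩
              · rintro (rfl | ⟨⟨h1, h2⟩, h3⟩)
                · exact ⟨⟨by omega, hnK⟩, hc⟩
                · exact ⟨⟨by omega, h2⟩, h3⟩
            · simp only [mem_filter, mem_sdiff, mem_range]
              constructor
              · rintro ⟨⟨h1, h2⟩, h3⟩
                have hvn : v ≠ n := by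
                  rintro rfl
                  exact hc h3
                exact ⟨⟨by omega, h2⟩, h3⟩
              · rintro ⟨⟨h1, h2⟩, h3⟩
                exact ⟨⟨by omega, h2⟩, h3⟩
          have hnA : n ∉ (range n \ K).filter (fun v => rt p K f v = c) := by
            simp
          have hrtn : rt p K f n = if q ∈ K then n else rt p K f q := by
            obtain ⟨f', rfl⟩ : ∃ f', f = f' + 1 := ⟨f - 1, by omega⟩
            by_cases hqK : q ∈ K
            · rw [if_pos hqK]
              simp only [rt]
              rw [if_pos (Or.inr hqK)]
            · rw [if_neg hqK]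
              conv_lhs => rw [rt]
              rw [if_neg (by rw [← hq]; tauto)]
              exact blkCS_fuel hp' K q hqn _ _ (by omega) (by omega)
          have hIH := hcomp f (by omega) c
          rw [hupd] at hIH
          rw [hset]
          by_cases hqK : q ∈ K
          · rw [if_pos hqK] at hrtn
            by_cases hc : rt p K f n = c
            · rw [if_pos hc, sum_insert hnA]
              have hempty : (range n \ K).filter (fun v => rt p K f v = c) = ∅ := by
                rw [filter_eq_empty_iff]
                intro v hv hvc
                have hvn := mem_range.1 (mem_sdiff.1 hv).1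
                have := blkCS_le hp' K f v hvn
                omega
              rw [hempty, sum_empty, add_zero]
              exact hcut
            · rw [if_neg hc]
              omega
          · rw [if_neg hqK] at hrtn
            by_cases hc : rt p K f n = c
            · rw [if_pos hc, sum_insert hnA]
              have hqA : q ∈ (range n \ K).filter (fun v => rt p K f v = c) :=
                mem_filter.2 ⟨mem_sdiff.2 ⟨mem_range.2 hqn, hqK⟩, by rw [← hrtn]; exact hc⟩
              rw [if_pos hqA] at hIH
              omega
            · rw [if_neg hc]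
              omega

theorem exists_cut {n : ℕ} {p : ℕ → ℕ} (hp : TreeFn n p) {S : ℕ} (hS : 1 ≤ S) :
    ∃ K ⊆ range n, K.card * S ≤ n ∧
      ∀ c, ((range n \ K).filter (fun v => rt p K n v = c)).card ≤ S := by
  obtain ⟨K, hK, h1, h2⟩ := blkCS_main (S := S) n hp (fun _ => 1)
  refine ⟨K, hK, ?_, fun c => ?_⟩
  · simpa using h1
  · simpa using h2 n le_rfl c

-- END BLOCK

end Pool.Agent.Lib_helper19.Src
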