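import Pool.Agent.Lib_helper19.Src.Main

set_option autoImplicit false

namespace Pool.Agent.Lib_helper19.Src

open Finset



-- BEGIN BLOCK

/-! ### Block BA: basics -/

theorem Zs_le (n : ℕ) (p : ℕ → ℕ) (U : Finset ℕ) : Zs n p U ≤ n := by
  unfold Zs
  refine (card_filter_le _ _).trans ?_
  rw [card_range]

/-- flipping one edge changes the number of sources by at most one -/
theorem Zs_flip {n : ℕ} {p : ℕ → ℕ} (hp : TreeFn n p) (U : Finset ℕ) {e : ℕ} (he : e ∈ Ico 1 n) :
    Zs n p (insert e U) ≤ Zs n p (U.erase e) + 1 ∧ Zs n p (U.erase e) ≤ Zs n p (insert e U) + 1 := by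
  constructor
  · unfold Zs
    refine (card_le_card (t := insert e ((range n).filter (fun u => IsSrc n p (U.erase e) u))) ?_).trans
      (card_insert_le _ _)
    intro u hu
    rw [mem_filter] at hu
    rw [mem_insert, mem_filter]
    by_cases hue : u = e
    · exact Or.inl hue
    · refine Or.inr ⟨hu.1, ?_, ?_⟩
      · rcases hu.2.1 with h | h
        · exact Or.inl h
        · rcases mem_insert.1 h with h | h
          · exact absurd h hue
          · exact Or.inr (mem_erase.2 ⟨hue, h⟩)
      · intro w hw hpw hwU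
        exact hu.2.2 w hw hpw (mem_insert_of_mem (mem_of_mem_erase hwU))
  · unfold Zs
    refine (card_le_card (t := insert (p e) ((range n).filter (fun u => IsSrc n p (insert e U) u)))
      ?_).trans (card_insert_le _ _)
    intro u hu
    rw [mem_filter] at hu
    rw [mem_insert, mem_filter]
    by_cases hue : u = p e
    · exact Or.inl hue
    · refine Or.inr ⟨hu.1, ?_, ?_⟩
      · rcases hu.2.1 with h | h
        · exact Or.inl h
        · exact Or.inr (mem_insert_of_mem (mem_of_mem_erase h))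
      · intro w hw hpw hwU
        have hwe : w ≠ e := by
          rintro rfl
          exact hue hpw.symm
        rcases mem_insert.1 hwU with h | h
        · exact hwe h
        · exact hu.2.2 w hw hpw (mem_erase.2 ⟨hwe, h⟩)

theorem Zs_empty {n : ℕ} {p : ℕ → ℕ} (hn : 1 ≤ n) : Zs n p ∅ = 1 := by
  unfold Zs
  have : (range n).filter (fun u => IsSrc n p ∅ u) = {0} := by
    ext u
    rw [mem_filter, mem_singleton, mem_range]
    constructor
    · rintro ⟨-, h | h, -⟩
      · exact h
      · exact absurd h (notMem_empty u)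
    · rintro rfl
      exact ⟨by omega, Or.inl rfl, fun w _ _ => notMem_empty w⟩
  rw [this, card_singleton]

theorem Zs_pos {n : ℕ} {p : ℕ → ℕ} (hp : TreeFn n p) (hn : 1 ≤ n) {U : Finset ℕ}
    (hU : U ⊆ Ico 1 n) : 1 ≤ Zs n p U := by
  by_contra hcon
  have h0 : Zs n p U = 0 := by omega
  unfold Zs at h0
  rw [card_eq_zero, filter_eq_empty_iff] at h0
  have hsub : range n ⊆ (Ico 1 n).image (fun e => if e ∈ U then p e else e) := by
    intro u hu
    have h1 := h0 hu
    unfold IsSrc at h1
    rw [mem_image]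
    by_cases hcase : u = 0 ∨ u ∈ U
    · have h2 : ¬ ∀ w ∈ Ico 1 n, p w = u → w ∉ U := fun h => h1 ⟨hcase, h⟩
      push Not at h2
      obtain ⟨w, hw, hpw, hwU⟩ := h2
      exact ⟨w, hw, by rw [if_pos hwU, hpw]⟩
    · push Not at hcase
      refine ⟨u, mem_Ico.2 ⟨by omega, mem_range.1 hu⟩, by rw [if_neg hcase.2]⟩
  have h2 := card_le_card hsub
  have h3 := card_image_le (s := Ico 1 n) (f := fun e => if e ∈ U then p e else e)
  rw [card_range] at h2
  rw [Nat.card_Ico] at h3
  omega

/-- depth -/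
def blkBA_depth (p : ℕ → ℕ) (v : ℕ) : ℕ :=
  if h : p v < v then blkBA_depth p (p v) + 1 else 0
termination_by v

theorem blkBA_depth_succ {n : ℕ} {p : ℕ → ℕ} (hp : TreeFn n p) {v : ℕ} (hv : v ∈ Ico 1 n) :
    blkBA_depth p v = blkBA_depth p (p v) + 1 := by
  rw [blkBA_depth, dif_pos (hp v hv)]

/-- one of the two colour classes has at least half of the vertices -/
theorem exists_half {n : ℕ} {p : ℕ → ℕ} (hp : TreeFn n p) :
    ∃ U ⊆ Ico 1 n, n ≤ 2 * Zs n p U := by
  have key : ∀ i : ℕ, i < 2 → ((range n).filter (fun u => blkBA_depth p u % 2 = i)).card ≤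
      Zs n p ((Ico 1 n).filter (fun v => blkBA_depth p v % 2 = i)) := by
    intro i hi
    unfold Zs
    apply card_le_card
    intro u hu
    rw [mem_filter] at hu ⊢
    refine ⟨hu.1, ?_, ?_⟩
    · by_cases h : u = 0
      · exact Or.inl h
      · refine Or.inr (mem_filter.2 ⟨mem_Ico.2 ⟨by omega, mem_range.1 hu.1⟩, hu.2⟩)
    · intro w hw hpw hwU
      have h1 := (mem_filter.1 hwU).2
      have h2 := blkBA_depth_succ hp hw
      rw [hpw] at h2
      have h3 := hu.2
      omega
  have hsum : ((range n).filter (fun u => blkBA_depth p u % 2 = 0)).card +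
      ((range n).filter (fun u => blkBA_depth p u % 2 = 1)).card = n := by
    have h1 := card_filter_add_card_filter_not (s := range n) (fun u => blkBA_depth p u % 2 = 0)
    rw [card_range] at h1
    have h2 : (range n).filter (fun u => ¬ blkBA_depth p u % 2 = 0) =
        (range n).filter (fun u => blkBA_depth p u % 2 = 1) := by
      apply filter_congr
      intro u _
      omega
    rwa [h2] at h1
  have k0 := key 0 (by norm_num)
  have k1 := key 1 (by norm_num)
  by_cases h : n ≤ 2 * ((range n).filter (fun u => blkBA_depth p u % 2 = 0)).card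
  · exact ⟨_, filter_subset (fun v => blkBA_depth p v % 2 = 0) _, by omega⟩
  · exact ⟨_, filter_subset (fun v => blkBA_depth p v % 2 = 1) _, by omega⟩

theorem PR_pos {n : ℕ} {p : ℕ → ℕ} {x : ℝ} (hx : 0 < x) : 0 < PR n p x := by
  unfold PR
  exact sum_pos (fun U _ => pow_pos hx _) ⟨∅, empty_mem_powerset _⟩

private theorem blkBA_fiber {R : Type} [CommSemiring R] (n : ℕ) (p : ℕ → ℕ) (x : R) :
    ∑ U ∈ (Ico 1 n).powerset, x ^ Zs n p U = ∑ j ∈ range (n + 1), (cnt n p j : R) * x ^ j := by
  rw [← sum_fiberwise_of_maps_to (s := (Ico 1 n).powerset) (t := range (n + 1))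
    (g := fun U => Zs n p U) (fun U _ => mem_range.2 (Nat.lt_succ_of_le (Zs_le n p U)))]
  apply sum_congr rfl
  intro j _
  rw [sum_congr rfl (g := fun _ => x ^ j) (fun U hU => by rw [(mem_filter.1 hU).2]), sum_const,
    nsmul_eq_mul]
  rfl

theorem PR_eq (n : ℕ) (p : ℕ → ℕ) (x : ℝ) :
    PR n p x = ∑ j ∈ range (n + 1), (cnt n p j : ℝ) * x ^ j :=
  blkBA_fiber n p x

theorem PC_eq (n : ℕ) (p : ℕ → ℕ) (x : ℂ) :
    PC n p x = ∑ j ∈ range (n + 1), (cnt n p j : ℂ) * x ^ j :=
  blkBA_fiber n p x

theorem cnt_eq_zero {n : ℕ} {p : ℕ → ℕ} {j : ℕ} (h : n < j) : cnt n p j = 0 := by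
  unfold cnt
  rw [card_eq_zero, filter_eq_empty_iff]
  intro U _ hU
  have := Zs_le n p U
  omega

-- END BLOCK

end Pool.Agent.Lib_helper19.Src
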