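import Pool.Agent.Lib_helper19.Src.Main
import Pool.Agent.Lib_helper19.SrcA.BA

set_option autoImplicit false

namespace Pool.Agent.Lib_helper19.Src

open Finset

-- BEGIN BLOCK
/-! ### Block HY: hybrids -/

theorem Zk_le {n : ℕ} {p : ℕ → ℕ} {K : Finset ℕ} (hK : K ⊆ range n) (U : Finset ℕ) :
    Zk n p K U ≤ Zs n p U ∧ Zs n p U ≤ Zk n p K U + K.card := by
  refine ⟨card_le_card (filter_subset_filter _ sdiff_subset), ?_⟩
  have h : (range n).filter (fun u => IsSrc n p U u) ⊆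
      (range n \ K).filter (fun u => IsSrc n p U u) ∪ K := by
    intro u hu
    rw [mem_filter] at hu
    rw [mem_union, mem_filter, mem_sdiff]
    by_cases hk : u ∈ K
    · exact Or.inr hk
    · exact Or.inl ⟨⟨hu.1, hk⟩, hu.2⟩
  exact (card_le_card h).trans (card_union_le _ _)

/-- the root does not depend on the fuel -/
theorem blkHY_rt_succ {n : ℕ} {p : ℕ → ℕ} (hp : TreeFn n p) (K : Finset ℕ) :
    ∀ f v : ℕ, v ≤ f → v < n → rt p K (f + 1) v = rt p K f v := by
  intro f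
  induction f with
  | zero =>
      intro v hv _
      obtain rfl : v = 0 := by omega
      simp [rt]
  | succ f ih =>
      intro v hv hvn
      rw [rt]
      conv_rhs => rw [rt]
      split_ifs with h
      · rfl
      · push Not at h
        have h1 : p v < v := hp v (mem_Ico.2 ⟨by omega, hvn⟩)
        exact ih (p v) (by omega) (by omega)

theorem blkHY_rt_parent {n : ℕ} {p : ℕ → ℕ} (hp : TreeFn n p) (K : Finset ℕ) {v : ℕ}
    (hv : v ∈ Ico 1 n) (hpv : p v ∉ K) : rt p K n v = rt p K n (p v) := by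
  rw [mem_Ico] at hv
  obtain ⟨f, rfl⟩ : ∃ f, n = f + 1 := ⟨n - 1, by omega⟩
  have h1 : p v < v := hp v (mem_Ico.2 hv)
  rw [blkHY_rt_succ hp K f (p v) (by omega) (by omega), rt]
  rw [if_neg]
  push Not
  exact ⟨by omega, hpv⟩

theorem blkHY_rt_le {n : ℕ} {p : ℕ → ℕ} (hp : TreeFn n p) (K : Finset ℕ) :
    ∀ f v : ℕ, v < n → rt p K f v ≤ v := by
  intro f
  induction f with
  | zero => intro v _; simp [rt]
  | succ f ih =>
      intro v hvn
      rw [rt]
      split_ifs with h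
      · exact le_rfl
      · push Not at h
        have h1 : p v < v := hp v (mem_Ico.2 ⟨by omega, hvn⟩)
        exact (ih (p v) (by omega)).trans h1.le

/-- component to which the edge `e` is assigned -/
def blkHY_cp (n : ℕ) (p : ℕ → ℕ) (K : Finset ℕ) (e : ℕ) : ℕ :=
  if e ∉ K then rt p K n e else rt p K n (p e)

/-- hybrid of two orientations -/
def blkHY_hyb (n : ℕ) (p : ℕ → ℕ) (K : Finset ℕ) (t : ℕ) (U V : Finset ℕ) : Finset ℕ :=
  U.filter (fun e => blkHY_cp n p K e < t) ∪ V.filter (fun e => ¬ blkHY_cp n p K e < t)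

theorem blkHY_mem (n : ℕ) (p : ℕ → ℕ) (K : Finset ℕ) (t : ℕ) (U V : Finset ℕ) (e : ℕ) :
    e ∈ blkHY_hyb n p K t U V ↔ if blkHY_cp n p K e < t then e ∈ U else e ∈ V := by
  unfold blkHY_hyb
  rw [mem_union, mem_filter, mem_filter]
  split_ifs with h <;> simp [h]

theorem blkHY_invol (n : ℕ) (p : ℕ → ℕ) (K : Finset ℕ) (t : ℕ) (U V : Finset ℕ) :
    blkHY_hyb n p K t (blkHY_hyb n p K t U V) (blkHY_hyb n p K t V U) = U := by
  ext e
  rw [blkHY_mem]
  split_ifs with h
  · rw [blkHY_mem, if_pos h]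
  · rw [blkHY_mem, if_neg h]

theorem blkHY_sub (n : ℕ) (p : ℕ → ℕ) (K : Finset ℕ) (t : ℕ) {U V E : Finset ℕ} (hU : U ⊆ E)
    (hV : V ⊆ E) : blkHY_hyb n p K t U V ⊆ E :=
  union_subset ((filter_subset _ _).trans hU) ((filter_subset _ _).trans hV)

theorem blkHY_src {n : ℕ} {p : ℕ → ℕ} (hp : TreeFn n p) (K : Finset ℕ) (t : ℕ) (U V : Finset ℕ)
    {u : ℕ} (hu : u ∈ range n \ K) :
    IsSrc n p (blkHY_hyb n p K t U V) u ↔
      if rt p K n u < t then IsSrc n p U u else IsSrc n p V u := by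
  rw [mem_sdiff, mem_range] at hu
  have h1 : blkHY_cp n p K u = rt p K n u := by
    unfold blkHY_cp
    rw [if_pos hu.2]
  have h2 : ∀ w ∈ Ico 1 n, p w = u → blkHY_cp n p K w = rt p K n u := by
    intro w hw hpw
    unfold blkHY_cp
    by_cases h : w ∈ K
    · rw [if_neg (by simpa using h), hpw]
    · rw [if_pos h, blkHY_rt_parent hp K hw (by rw [hpw]; exact hu.2), hpw]
  unfold IsSrc
  by_cases h : rt p K n u < t
  · rw [if_pos h]
    refine and_congr ?_ ?_
    · rw [blkHY_mem, h1, if_pos h]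
    · refine forall_congr' fun w => forall_congr' fun hw => forall_congr' fun hpw => ?_
      rw [blkHY_mem, h2 w hw hpw, if_pos h]
  · rw [if_neg h]
    refine and_congr ?_ ?_
    · rw [blkHY_mem, h1, if_neg h]
    · refine forall_congr' fun w => forall_congr' fun hw => forall_congr' fun hpw => ?_
      rw [blkHY_mem, h2 w hw hpw, if_neg h]

/-- sources outside `K` in components below `t` -/
def blkHY_A (n : ℕ) (p : ℕ → ℕ) (K : Finset ℕ) (t : ℕ) (U : Finset ℕ) : ℕ :=
  ((range n \ K).filter (fun u => rt p K n u < t ∧ IsSrc n p U u)).card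

/-- sources outside `K` in components from `t` on -/
def blkHY_B (n : ℕ) (p : ℕ → ℕ) (K : Finset ℕ) (t : ℕ) (U : Finset ℕ) : ℕ :=
  ((range n \ K).filter (fun u => ¬ rt p K n u < t ∧ IsSrc n p U u)).card

/-- sources outside `K` in the component `t` -/
def blkHY_z (n : ℕ) (p : ℕ → ℕ) (K : Finset ℕ) (t : ℕ) (U : Finset ℕ) : ℕ :=
  ((range n \ K).filter (fun u => rt p K n u = t ∧ IsSrc n p U u)).card

theorem blkHY_Zk (n : ℕ) (p : ℕ → ℕ) (K : Finset ℕ) (t : ℕ) (U : Finset ℕ) :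
    Zk n p K U = blkHY_A n p K t U + blkHY_B n p K t U := by
  unfold Zk blkHY_A blkHY_B
  rw [← card_union_of_disjoint]
  · congr 1
    ext u
    simp only [mem_filter, mem_union]
    tauto
  · rw [disjoint_left]
    intro u h1 h2
    rw [mem_filter] at h1 h2
    exact h2.2.1 h1.2.1

theorem blkHY_Zk_hyb {n : ℕ} {p : ℕ → ℕ} (hp : TreeFn n p) (K : Finset ℕ) (t : ℕ)
    (U V : Finset ℕ) :
    Zk n p K (blkHY_hyb n p K t U V) = blkHY_A n p K t U + blkHY_B n p K t V := by
  unfold Zk blkHY_A blkHY_B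
  rw [← card_union_of_disjoint]
  · congr 1
    ext u
    rw [mem_filter, mem_union, mem_filter, mem_filter]
    by_cases hu : u ∈ range n \ K
    · rw [blkHY_src hp K t U V hu]
      by_cases h : rt p K n u < t <;> simp [h, hu]
    · simp [hu]
  · rw [disjoint_left]
    intro u h1 h2
    rw [mem_filter] at h1 h2
    exact h2.2.1 h1.2.1

theorem blkHY_A_succ (n : ℕ) (p : ℕ → ℕ) (K : Finset ℕ) (t : ℕ) (U : Finset ℕ) :
    blkHY_A n p K (t + 1) U = blkHY_A n p K t U + blkHY_z n p K t U := by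
  unfold blkHY_z blkHY_A
  rw [← card_union_of_disjoint]
  · congr 1
    ext u
    simp only [mem_filter, mem_union]
    constructor
    · rintro ⟨h1, h2, h3⟩
      rcases Nat.lt_succ_iff_lt_or_eq.1 h2 with h | h
      · exact Or.inl ⟨h1, h, h3⟩
      · exact Or.inr ⟨h1, h, h3⟩
    · rintro (⟨h1, h2, h3⟩ | ⟨h1, h2, h3⟩)
      · exact ⟨h1, by omega, h3⟩
      · exact ⟨h1, by omega, h3⟩
  · rw [disjoint_left]
    intro u h1 h2
    rw [mem_filter] at h1 h2
    have := h1.2.1
    have := h2.2.1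
    omega

theorem blkHY_B_succ (n : ℕ) (p : ℕ → ℕ) (K : Finset ℕ) (t : ℕ) (U : Finset ℕ) :
    blkHY_B n p K t U = blkHY_B n p K (t + 1) U + blkHY_z n p K t U := by
  have h1 := blkHY_Zk n p K t U
  have h2 := blkHY_Zk n p K (t + 1) U
  have h3 := blkHY_A_succ n p K t U
  omega

theorem blkHY_z_le {n : ℕ} {p : ℕ → ℕ} {K : Finset ℕ} {S : ℕ}
    (hS : ∀ c, ((range n \ K).filter (fun v => rt p K n v = c)).card ≤ S) (t : ℕ)
    (U : Finset ℕ) : blkHY_z n p K t U ≤ S := by
  refine le_trans (card_le_card ?_) (hS t)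
  intro u hu
  rw [mem_filter] at hu ⊢
  exact ⟨hu.1, hu.2.1⟩

theorem blkHY_zero (n : ℕ) (p : ℕ → ℕ) (K : Finset ℕ) (U : Finset ℕ) :
    blkHY_A n p K 0 U = 0 := by
  unfold blkHY_A
  rw [card_eq_zero, filter_eq_empty_iff]
  intro u _ h
  exact absurd h.1 (Nat.not_lt_zero _)

theorem blkHY_last {n : ℕ} {p : ℕ → ℕ} (hp : TreeFn n p) (K : Finset ℕ) (U : Finset ℕ) :
    blkHY_B n p K n U = 0 := by
  unfold blkHY_B
  rw [card_eq_zero, filter_eq_empty_iff]
  intro u hu h
  rw [mem_sdiff, mem_range] at hu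
  exact h.1 ((blkHY_rt_le hp K n u hu.1).trans_lt hu.1)

theorem blkHY_exists {n : ℕ} {p : ℕ → ℕ} (hp : TreeFn n p) {K : Finset ℕ} {S : ℕ}
    (hS : ∀ c, ((range n \ K).filter (fun v => rt p K n v = c)).card ≤ S) {j : ℕ}
    {U V : Finset ℕ} (hU : Zk n p K U ≤ j) (hV : j ≤ Zk n p K V) :
    ∃ t ∈ range (n + 1), Zk n p K (blkHY_hyb n p K t U V) ≤ j + S ∧
      j ≤ Zk n p K (blkHY_hyb n p K t U V) + S := by
  classical
  have hn : Zk n p K (blkHY_hyb n p K n U V) ≤ j := by
    have h1 := blkHY_Zk n p K n U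
    rw [blkHY_Zk_hyb hp, blkHY_last hp]
    omega
  have hex : ∃ t, Zk n p K (blkHY_hyb n p K t U V) ≤ j := ⟨n, hn⟩
  set t := Nat.find hex with ht
  have h1 : Zk n p K (blkHY_hyb n p K t U V) ≤ j := Nat.find_spec hex
  have h2 : t ≤ n := Nat.find_min' hex hn
  refine ⟨t, mem_range.2 (by omega), h1.trans (by omega), ?_⟩
  rcases Nat.eq_zero_or_pos t with h0 | h0
  · have h3 : Zk n p K (blkHY_hyb n p K 0 U V) = Zk n p K V := by
      rw [blkHY_Zk_hyb hp, blkHY_Zk n p K 0 V, blkHY_zero, blkHY_zero]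
    rw [h0, h3]
    omega
  · obtain ⟨s, hs⟩ : ∃ s, t = s + 1 := ⟨t - 1, by omega⟩
    have h4 : ¬ Zk n p K (blkHY_hyb n p K s U V) ≤ j := Nat.find_min hex (by omega)
    rw [blkHY_Zk_hyb hp] at h4
    rw [hs, blkHY_Zk_hyb hp]
    have h5 := blkHY_A_succ n p K s U
    have h6 := blkHY_B_succ n p K s V
    have h7 := blkHY_z_le hS s V
    omega

theorem hybrid {n : ℕ} {p : ℕ → ℕ} (hp : TreeFn n p) {K : Finset ℕ} {S : ℕ} (hK : K ⊆ range n)
    (hS : ∀ c, ((range n \ K).filter (fun v => rt p K n v = c)).card ≤ S) {l : ℝ} (hl : 0 < l)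
    (j : ℕ) :
    (∑ U ∈ (Ico 1 n).powerset.filter (fun U => Zk n p K U ≤ j), l ^ Zk n p K U) *
        (∑ U ∈ (Ico 1 n).powerset.filter (fun U => j ≤ Zk n p K U), l ^ Zk n p K U) ≤
      (n + 1) * (∑ U ∈ (Ico 1 n).powerset, l ^ Zk n p K U) *
        ∑ U ∈ (Ico 1 n).powerset.filter (fun U => Zk n p K U ≤ j + S ∧ j ≤ Zk n p K U + S),
          l ^ Zk n p K U := by
  classical
  set P := (Ico 1 n).powerset with hP
  set w : Finset ℕ → ℝ := fun U => l ^ Zk n p K U with hw
  have hw0 : ∀ U, 0 < w U := fun U => pow_pos hl _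
  -- one value of `t`
  have hone : ∀ t, ∑ x ∈ P ×ˢ P,
      (if Zk n p K (blkHY_hyb n p K t x.1 x.2) ≤ j + S ∧
          j ≤ Zk n p K (blkHY_hyb n p K t x.1 x.2) + S then w x.1 * w x.2 else 0) =
      (∑ U ∈ P, w U) * ∑ U ∈ P.filter (fun U => Zk n p K U ≤ j + S ∧ j ≤ Zk n p K U + S), w U := by
    intro t
    have key : ∀ U V, w U * w V = w (blkHY_hyb n p K t U V) * w (blkHY_hyb n p K t V U) := by
      intro U V
      simp only [hw]
      rw [← pow_add, ← pow_add]
      congr 1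
      rw [blkHY_Zk_hyb hp, blkHY_Zk_hyb hp, blkHY_Zk n p K t U, blkHY_Zk n p K t V]
      omega
    calc ∑ x ∈ P ×ˢ P,
        (if Zk n p K (blkHY_hyb n p K t x.1 x.2) ≤ j + S ∧
          j ≤ Zk n p K (blkHY_hyb n p K t x.1 x.2) + S then w x.1 * w x.2 else 0)
        = ∑ y ∈ P ×ˢ P,
          (if Zk n p K y.1 ≤ j + S ∧ j ≤ Zk n p K y.1 + S then w y.1 * w y.2 else 0) := by
          refine sum_nbij' (fun x => (blkHY_hyb n p K t x.1 x.2, blkHY_hyb n p K t x.2 x.1))
            (fun x => (blkHY_hyb n p K t x.1 x.2, blkHY_hyb n p K t x.2 x.1)) ?_ ?_ ?_ ?_ ?_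
          · intro x hx
            rw [mem_product, hP, mem_powerset, mem_powerset] at hx ⊢
            exact ⟨blkHY_sub n p K t hx.1 hx.2, blkHY_sub n p K t hx.2 hx.1⟩
          · intro x hx
            rw [mem_product, hP, mem_powerset, mem_powerset] at hx ⊢
            exact ⟨blkHY_sub n p K t hx.1 hx.2, blkHY_sub n p K t hx.2 hx.1⟩
          · intro x _
            exact Prod.ext (blkHY_invol n p K t x.1 x.2) (blkHY_invol n p K t x.2 x.1)
          · intro x _
            exact Prod.ext (blkHY_invol n p K t x.1 x.2) (blkHY_invol n p K t x.2 x.1)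
          · intro x _
            dsimp only
            rw [key x.1 x.2]
      _ = (∑ U ∈ P, w U) *
          ∑ U ∈ P.filter (fun U => Zk n p K U ≤ j + S ∧ j ≤ Zk n p K U + S), w U := by
          rw [mul_comm, sum_filter, sum_mul_sum, sum_product]
          refine sum_congr rfl fun U _ => sum_congr rfl fun V _ => ?_
          split_ifs
          · rfl
          · rw [zero_mul]
  calc (∑ U ∈ P.filter (fun U => Zk n p K U ≤ j), w U) *
        (∑ U ∈ P.filter (fun U => j ≤ Zk n p K U), w U)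
      = ∑ x ∈ (P.filter (fun U => Zk n p K U ≤ j)) ×ˢ (P.filter (fun U => j ≤ Zk n p K U)),
          w x.1 * w x.2 := by rw [sum_mul_sum, sum_product]
    _ ≤ ∑ x ∈ (P.filter (fun U => Zk n p K U ≤ j)) ×ˢ (P.filter (fun U => j ≤ Zk n p K U)),
          ∑ t ∈ range (n + 1), (if Zk n p K (blkHY_hyb n p K t x.1 x.2) ≤ j + S ∧
            j ≤ Zk n p K (blkHY_hyb n p K t x.1 x.2) + S then w x.1 * w x.2 else 0) := by
        refine sum_le_sum fun x hx => ?_
        rw [mem_product, mem_filter, mem_filter] at hx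
        obtain ⟨t, ht, h1, h2⟩ := blkHY_exists hp hS hx.1.2 hx.2.2
        refine le_trans ?_ (single_le_sum (f := fun t =>
          (if Zk n p K (blkHY_hyb n p K t x.1 x.2) ≤ j + S ∧
            j ≤ Zk n p K (blkHY_hyb n p K t x.1 x.2) + S then w x.1 * w x.2 else 0)) ?_ ht)
        · rw [if_pos ⟨h1, h2⟩]
        · intro s _
          split_ifs
          · exact (mul_pos (hw0 _) (hw0 _)).le
          · exact le_rfl
    _ ≤ ∑ x ∈ P ×ˢ P,
          ∑ t ∈ range (n + 1), (if Zk n p K (blkHY_hyb n p K t x.1 x.2) ≤ j + S ∧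
            j ≤ Zk n p K (blkHY_hyb n p K t x.1 x.2) + S then w x.1 * w x.2 else 0) := by
        refine sum_le_sum_of_subset_of_nonneg
          (product_subset_product (filter_subset _ _) (filter_subset _ _)) fun x _ _ => ?_
        refine sum_nonneg fun s _ => ?_
        split_ifs
        · exact (mul_pos (hw0 _) (hw0 _)).le
        · exact le_rfl
    _ = _ := by
        rw [sum_comm]
        rw [sum_congr rfl fun t _ => hone t]
        rw [sum_const, card_range, nsmul_eq_mul]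
        push_cast
        ring

/-- if the tilted mean is `j` then both tails have mass at least `1/(n+1)` -/
theorem mean_tails {n : ℕ} {p : ℕ → ℕ} {K : Finset ℕ} {l : ℝ} (hl : 0 < l) {j : ℕ} (hj : j ≤ n)
    (hmean : ∑ U ∈ (Ico 1 n).powerset, (Zk n p K U : ℝ) * l ^ Zk n p K U =
      j * ∑ U ∈ (Ico 1 n).powerset, l ^ Zk n p K U) :
    (∑ U ∈ (Ico 1 n).powerset, l ^ Zk n p K U) ≤
        (n + 1) * (∑ U ∈ (Ico 1 n).powerset.filter (fun U => Zk n p K U ≤ j), l ^ Zk n p K U) ∧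
      (∑ U ∈ (Ico 1 n).powerset, l ^ Zk n p K U) ≤
        (n + 1) * (∑ U ∈ (Ico 1 n).powerset.filter (fun U => j ≤ Zk n p K U), l ^ Zk n p K U) := by
  have hZ : ∀ U, Zk n p K U ≤ n := fun U =>
    (card_le_card ((filter_subset _ _).trans sdiff_subset)).trans (by rw [card_range])
  have hjn : (j : ℝ) ≤ n := by exact_mod_cast hj
  have h0 : ∑ U ∈ (Ico 1 n).powerset, ((Zk n p K U : ℝ) - j) * l ^ Zk n p K U = 0 := by
    simp only [sub_mul]
    rw [sum_sub_distrib, hmean, mul_sum, sub_self]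
  constructor
  · rw [sum_filter, mul_sum, ← sub_nonpos, ← sum_sub_distrib, ← h0]
    refine sum_le_sum fun U _ => ?_
    have hp1 : 0 < l ^ Zk n p K U := pow_pos hl _
    split_ifs with h
    · have h1 : (0 : ℝ) ≤ Zk n p K U := Nat.cast_nonneg _
      nlinarith
    · have h1 : (j : ℝ) + 1 ≤ Zk n p K U := by
        have : j + 1 ≤ Zk n p K U := by omega
        exact_mod_cast this
      nlinarith
  · have h0' : ∑ U ∈ (Ico 1 n).powerset, ((j : ℝ) - Zk n p K U) * l ^ Zk n p K U = 0 := by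
      rw [← neg_eq_zero, ← h0, ← sum_neg_distrib]
      exact sum_congr rfl fun U _ => by ring
    rw [sum_filter, mul_sum, ← sub_nonpos, ← sum_sub_distrib, ← h0']
    refine sum_le_sum fun U _ => ?_
    have hp1 : 0 < l ^ Zk n p K U := pow_pos hl _
    split_ifs with h
    · have h1 : (Zk n p K U : ℝ) ≤ n := by exact_mod_cast hZ U
      have h2 : (0 : ℝ) ≤ j := Nat.cast_nonneg _
      nlinarith
    · have h1 : (Zk n p K U : ℝ) + 1 ≤ j := by
        have : Zk n p K U + 1 ≤ j := by omega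
        exact_mod_cast this
      nlinarith
-- END BLOCK

end Pool.Agent.Lib_helper19.Src
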