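import Pool.Agent.Lib_helper19.Src.Main
import Pool.Agent.Lib_helper19.SrcA.HY

set_option autoImplicit false

namespace Pool.Agent.Lib_helper19.Src

open Finset



-- BEGIN BLOCK

/-- Jensen for the law `l^Z`: `Σ l^Z u^(Z) ≥ ...` in the form used below: for `u > 0`,
`u^c * (S + log u * (Σ Z l^Z - c S)) ≤ Σ (l u)^Z`, for a real exponent `c` -/
theorem blkTI_jensen {ι : Type} (T : Finset ι) (Z : ι → ℕ) (l u c : ℝ) (hl : 0 < l) (hu : 0 < u) :
    Real.exp (c * Real.log u) * (∑ i ∈ T, l ^ Z i +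
      Real.log u * (∑ i ∈ T, (Z i : ℝ) * l ^ Z i - c * ∑ i ∈ T, l ^ Z i)) ≤
        ∑ i ∈ T, (l * u) ^ Z i := by
  have key : ∀ k : ℕ, Real.exp (c * Real.log u) * (1 + Real.log u * ((k : ℝ) - c)) ≤ u ^ k := by
    intro k
    have h1 : ((k : ℝ) - c) * Real.log u + 1 ≤ Real.exp (((k : ℝ) - c) * Real.log u) :=
      Real.add_one_le_exp _
    have h2 : Real.exp (((k : ℝ) - c) * Real.log u) = u ^ k / Real.exp (c * Real.log u) := by
      rw [sub_mul, Real.exp_sub, ← Real.log_pow, Real.exp_log (pow_pos hu k)]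
    rw [h2, le_div_iff₀ (Real.exp_pos _)] at h1
    linarith
  have h3 : Real.exp (c * Real.log u) * (∑ i ∈ T, l ^ Z i +
      Real.log u * (∑ i ∈ T, (Z i : ℝ) * l ^ Z i - c * ∑ i ∈ T, l ^ Z i)) =
      ∑ i ∈ T, l ^ Z i * (Real.exp (c * Real.log u) * (1 + Real.log u * ((Z i : ℝ) - c))) := by
    rw [Finset.mul_sum (a := c), ← Finset.sum_sub_distrib, Finset.mul_sum (a := Real.log u),
      ← Finset.sum_add_distrib, Finset.mul_sum]
    refine Finset.sum_congr rfl fun i _ => ?_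
    ring
  rw [h3]
  refine Finset.sum_le_sum fun i _ => ?_
  rw [mul_pow]
  exact mul_le_mul_of_nonneg_left (key _) (pow_pos hl _).le

/-- mean bounds: if the mean under the tilt `l` were `> c` with `l < 1`, then ... -/
theorem blkTI_low {n : ℕ} {p : ℕ → ℕ} {K : Finset ℕ} (hK : K ⊆ range n) (hn : 1 ≤ n)
    {l : ℝ} (hl : 0 < l) (hl1 : l < 1) (c : ℝ) (hc : ((n : ℝ) * Real.log 2) / (-Real.log l) + 1 ≤ c) :
    ∑ U ∈ (Ico 1 n).powerset, (Zk n p K U : ℝ) * l ^ Zk n p K U ≤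
      c * ∑ U ∈ (Ico 1 n).powerset, l ^ Zk n p K U := by
  by_contra hneg
  push Not at hneg
  have hlog : Real.log l < 0 := Real.log_neg hl hl1
  -- tilt back to 1: u = 1 / l
  have hJ := blkTI_jensen (Ico 1 n).powerset (fun U => Zk n p K U) l (1 / l) c hl (by positivity)
  have h1 : l * (1 / l) = 1 := by field_simp
  simp only [h1, one_pow] at hJ
  have h2 : Real.log (1 / l) = - Real.log l := by rw [one_div, Real.log_inv]
  rw [h2] at hJ
  have hcard : (∑ U ∈ (Ico 1 n).powerset, (1 : ℝ)) ≤ 2 ^ n := by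
    rw [Finset.sum_const, nsmul_eq_mul, mul_one, Finset.card_powerset, Nat.card_Ico]
    push_cast
    exact pow_le_pow_right₀ (by norm_num) (by omega)
  -- the sum is at least l
  have hS : l ≤ ∑ U ∈ (Ico 1 n).powerset, l ^ Zk n p K U := by
    have h3 : l ≤ l ^ Zk n p K ∅ := by
      have h4 : Zk n p K ∅ ≤ 1 := by
        have := (Zk_le (p := p) hK ∅).1
        rw [Zs_empty hn] at this
        exact this
      have h5 : l ^ 1 ≤ l ^ Zk n p K ∅ := pow_le_pow_of_le_one hl.le hl1.le h4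
      simpa using h5
    exact h3.trans (Finset.single_le_sum (f := fun U => l ^ Zk n p K U)
      (fun U _ => (pow_pos hl _).le) (Finset.empty_mem_powerset _))
  have hpos : 0 < - Real.log l * (∑ U ∈ (Ico 1 n).powerset, (Zk n p K U : ℝ) * l ^ Zk n p K U -
      c * ∑ U ∈ (Ico 1 n).powerset, l ^ Zk n p K U) := mul_pos (by linarith) (by linarith)
  have h5 : Real.exp (c * - Real.log l) * l < 2 ^ n := by
    refine lt_of_lt_of_le ?_ (hJ.trans hcard)
    refine mul_lt_mul_of_pos_left ?_ (Real.exp_pos _)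
    linarith
  have h6 : Real.exp (c * - Real.log l) * l = Real.exp ((c - 1) * (- Real.log l)) := by
    nth_rewrite 2 [← Real.exp_log hl]
    rw [← Real.exp_add]
    ring_nf
  have h7 : (2 : ℝ) ^ n = Real.exp (n * Real.log 2) := by
    rw [← Real.log_pow, Real.exp_log (by positivity)]
  rw [h6, h7] at h5
  have h8 := Real.exp_lt_exp.mp h5
  have h9 : (n : ℝ) * Real.log 2 / (- Real.log l) ≤ c - 1 := by linarith
  rw [div_le_iff₀ (by linarith)] at h9
  linarith

theorem blkTI_high {n : ℕ} {p : ℕ → ℕ} {K : Finset ℕ} (hK : K ⊆ range n)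
    {l : ℝ} (hl1 : 1 < l) {a : ℕ} (ha : ∃ U ⊆ Ico 1 n, Zs n p U = a) (c : ℝ)
    (hc : c ≤ (a : ℝ) - K.card - ((n : ℝ) * Real.log 2) / (Real.log l)) :
    c * ∑ U ∈ (Ico 1 n).powerset, l ^ Zk n p K U ≤
      ∑ U ∈ (Ico 1 n).powerset, (Zk n p K U : ℝ) * l ^ Zk n p K U := by
  by_contra hneg
  push Not at hneg
  have hl : 0 < l := by linarith
  have hlog : 0 < Real.log l := Real.log_pos hl1
  have hJ := blkTI_jensen (Ico 1 n).powerset (fun U => Zk n p K U) l (1 / l) c hl (by positivity)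
  have h1 : l * (1 / l) = 1 := by field_simp
  simp only [h1, one_pow] at hJ
  have h2 : Real.log (1 / l) = - Real.log l := by rw [one_div, Real.log_inv]
  rw [h2] at hJ
  have hcard : (∑ U ∈ (Ico 1 n).powerset, (1 : ℝ)) ≤ 2 ^ n := by
    rw [Finset.sum_const, nsmul_eq_mul, mul_one, Finset.card_powerset, Nat.card_Ico]
    push_cast
    exact pow_le_pow_right₀ (by norm_num) (by omega)
  obtain ⟨U0, hU0, hZ⟩ := ha
  have hZk : (a : ℝ) - K.card ≤ Zk n p K U0 := by
    have := (Zk_le (p := p) hK U0).2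
    rw [hZ] at this
    have h3 : (a : ℝ) ≤ Zk n p K U0 + K.card := by exact_mod_cast this
    linarith
  have hS : Real.exp (((a : ℝ) - K.card) * Real.log l) ≤ ∑ U ∈ (Ico 1 n).powerset, l ^ Zk n p K U := by
    have h3 : Real.exp (((a : ℝ) - K.card) * Real.log l) ≤ l ^ Zk n p K U0 := by
      have h4 : l ^ Zk n p K U0 = Real.exp (Zk n p K U0 * Real.log l) := by
        rw [← Real.log_pow, Real.exp_log (pow_pos hl _)]
      rw [h4]
      exact Real.exp_le_exp.mpr (mul_le_mul_of_nonneg_right hZk hlog.le)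
    exact h3.trans (Finset.single_le_sum (f := fun U => l ^ Zk n p K U)
      (fun U _ => (pow_pos hl _).le) (mem_powerset.mpr hU0))
  have hpos : 0 < - Real.log l * (∑ U ∈ (Ico 1 n).powerset, (Zk n p K U : ℝ) * l ^ Zk n p K U -
      c * ∑ U ∈ (Ico 1 n).powerset, l ^ Zk n p K U) :=
    mul_pos_of_neg_of_neg (by linarith) (by linarith)
  have h5 : Real.exp (c * - Real.log l) * Real.exp (((a : ℝ) - K.card) * Real.log l) < 2 ^ n := by
    refine lt_of_lt_of_le ?_ (hJ.trans hcard)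
    refine mul_lt_mul_of_pos_left ?_ (Real.exp_pos _)
    linarith
  rw [← Real.exp_add] at h5
  have h7 : (2 : ℝ) ^ n = Real.exp (n * Real.log 2) := by
    rw [← Real.log_pow, Real.exp_log (by positivity)]
  rw [h7] at h5
  have h8 := Real.exp_lt_exp.mp h5
  have h9 : (n : ℝ) * Real.log 2 / Real.log l ≤ (a : ℝ) - K.card - c := by linarith
  rw [div_le_iff₀ hlog] at h9
  nlinarith

theorem exists_tilt : ∃ n₀ : ℕ, ∀ n ≥ n₀, ∀ p : ℕ → ℕ, TreeFn n p → ∀ K ⊆ range n,
    30 * K.card ≤ n → ∀ a : ℕ, n ≤ 2 * a → (∃ U ⊆ Ico 1 n, Zs n p U = a) → ∀ j : ℕ,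
      n ≤ 15 * j → 7 * j ≤ 6 * a + 7 → ∃ l ∈ Set.Icc ((1 / 2 : ℝ) ^ 16) (2 ^ 28),
        ∑ U ∈ (Ico 1 n).powerset, (Zk n p K U : ℝ) * l ^ Zk n p K U =
          j * ∑ U ∈ (Ico 1 n).powerset, l ^ Zk n p K U := by
  refine ⟨1000, fun n hn p _ K hK hK30 a hna ha j hj15 hj7 => ?_⟩
  have hl2 : 0 < Real.log 2 := Real.log_pos (by norm_num)
  have hnR : (1000 : ℝ) ≤ n := by exact_mod_cast hn
  have hj15R : (n : ℝ) ≤ 15 * j := by exact_mod_cast hj15
  have hj7R : 7 * (j : ℝ) ≤ 6 * a + 7 := by exact_mod_cast hj7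
  have hnaR : (n : ℝ) ≤ 2 * a := by exact_mod_cast hna
  have hKR : 30 * (K.card : ℝ) ≤ n := by exact_mod_cast hK30
  set f : ℝ → ℝ := fun l => ∑ U ∈ (Ico 1 n).powerset, (Zk n p K U : ℝ) * l ^ Zk n p K U -
    j * ∑ U ∈ (Ico 1 n).powerset, l ^ Zk n p K U with hf
  have hfc : Continuous f := by
    rw [hf]
    fun_prop
  have hlow : f ((1 / 2 : ℝ) ^ 16) ≤ 0 := by
    have h1 := blkTI_low (p := p) hK (by omega) (l := (1 / 2 : ℝ) ^ 16) (by positivity) (by norm_num)
      (j : ℝ) (by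
        have : Real.log ((1 / 2 : ℝ) ^ 16) = - (16 * Real.log 2) := by
          rw [Real.log_pow, one_div, Real.log_inv]
          push_cast
          ring
        have h2 : (n : ℝ) * Real.log 2 / (16 * Real.log 2) = n / 16 := by
          field_simp
        rw [this, neg_neg, h2]
        linarith)
    rw [hf]
    simp only
    linarith
  have hhigh : 0 ≤ f (2 ^ 28) := by
    have h1 := blkTI_high (p := p) hK (l := (2 : ℝ) ^ 28) (by norm_num) ha (j : ℝ) (by
      have : Real.log ((2 : ℝ) ^ 28) = 28 * Real.log 2 := by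
        rw [Real.log_pow]
        push_cast
        ring
      have h2 : (n : ℝ) * Real.log 2 / (28 * Real.log 2) = n / 28 := by
        field_simp
      rw [this, h2]
      linarith)
    rw [hf]
    simp only
    linarith
  obtain ⟨l, hl, hl0⟩ := intermediate_value_Icc (by norm_num : ((1 / 2 : ℝ) ^ 16) ≤ 2 ^ 28)
    hfc.continuousOn ⟨hlow, hhigh⟩
  refine ⟨l, hl, ?_⟩
  have : ∑ U ∈ (Ico 1 n).powerset, (Zk n p K U : ℝ) * l ^ Zk n p K U -
    j * ∑ U ∈ (Ico 1 n).powerset, l ^ Zk n p K U = 0 := hl0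
  linarith
-- END BLOCK

end Pool.Agent.Lib_helper19.Src
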