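import Pool.Agent.Lib_helper19.Src.Main
import Pool.Agent.Lib_helper19.SrcA.CS
import Pool.Agent.Lib_helper19.SrcA.TI

set_option autoImplicit false

namespace Pool.Agent.Lib_helper19.Src

open Finset



-- BEGIN BLOCK
/-! ### Block AC: approximate concavity (uses CS, HY, TI) -/

/-- comparison of powers with exponents differing by at most `b` -/
theorem ac_pow_le {l : ℝ} (hl : l ∈ Set.Icc ((1 / 2 : ℝ) ^ 16) (2 ^ 28)) {x y b : ℕ}
    (h1 : x ≤ y + b) (h2 : y ≤ x + b) : l ^ x ≤ (2 ^ 28 : ℝ) ^ b * l ^ y := by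
  have hl0 : 0 < l := lt_of_lt_of_le (by positivity) hl.1
  rcases le_total 1 l with h | h
  · calc l ^ x ≤ l ^ (y + b) := pow_le_pow_right₀ h h1
      _ = l ^ b * l ^ y := by rw [pow_add]; ring
      _ ≤ (2 ^ 28 : ℝ) ^ b * l ^ y := by
          apply mul_le_mul_of_nonneg_right _ (by positivity)
          exact pow_le_pow_left₀ hl0.le hl.2 b
  · -- `l ≤ 1`
    have h3 : (1 : ℝ) ≤ (2 ^ 28 : ℝ) * l := by
      calc (1 : ℝ) ≤ (2 ^ 28 : ℝ) * (1 / 2 : ℝ) ^ 16 := by norm_num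
        _ ≤ (2 ^ 28 : ℝ) * l := mul_le_mul_of_nonneg_left hl.1 (by positivity)
    have h4 : (1 : ℝ) ≤ ((2 ^ 28 : ℝ) * l) ^ b := one_le_pow₀ h3
    rw [mul_pow] at h4
    rcases le_total y x with hxy | hxy
    · calc l ^ x ≤ l ^ y := pow_le_pow_of_le_one hl0.le h hxy
        _ ≤ (2 ^ 28 : ℝ) ^ b * l ^ y := le_mul_of_one_le_left (by positivity)
            (one_le_pow₀ (by norm_num))
    · have h5 : l ^ b ≤ l ^ (y - x) := pow_le_pow_of_le_one hl0.le h (by omega)
      calc l ^ x = 1 * l ^ x := (one_mul _).symm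
        _ ≤ ((2 ^ 28 : ℝ) ^ b * l ^ b) * l ^ x := mul_le_mul_of_nonneg_right h4 (by positivity)
        _ ≤ ((2 ^ 28 : ℝ) ^ b * l ^ (y - x)) * l ^ x := by
            apply mul_le_mul_of_nonneg_right _ (by positivity)
            exact mul_le_mul_of_nonneg_left h5 (by positivity)
        _ = (2 ^ 28 : ℝ) ^ b * l ^ y := by
            rw [mul_assoc, ← pow_add, Nat.sub_add_cancel hxy]

/-- the sum over a window of values of `Zs` -/
theorem ac_window {n : ℕ} {p : ℕ → ℕ} {l : ℝ} (hl : 0 < l) (Q : ℕ → Prop) [DecidablePred Q]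
    {X : ℝ} (hX0 : 0 ≤ X) (hX : ∀ k, Q k → (cnt n p k : ℝ) * l ^ k ≤ X) :
    ∑ U ∈ (Ico 1 n).powerset.filter (fun U => Q (Zs n p U)), l ^ Zs n p U ≤ (n + 1) * X := by
  have h1 : ∀ U ∈ (Ico 1 n).powerset.filter (fun U => Q (Zs n p U)),
      Zs n p U ∈ range (n + 1) := by
    intro U _
    rw [mem_range]
    have := Zs_le n p U
    omega
  rw [← sum_fiberwise_of_maps_to h1]
  calc ∑ k ∈ range (n + 1), ∑ U ∈ ((Ico 1 n).powerset.filter (fun U => Q (Zs n p U))).filter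
          (fun U => Zs n p U = k), l ^ Zs n p U
      ≤ ∑ _k ∈ range (n + 1), X := by
        apply sum_le_sum
        intro k _
        by_cases hQ : Q k
        · refine le_trans ?_ (hX k hQ)
          have h2 : ((Ico 1 n).powerset.filter (fun U => Q (Zs n p U))).filter
              (fun U => Zs n p U = k) = (Ico 1 n).powerset.filter (fun U => Zs n p U = k) := by
            ext U
            simp only [mem_filter]
            constructor
            · rintro ⟨⟨h3, _⟩, h4⟩; exact ⟨h3, h4⟩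
            · rintro ⟨h3, h4⟩; exact ⟨⟨h3, h4 ▸ hQ⟩, h4⟩
          rw [h2]
          have h5 : ∀ U ∈ (Ico 1 n).powerset.filter (fun U => Zs n p U = k),
              l ^ Zs n p U = l ^ k := by
            intro U hU
            rw [(mem_filter.1 hU).2]
          rw [sum_congr rfl h5, sum_const, nsmul_eq_mul]
          exact le_rfl
        · have h2 : ((Ico 1 n).powerset.filter (fun U => Q (Zs n p U))).filter
              (fun U => Zs n p U = k) = ∅ := by
            ext U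
            simp only [mem_filter, notMem_empty, iff_false]
            rintro ⟨⟨_, h4⟩, h5⟩
            exact hQ (h5 ▸ h4)
          rw [h2, sum_empty]
          exact hX0
    _ = (n + 1) * X := by
        rw [sum_const, card_range, nsmul_eq_mul]; push_cast; ring

theorem ac_large (ε : ℝ) (hε : 0 < ε) (S : ℕ) (hS : 80 / ε ≤ S) :
    ∃ n₀ : ℕ, ∀ n ≥ n₀, ∀ b : ℕ, b * S ≤ n →
      ((S + b : ℕ) : ℝ) ≤ ε * n ∧
      (2 ^ 28 : ℝ) ^ b * (2 ^ 28 : ℝ) ^ b * (n + 1) ^ 4 < Real.exp (ε * n) := by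
  have h80 : 0 < 80 / ε := by positivity
  have hS0 : (0 : ℝ) < S := lt_of_lt_of_le h80 hS
  have hSε : 80 ≤ ε * S := by
    rw [div_le_iff₀ hε] at hS
    linarith
  -- polynomial versus exponential
  have htend := (Real.tendsto_pow_mul_exp_neg_atTop_nhds_zero 4).comp
    (tendsto_natCast_atTop_atTop.const_mul_atTop (by positivity : 0 < ε / 2))
  have hev : ∀ᶠ n : ℕ in Filter.atTop, ((n : ℝ) + 1) ^ 4 < Real.exp (ε / 2 * n) := by
    have hc : 0 < (1 / 2 : ℝ) ^ 4 * (ε / 2) ^ 4 := by positivity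
    have h1 := htend.eventually (gt_mem_nhds hc)
    filter_upwards [h1, Filter.eventually_ge_atTop 1] with n hn hn1
    simp only [Function.comp] at hn
    have hn1' : (1 : ℝ) ≤ n := by exact_mod_cast hn1
    have h2 : Real.exp (-(ε / 2 * n)) * Real.exp (ε / 2 * n) = 1 := by
      rw [← Real.exp_add]; simp
    have h3 := Real.exp_pos (ε / 2 * n)
    have h4 : (ε / 2 * n) ^ 4 < (1 / 2 : ℝ) ^ 4 * (ε / 2) ^ 4 * Real.exp (ε / 2 * n) := by
      calc (ε / 2 * n) ^ 4 = ((ε / 2 * n) ^ 4 * Real.exp (-(ε / 2 * n))) * Real.exp (ε / 2 * n) := by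
            rw [mul_assoc, h2, mul_one]
        _ < _ := mul_lt_mul_of_pos_right hn h3
    have h5 : (n : ℝ) ^ 4 < (1 / 2 : ℝ) ^ 4 * Real.exp (ε / 2 * n) := by
      have h6 : (0 : ℝ) < (ε / 2) ^ 4 := by positivity
      rw [mul_pow] at h4
      have h7 : (ε / 2) ^ 4 * (n : ℝ) ^ 4 < (ε / 2) ^ 4 * ((1 / 2 : ℝ) ^ 4 * Real.exp (ε / 2 * n)) := by
        linarith
      exact lt_of_mul_lt_mul_left h7 h6.le
    have h8 : ((n : ℝ) + 1) ^ 4 ≤ (2 * n) ^ 4 := pow_le_pow_left₀ (by positivity) (by linarith) 4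
    have h9 : (2 * (n : ℝ)) ^ 4 = 2 ^ 4 * (n : ℝ) ^ 4 := by ring
    rw [h9] at h8
    nlinarith
  obtain ⟨n₁, hn₁⟩ := Filter.eventually_atTop.1 hev
  refine ⟨max n₁ ⌈2 * S / ε⌉₊, ?_⟩
  intro n hn b hb
  have hna : n₁ ≤ n := (le_max_left _ _).trans hn
  have hnb : 2 * (S : ℝ) / ε ≤ n :=
    (Nat.le_ceil _).trans (by exact_mod_cast (le_max_right _ _).trans hn)
  rw [div_le_iff₀ hε] at hnb
  have hb' : (b : ℝ) * S ≤ n := by exact_mod_cast hb
  have hn0 : (0 : ℝ) ≤ n := Nat.cast_nonneg n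
  have hb0 : (0 : ℝ) ≤ b := Nat.cast_nonneg b
  have hb80 : 80 * (b : ℝ) ≤ ε * n := by
    have h1 : (b : ℝ) * 80 ≤ b * (ε * S) := mul_le_mul_of_nonneg_left hSε hb0
    have h2 : ε * (b * S) ≤ ε * n := mul_le_mul_of_nonneg_left hb' hε.le
    nlinarith
  constructor
  · push_cast
    linarith
  · have h1 := hn₁ n hna
    have h2 : (2 ^ 28 : ℝ) ^ b * (2 ^ 28 : ℝ) ^ b ≤ Real.exp (ε / 2 * n) := by
      have h3 : (2 : ℝ) ≤ Real.exp (7 / 10) := by
        have h4 := Real.log_two_lt_d9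
        have h5 : Real.log 2 ≤ 7 / 10 := by linarith
        exact (Real.log_le_iff_le_exp (by norm_num)).1 h5
      calc (2 ^ 28 : ℝ) ^ b * (2 ^ 28 : ℝ) ^ b = 2 ^ (56 * b) := by
            rw [← pow_mul, ← pow_add]; congr 1; ring
        _ ≤ Real.exp (7 / 10) ^ (56 * b) := pow_le_pow_left₀ (by norm_num) h3 _
        _ = Real.exp ((56 * b : ℕ) * (7 / 10)) := by rw [← Real.exp_nat_mul]
        _ ≤ Real.exp (ε / 2 * n) := by
            apply Real.exp_le_exp.2
            push_cast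
            linarith
    calc (2 ^ 28 : ℝ) ^ b * (2 ^ 28 : ℝ) ^ b * (n + 1) ^ 4
        ≤ Real.exp (ε / 2 * n) * (n + 1) ^ 4 := mul_le_mul_of_nonneg_right h2 (by positivity)
      _ < Real.exp (ε / 2 * n) * Real.exp (ε / 2 * n) := mul_lt_mul_of_pos_left h1 (Real.exp_pos _)
      _ = Real.exp (ε * n) := by rw [← Real.exp_add]; congr 1; ring

theorem approx (ε : ℝ) (hε : 0 < ε) : ∃ n₀ : ℕ, ∀ n ≥ n₀, ∀ p : ℕ → ℕ, TreeFn n p → ∀ a : ℕ,
    n ≤ 2 * a → (∃ U ⊆ Ico 1 n, Zs n p U = a) → ∀ j : ℕ, n ≤ 15 * j → 7 * j ≤ 6 * a + 7 →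
      ∃ l ∈ Set.Icc ((1 / 2 : ℝ) ^ 16) (2 ^ 28), ∃ k : ℕ, |(k : ℝ) - j| ≤ ε * n ∧
        Real.exp (-ε * n) * PR n p l ≤ (cnt n p k : ℝ) * l ^ k := by
  set S : ℕ := max 30 ⌈80 / ε⌉₊ with hSdef
  have hS30 : 30 ≤ S := le_max_left _ _
  have hS80 : 80 / ε ≤ (S : ℝ) := (Nat.le_ceil _).trans (by exact_mod_cast le_max_right _ _)
  obtain ⟨n₁, hn₁⟩ := ac_large ε hε S hS80
  obtain ⟨n₂, hn₂⟩ := exists_tilt
  refine ⟨max (max n₁ n₂) 7, ?_⟩
  intro n hn p hp a hna hU j hj1 hj2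
  have hnn1 : n₁ ≤ n := by omega
  have hnn2 : n₂ ≤ n := by omega
  have hn7 : 7 ≤ n := by omega
  obtain ⟨K, hKn, hKS, hcomp⟩ := exists_cut (n := n) (p := p) hp (S := S) (by omega)
  have hK30 : 30 * K.card ≤ n := by
    calc 30 * K.card ≤ S * K.card := Nat.mul_le_mul_right _ hS30
      _ = K.card * S := Nat.mul_comm _ _
      _ ≤ n := hKS
  obtain ⟨l, hl, hmean⟩ := hn₂ n hnn2 p hp K hKn hK30 a hna hU j hj1 hj2
  refine ⟨l, hl, ?_⟩
  have hl0 : 0 < l := lt_of_lt_of_le (by positivity) hl.1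
  have han : a ≤ n := by
    obtain ⟨U, _, hUa⟩ := hU
    rw [← hUa]
    exact Zs_le n p U
  have hjn : j ≤ n := by omega
  obtain ⟨hsz, hexp⟩ := hn₁ n hnn1 K.card hKS
  by_contra hcon
  push Not at hcon
  -- notation
  set P := (Ico 1 n).powerset with hP
  set W : ℝ := ∑ U ∈ P, l ^ Zk n p K U with hW
  set L : ℝ := ∑ U ∈ P.filter (fun U => Zk n p K U ≤ j), l ^ Zk n p K U with hL
  set H : ℝ := ∑ U ∈ P.filter (fun U => j ≤ Zk n p K U), l ^ Zk n p K U with hH
  set M : ℝ := ∑ U ∈ P.filter (fun U => Zk n p K U ≤ j + S ∧ j ≤ Zk n p K U + S),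
    l ^ Zk n p K U with hM
  set T : ℝ := (2 ^ 28 : ℝ) ^ K.card with hT
  have hT0 : 0 < T := by positivity
  obtain ⟨hWL, hWH⟩ := mean_tails (K := K) hl0 hjn hmean
  have hLHM := hybrid hp hKn hcomp hl0 j
  rw [← hP, ← hW, ← hL] at hWL
  rw [← hP, ← hW, ← hH] at hWH
  rw [← hP, ← hW, ← hH, ← hL, ← hM] at hLHM
  have hPR : 0 < PR n p l := PR_pos hl0
  have hPRW : PR n p l ≤ T * W := by
    unfold PR
    rw [← hP, hW, mul_sum]
    apply sum_le_sum
    intro U _
    have := Zk_le (p := p) hKn U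
    exact ac_pow_le hl (by omega) (by omega)
  have hW0 : 0 < W := by
    by_contra h
    push Not at h
    have : T * W ≤ 0 := mul_nonpos_of_nonneg_of_nonpos hT0.le h
    linarith
  have hL0 : 0 ≤ L := sum_nonneg fun U _ => by positivity
  have hn1 : (0 : ℝ) < (n : ℝ) + 1 := by positivity
  have hWM : W ≤ (n + 1) ^ 3 * M := by
    have h1 : W * W ≤ ((n + 1) * L) * ((n + 1) * H) :=
      mul_le_mul hWL hWH hW0.le (by positivity)
    have h2 : ((n : ℝ) + 1) * L * ((n + 1) * H) = (n + 1) ^ 2 * (L * H) := by ring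
    have h3 : ((n : ℝ) + 1) ^ 2 * (L * H) ≤ (n + 1) ^ 2 * ((n + 1) * W * M) :=
      mul_le_mul_of_nonneg_left hLHM (by positivity)
    have h4 : W * W ≤ W * ((n + 1) ^ 3 * M) := by
      calc W * W ≤ (n + 1) ^ 2 * ((n + 1) * W * M) := by rw [h2] at h1; exact h1.trans h3
        _ = W * ((n + 1) ^ 3 * M) := by ring
    exact le_of_mul_le_mul_left h4 hW0
  -- the window in terms of `Zs`
  have hMs : M ≤ T * ∑ U ∈ P.filter (fun U => Zs n p U ≤ j + (S + K.card) ∧
      j ≤ Zs n p U + (S + K.card)), l ^ Zs n p U := by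
    rw [hM, mul_sum]
    calc ∑ U ∈ P.filter (fun U => Zk n p K U ≤ j + S ∧ j ≤ Zk n p K U + S), l ^ Zk n p K U
        ≤ ∑ U ∈ P.filter (fun U => Zk n p K U ≤ j + S ∧ j ≤ Zk n p K U + S),
            T * l ^ Zs n p U := by
          apply sum_le_sum
          intro U _
          have := Zk_le (p := p) hKn U
          exact ac_pow_le hl (by omega) (by omega)
      _ ≤ _ := by
          apply sum_le_sum_of_subset_of_nonneg
          · intro U hU
            rw [mem_filter] at hU ⊢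
            have := Zk_le (p := p) hKn U
            exact ⟨hU.1, by omega, by omega⟩
          · intro U _ _
            positivity
  set X : ℝ := Real.exp (-ε * n) * PR n p l with hX
  have hX0 : 0 < X := by positivity
  have hwin := ac_window (n := n) (p := p) hl0
    (fun k => k ≤ j + (S + K.card) ∧ j ≤ k + (S + K.card)) (X := X) hX0.le (by
      intro k hk
      refine (hcon k ?_).le
      rw [abs_le]
      have h1 : (k : ℝ) ≤ j + ((S + K.card : ℕ) : ℝ) := by exact_mod_cast hk.1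
      have h2 : (j : ℝ) ≤ k + ((S + K.card : ℕ) : ℝ) := by exact_mod_cast hk.2
      constructor <;> linarith)
  rw [← hP] at hwin
  have hfin : PR n p l ≤ T * T * (n + 1) ^ 4 * X := by
    calc PR n p l ≤ T * W := hPRW
      _ ≤ T * ((n + 1) ^ 3 * M) := mul_le_mul_of_nonneg_left hWM hT0.le
      _ ≤ T * ((n + 1) ^ 3 * (T * ((n + 1) * X))) := by
          apply mul_le_mul_of_nonneg_left _ hT0.le
          apply mul_le_mul_of_nonneg_left _ (by positivity)
          exact hMs.trans (mul_le_mul_of_nonneg_left hwin hT0.le)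
      _ = T * T * (n + 1) ^ 4 * X := by ring
  have hlt : T * T * (n + 1) ^ 4 * X < PR n p l := by
    calc T * T * (n + 1) ^ 4 * X < Real.exp (ε * n) * X := mul_lt_mul_of_pos_right hexp hX0
      _ = PR n p l := by
          rw [hX, ← mul_assoc, ← Real.exp_add]
          have : ε * n + -ε * n = 0 := by ring
          rw [this, Real.exp_zero, one_mul]
  linarith
-- END BLOCK

end Pool.Agent.Lib_helper19.Src
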