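import Pool.Agent.Lib_helper19.Src.Main

set_option autoImplicit false

namespace Pool.Agent.Lib_helper19.Src

open Finset



-- BEGIN BLOCK
theorem blkBN_sum_pow (F : Finset ℕ) (x : ℝ) :
    ∑ A ∈ F.powerset, x ^ A.card = (1 + x) ^ F.card := by
  have h := Finset.sum_pow_mul_eq_add_pow x 1 F
  simp only [one_pow, mul_one] at h
  rw [h, add_comm]

theorem blkBN_half (F : Finset ℕ) (l η t : ℝ) (hl : 0 < l) (hη1 : η ≤ 1)
    (ht : |t| = η / 2) (P : Finset ℕ → Prop) [DecidablePred P]
    (hP : ∀ A ∈ F.powerset, P A → η * F.card ≤ 2 / η * t * ((A.card : ℝ) - l / (1 + l) * F.card))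
    (hη0 : 0 < η) :
    ∑ A ∈ F.powerset.filter P, l ^ A.card ≤
      Real.exp (-(η ^ 2 / 4) * F.card) * (1 + l) ^ F.card := by
  set m : ℝ := (F.card : ℝ) with hm
  have hm0 : 0 ≤ m := Nat.cast_nonneg _
  set q : ℝ := l / (1 + l) with hq
  have hq0 : 0 ≤ q := by positivity
  have hq1 : q ≤ 1 := by
    rw [hq, div_le_one (by positivity)]
    linarith
  have hterm : ∀ A ∈ F.powerset.filter P, l ^ A.card ≤
      Real.exp (-(η ^ 2 / 2) * m - t * q * m) * (l * Real.exp t) ^ A.card := by
    intro A hA
    rw [Finset.mem_filter] at hA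
    have h1 := hP A hA.1 hA.2
    have h2 : η ^ 2 / 2 * m ≤ t * ((A.card : ℝ) - q * m) := by
      have h3 : η / 2 * (η * m) ≤ η / 2 * (2 / η * t * ((A.card : ℝ) - q * m)) :=
        mul_le_mul_of_nonneg_left h1 (by positivity)
      have h4 : η / 2 * (2 / η * t * ((A.card : ℝ) - q * m)) = t * ((A.card : ℝ) - q * m) := by
        field_simp
      rw [h4] at h3
      linarith
    rw [mul_pow, ← Real.exp_nat_mul]
    have h5 : Real.exp (-(η ^ 2 / 2) * m - t * q * m) * (l ^ A.card * Real.exp (A.card * t)) =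
        l ^ A.card * Real.exp (-(η ^ 2 / 2) * m + t * ((A.card : ℝ) - q * m)) := by
      rw [mul_comm, mul_assoc, ← Real.exp_add]
      congr 2
      ring
    rw [h5]
    have h6 : (1 : ℝ) ≤ Real.exp (-(η ^ 2 / 2) * m + t * ((A.card : ℝ) - q * m)) := by
      apply Real.one_le_exp
      linarith
    have h7 : 0 < l ^ A.card := by positivity
    nlinarith
  calc ∑ A ∈ F.powerset.filter P, l ^ A.card
      ≤ ∑ A ∈ F.powerset.filter P,
        Real.exp (-(η ^ 2 / 2) * m - t * q * m) * (l * Real.exp t) ^ A.card :=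
        Finset.sum_le_sum hterm
    _ ≤ ∑ A ∈ F.powerset,
        Real.exp (-(η ^ 2 / 2) * m - t * q * m) * (l * Real.exp t) ^ A.card := by
        apply Finset.sum_le_sum_of_subset_of_nonneg (Finset.filter_subset _ _)
        intro A _ _
        positivity
    _ = Real.exp (-(η ^ 2 / 2) * m - t * q * m) * (1 + l * Real.exp t) ^ F.card := by
        rw [← Finset.mul_sum, blkBN_sum_pow]
    _ ≤ Real.exp (-(η ^ 2 / 2) * m - t * q * m) *
          ((1 + l) * Real.exp (q * (t + t ^ 2))) ^ F.card := by
        apply mul_le_mul_of_nonneg_left _ (Real.exp_pos _).le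
        apply pow_le_pow_left₀ (by positivity)
        have h1 : Real.exp t ≤ 1 + t + t ^ 2 := by
          have h2 := Real.abs_exp_sub_one_sub_id_le (x := t) (by rw [ht]; linarith)
          have h3 := (abs_le.mp h2).2
          linarith
        have h2 : q * (t + t ^ 2) + 1 ≤ Real.exp (q * (t + t ^ 2)) := Real.add_one_le_exp _
        have h3 : (1 + l) * q = l := by
          rw [hq]; field_simp
        have h4 : 1 + l * Real.exp t ≤ (1 + l) * (q * (t + t ^ 2) + 1) := by
          have : (1 + l) * (q * (t + t ^ 2) + 1) = 1 + l * (1 + t + t ^ 2) := by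
            rw [mul_add, ← mul_assoc, h3]; ring
          rw [this]
          have := mul_le_mul_of_nonneg_left h1 hl.le
          linarith
        exact h4.trans (mul_le_mul_of_nonneg_left h2 (by positivity))
    _ = Real.exp (-(η ^ 2 / 2) * m + q * t ^ 2 * m) * (1 + l) ^ F.card := by
        rw [mul_pow, ← Real.exp_nat_mul, ← hm, mul_comm ((1 + l) ^ F.card), ← mul_assoc,
          ← Real.exp_add]
        congr 2
        ring
    _ ≤ Real.exp (-(η ^ 2 / 4) * m) * (1 + l) ^ F.card := by
        apply mul_le_mul_of_nonneg_right _ (by positivity)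
        apply Real.exp_le_exp.mpr
        have h1 : t ^ 2 = η ^ 2 / 4 := by
          rw [← sq_abs, ht]; ring
        rw [h1]
        have h2 : q * (η ^ 2 / 4) * m ≤ 1 * (η ^ 2 / 4) * m := by
          apply mul_le_mul_of_nonneg_right _ hm0
          exact mul_le_mul_of_nonneg_right hq1 (by positivity)
        nlinarith

theorem binom_tail (F : Finset ℕ) (l η : ℝ) (hl : 0 < l) (hη0 : 0 < η) (hη1 : η ≤ 1) :
    ∑ A ∈ F.powerset.filter (fun A => η * F.card < |(A.card : ℝ) - l / (1 + l) * F.card|),
      l ^ A.card ≤ 2 * Real.exp (-(η ^ 2 / 4) * F.card) * (1 + l) ^ F.card := by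
  classical
  have h1 := blkBN_half F l η (η / 2) hl hη1 (abs_of_pos (by positivity))
    (fun A => η * F.card < (A.card : ℝ) - l / (1 + l) * F.card) (by
      intro A _ h
      have : 2 / η * (η / 2) = 1 := by field_simp
      rw [this, one_mul]
      exact h.le) hη0
  have h2 := blkBN_half F l η (-(η / 2)) hl hη1 (by rw [abs_neg]; exact abs_of_pos (by positivity))
    (fun A => η * F.card < -((A.card : ℝ) - l / (1 + l) * F.card)) (by
      intro A _ h
      have : 2 / η * -(η / 2) = -1 := by field_simp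
      rw [this]
      linarith) hη0
  have h3 : F.powerset.filter (fun A => η * F.card < |(A.card : ℝ) - l / (1 + l) * F.card|) ⊆
      F.powerset.filter (fun A => η * F.card < (A.card : ℝ) - l / (1 + l) * F.card) ∪
      F.powerset.filter (fun A => η * F.card < -((A.card : ℝ) - l / (1 + l) * F.card)) := by
    intro A hA
    rw [Finset.mem_filter] at hA
    rw [Finset.mem_union, Finset.mem_filter, Finset.mem_filter]
    rcases lt_abs.mp hA.2 with h | h
    · exact Or.inl ⟨hA.1, h⟩
    · exact Or.inr ⟨hA.1, h⟩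
  refine (Finset.sum_le_sum_of_subset_of_nonneg h3 (fun A _ _ => by positivity)).trans ?_
  have h4 := Finset.sum_union_inter (s₁ := F.powerset.filter (fun A => η * F.card < (A.card : ℝ) - l / (1 + l) * F.card)) (s₂ := F.powerset.filter (fun A => η * F.card < -((A.card : ℝ) - l / (1 + l) * F.card))) (f := fun A : Finset ℕ => l ^ A.card)
  have h5 : 0 ≤ ∑ A ∈ F.powerset.filter (fun A => η * F.card < (A.card : ℝ) - l / (1 + l) * F.card) ∩
      F.powerset.filter (fun A => η * F.card < -((A.card : ℝ) - l / (1 + l) * F.card)), l ^ A.card :=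
    Finset.sum_nonneg fun A _ => by positivity
  linarith
-- END BLOCK

end Pool.Agent.Lib_helper19.Src
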