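import Pool.Agent.Lib_helper19.Src.Main
import Pool.Agent.Lib_helper19.SrcA.BA

set_option autoImplicit false

namespace Pool.Agent.Lib_helper19.Src

open Finset



-- BEGIN BLOCK
/-- `W` changes by a factor at most `L` when the edge `e` is flipped -/
def blkFE_Lip (L : ℝ) (e : ℕ) (W : Finset ℕ → ℝ) : Prop :=
  ∀ U : Finset ℕ, W (insert e U) ≤ L * W (U.erase e) ∧ W (U.erase e) ≤ L * W (insert e U)

theorem blkFE_one {E : Finset ℕ} {e : ℕ} (he : e ∈ E) {L : ℝ} (hL : 0 < L) (W : Finset ℕ → ℝ)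
    (hW : blkFE_Lip L e W) (c : Bool) :
    1 / (1 + L) * ∑ U ∈ E.powerset, W U ≤
      ∑ U ∈ E.powerset, (if (e ∈ U ↔ c = true) then W U else 0) := by
  classical
  have hE : E = insert e (E.erase e) := (Finset.insert_erase he).symm
  have hne : e ∉ E.erase e := Finset.notMem_erase e E
  rw [hE, Finset.sum_powerset_insert hne, Finset.sum_powerset_insert hne,
    ← Finset.sum_add_distrib, ← Finset.sum_add_distrib, Finset.mul_sum]
  refine Finset.sum_le_sum fun U hU => ?_
  have heU : e ∉ U := fun h => hne (Finset.mem_powerset.mp hU h)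
  obtain ⟨h1, h2⟩ := hW U
  rw [Finset.erase_eq_of_notMem heU] at h1 h2
  rw [div_mul_eq_mul_div, one_mul, div_le_iff₀ (by positivity)]
  cases c
  · simp only [heU, Finset.mem_insert_self, Bool.false_eq_true, iff_false, not_true_eq_false,
      not_false_eq_true, if_true, if_false, add_zero]
    linarith
  · simp only [heU, Finset.mem_insert_self, iff_true, if_true, if_false, zero_add]
    linarith

theorem blkFE_many {E : Finset ℕ} {L : ℝ} (hL : 0 < L) (b : ℕ → Bool) (R : Finset ℕ) :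
    ∀ W : Finset ℕ → ℝ, R ⊆ E → (∀ e ∈ R, blkFE_Lip L e W) →
      (1 / (1 + L)) ^ R.card * ∑ U ∈ E.powerset, W U ≤
        ∑ U ∈ E.powerset, (if (∀ e ∈ R, (e ∈ U ↔ b e = true)) then W U else 0) := by
  classical
  induction R using Finset.induction_on with
  | empty =>
    intro W _ _
    simp
  | insert a R ha ih =>
    intro W hR hW
    have hRE : R ⊆ E := fun x hx => hR (Finset.mem_insert_of_mem hx)
    have haE : a ∈ E := hR (Finset.mem_insert_self _ _)
    have h1 := ih W hRE (fun e he => hW e (Finset.mem_insert_of_mem he))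
    have hW' : blkFE_Lip L a (fun U => if (∀ e ∈ R, (e ∈ U ↔ b e = true)) then W U else 0) := by
      intro U
      have hiff : (∀ e ∈ R, (e ∈ insert a U ↔ b e = true)) ↔
          (∀ e ∈ R, (e ∈ U.erase a ↔ b e = true)) := by
        refine forall₂_congr fun e he => ?_
        have hea : e ≠ a := fun h => ha (h ▸ he)
        simp [hea]
      obtain ⟨h2, h3⟩ := hW a (Finset.mem_insert_self _ _) U
      by_cases hc : ∀ e ∈ R, (e ∈ insert a U ↔ b e = true)
      · have hc' := hiff.mp hc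
        simp only [if_pos hc, if_pos hc']
        exact ⟨h2, h3⟩
      · have hc' : ¬ ∀ e ∈ R, (e ∈ U.erase a ↔ b e = true) := fun h => hc (hiff.mpr h)
        simp only [if_neg hc, if_neg hc']
        simp
    have h4 := blkFE_one haE hL _ hW' (b a)
    have hκ : 0 ≤ 1 / (1 + L) := by positivity
    calc (1 / (1 + L)) ^ (insert a R).card * ∑ U ∈ E.powerset, W U
        = 1 / (1 + L) * ((1 / (1 + L)) ^ R.card * ∑ U ∈ E.powerset, W U) := by
          rw [Finset.card_insert_of_notMem ha]; ring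
      _ ≤ 1 / (1 + L) * ∑ U ∈ E.powerset,
            (if (∀ e ∈ R, (e ∈ U ↔ b e = true)) then W U else 0) :=
          mul_le_mul_of_nonneg_left h1 hκ
      _ ≤ _ := h4
      _ = _ := by
          refine Finset.sum_congr rfl fun U _ => ?_
          by_cases h5 : (a ∈ U ↔ b a = true)
          · by_cases h6 : ∀ e ∈ R, (e ∈ U ↔ b e = true)
            · rw [if_pos h5, if_pos h6, if_pos]
              simp only [Finset.forall_mem_insert]
              exact ⟨h5, h6⟩
            · rw [if_pos h5, if_neg h6, if_neg]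
              simp only [Finset.forall_mem_insert]
              exact fun h => h6 h.2
          · rw [if_neg h5, if_neg]
            simp only [Finset.forall_mem_insert]
            exact fun h => h5 h.1

theorem blkFE_Zs {n : ℕ} {p : ℕ → ℕ} (hp : TreeFn n p) {l : ℝ} (hl : 0 < l) {e : ℕ}
    (he : e ∈ Ico 1 n) : blkFE_Lip (max l l⁻¹) e (fun U => l ^ Zs n p U) := by
  have hL1 : 1 ≤ max l l⁻¹ := by
    rcases le_total 1 l with h | h
    · exact h.trans (le_max_left _ _)
    · exact ((one_le_inv₀ hl).mpr h).trans (le_max_right _ _)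
  have key : ∀ x y : ℕ, x ≤ y + 1 → y ≤ x + 1 → l ^ x ≤ max l l⁻¹ * l ^ y := by
    intro x y h1 h2
    have hy : 0 < l ^ y := pow_pos hl y
    rcases Nat.lt_trichotomy x y with h | h | h
    · have hy' : y = x + 1 := by omega
      subst hy'
      have hx : 0 < l ^ x := pow_pos hl x
      have : l ^ x = l⁻¹ * l ^ (x + 1) := by
        rw [pow_succ]; field_simp
      calc l ^ x = l⁻¹ * l ^ (x + 1) := this
        _ ≤ max l l⁻¹ * l ^ (x + 1) := mul_le_mul_of_nonneg_right (le_max_right _ _) hy.le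
    · subst h
      nlinarith
    · have hx' : x = y + 1 := by omega
      subst hx'
      rw [pow_succ, mul_comm]
      exact mul_le_mul_of_nonneg_right (le_max_left _ _) hy.le
  intro U
  obtain ⟨h1, h2⟩ := Zs_flip hp U he
  exact ⟨key _ _ h1 h2, key _ _ h2 h1⟩

theorem blkFE_prod {n : ℕ} {p : ℕ → ℕ} (hp : TreeFn n p) {C : Finset ℕ} {R : ℕ → Finset ℕ}
    {b : ℕ → Bool} (hS : Switch n p C R b) {l : ℝ} (hl : 0 < l) {a : ℝ} (ha0 : 0 ≤ a)
    (ha1 : a ≤ 1) (C' : Finset ℕ) (hC' : C' ⊆ C) :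
    ∑ U ∈ (Ico 1 n).powerset, l ^ Zs n p U *
        ∏ v ∈ C', (1 - a * (if (∀ e ∈ R v, (e ∈ U ↔ b e = true)) then 1 else 0)) ≤
      (1 - a * (1 / (1 + max l l⁻¹)) ^ 2) ^ C'.card *
        ∑ U ∈ (Ico 1 n).powerset, l ^ Zs n p U := by
  classical
  set κ : ℝ := 1 / (1 + max l l⁻¹) with hκ
  have hL0 : 0 < max l l⁻¹ := lt_of_lt_of_le hl (le_max_left _ _)
  have hκ0 : 0 ≤ κ := by positivity
  have hκ1 : κ ≤ 1 := by
    rw [hκ, div_le_one (by positivity)]
    linarith
  induction C' using Finset.induction_on with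
  | empty => simp
  | insert v C' hv ih =>
    have hvC : v ∈ C := hC' (Finset.mem_insert_self _ _)
    have hC'' : C' ⊆ C := fun x hx => hC' (Finset.mem_insert_of_mem hx)
    have ih' := ih hC''
    set h : Finset ℕ → ℝ := fun U =>
      ∏ v ∈ C', (1 - a * (if (∀ e ∈ R v, (e ∈ U ↔ b e = true)) then 1 else 0)) with hh
    have hfac : ∀ (w : ℕ) (U : Finset ℕ),
        0 ≤ 1 - a * (if (∀ e ∈ R w, (e ∈ U ↔ b e = true)) then (1 : ℝ) else 0) := by
      intro w U
      split_ifs
      · linarith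
      · linarith
    have hh0 : ∀ U, 0 ≤ h U := fun U => Finset.prod_nonneg fun w _ => hfac w U
    set W : Finset ℕ → ℝ := fun U => l ^ Zs n p U * h U with hW
    have hLip : ∀ e ∈ R v, blkFE_Lip (max l l⁻¹) e W := by
      intro e he U
      have heE : e ∈ Ico 1 n := (Finset.mem_sdiff.mp (hS.Rsub v hvC he)).1
      have hheq : h (insert e U) = h (U.erase e) := by
        refine Finset.prod_congr rfl fun w hw => ?_
        have hwv : w ≠ v := fun h' => hv (h' ▸ hw)
        have hdis := hS.disj w (hC'' hw) v hvC hwv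
        have hiff : (∀ f ∈ R w, (f ∈ insert e U ↔ b f = true)) ↔
            (∀ f ∈ R w, (f ∈ U.erase e ↔ b f = true)) := by
          refine forall₂_congr fun f hf => ?_
          have hfe : f ≠ e := fun h' =>
            (Finset.disjoint_left.mp hdis hf) (h' ▸ he)
          simp [hfe]
        by_cases hc : ∀ f ∈ R w, (f ∈ insert e U ↔ b f = true)
        · rw [if_pos hc, if_pos (hiff.mp hc)]
        · rw [if_neg hc, if_neg (fun h' => hc (hiff.mpr h'))]
      obtain ⟨h1, h2⟩ := blkFE_Zs hp hl heE U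
      simp only at h1 h2
      constructor
      · show l ^ Zs n p (insert e U) * h (insert e U) ≤
          max l l⁻¹ * (l ^ Zs n p (U.erase e) * h (U.erase e))
        rw [hheq, ← mul_assoc]
        exact mul_le_mul_of_nonneg_right h1 (hh0 _)
      · show l ^ Zs n p (U.erase e) * h (U.erase e) ≤
          max l l⁻¹ * (l ^ Zs n p (insert e U) * h (insert e U))
        rw [hheq, ← mul_assoc]
        exact mul_le_mul_of_nonneg_right h2 (hh0 _)
    have hRE : R v ⊆ Ico 1 n := fun e he => (Finset.mem_sdiff.mp (hS.Rsub v hvC he)).1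
    have hmany := blkFE_many hL0 b (R v) W hRE hLip
    have hW0 : 0 ≤ ∑ U ∈ (Ico 1 n).powerset, W U :=
      Finset.sum_nonneg fun U _ => mul_nonneg (pow_pos hl _).le (hh0 U)
    have hpow : κ ^ 2 ≤ κ ^ (R v).card := pow_le_pow_of_le_one hκ0 hκ1 (hS.Rcard v hvC)
    have h5 : κ ^ 2 * ∑ U ∈ (Ico 1 n).powerset, W U ≤
        ∑ U ∈ (Ico 1 n).powerset,
          (if (∀ e ∈ R v, (e ∈ U ↔ b e = true)) then W U else 0) :=
      (mul_le_mul_of_nonneg_right hpow hW0).trans hmany
    have h6 : ∑ U ∈ (Ico 1 n).powerset, l ^ Zs n p U *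
        ∏ v ∈ insert v C', (1 - a * (if (∀ e ∈ R v, (e ∈ U ↔ b e = true)) then 1 else 0)) =
        ∑ U ∈ (Ico 1 n).powerset, W U - a * ∑ U ∈ (Ico 1 n).powerset,
          (if (∀ e ∈ R v, (e ∈ U ↔ b e = true)) then W U else 0) := by
      rw [Finset.mul_sum, ← Finset.sum_sub_distrib]
      refine Finset.sum_congr rfl fun U _ => ?_
      rw [Finset.prod_insert hv]
      show _ = l ^ Zs n p U * h U - a * (if _ then l ^ Zs n p U * h U else 0)
      split_ifs
      · ring
      · ring
    rw [h6, Finset.card_insert_of_notMem hv, pow_succ]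
    have h7 : 0 ≤ 1 - a * κ ^ 2 := by
      have : a * κ ^ 2 ≤ 1 * 1 := mul_le_mul ha1 (pow_le_one₀ hκ0 hκ1) (by positivity) (by norm_num)
      linarith
    calc ∑ U ∈ (Ico 1 n).powerset, W U - a * ∑ U ∈ (Ico 1 n).powerset,
          (if (∀ e ∈ R v, (e ∈ U ↔ b e = true)) then W U else 0)
        ≤ (1 - a * κ ^ 2) * ∑ U ∈ (Ico 1 n).powerset, W U := by
          have := mul_le_mul_of_nonneg_left h5 ha0
          linarith
      _ ≤ (1 - a * κ ^ 2) * ((1 - a * κ ^ 2) ^ C'.card *
            ∑ U ∈ (Ico 1 n).powerset, l ^ Zs n p U) := mul_le_mul_of_nonneg_left ih' h7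
      _ = _ := by ring

theorem fe_bound {n : ℕ} {p : ℕ → ℕ} (hp : TreeFn n p) {C : Finset ℕ} {R : ℕ → Finset ℕ}
    {b : ℕ → Bool} (hS : Switch n p C R b) {l : ℝ} (hl : 0 < l) {a : ℝ} (ha0 : 0 ≤ a)
    (ha1 : a ≤ 1) :
    ∑ U ∈ (Ico 1 n).powerset, l ^ Zs n p U * (1 - a) ^ (Fr n p C U).card ≤
      (1 - a * (1 / (1 + max l l⁻¹)) ^ 2) ^ C.card * PR n p l := by
  classical
  refine le_trans ?_ (blkFE_prod hp hS hl ha0 ha1 C le_rfl)
  refine Finset.sum_le_sum fun U _ => ?_
  apply mul_le_mul_of_nonneg_left _ (pow_pos hl _).le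
  have h1 : (1 - a) ^ (Fr n p C U).card = ∏ v ∈ C, (if Free n p C U v then (1 - a) else 1) := by
    rw [Finset.prod_ite, Finset.prod_const, Finset.prod_const_one, mul_one]
    rfl
  rw [h1]
  refine Finset.prod_le_prod (fun v _ => ?_) (fun v hv => ?_)
  · split_ifs
    · linarith
    · norm_num
  · by_cases h2 : ∀ e ∈ R v, (e ∈ U ↔ b e = true)
    · rw [if_pos h2, if_pos (hS.free v hv U h2)]
      linarith
    · rw [if_neg h2]
      split_ifs
      · linarith
      · linarith
-- END BLOCK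

end Pool.Agent.Lib_helper19.Src
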