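import Pool.Agent.Lib_helper19.Src.Main

set_option autoImplicit false

namespace Pool.Agent.Lib_helper19.Src

open Finset



-- BEGIN BLOCK

theorem blkKI_sum_union {M : Type*} [AddCommMonoid M] (S T : Finset ℕ) (hd : Disjoint S T)
    (f : Finset ℕ → M) :
    ∑ U ∈ (S ∪ T).powerset, f U = ∑ U₀ ∈ S.powerset, ∑ A ∈ T.powerset, f (U₀ ∪ A) := by
  rw [← Finset.sum_product']
  symm
  refine Finset.sum_bij' (fun x _ => x.1 ∪ x.2) (fun U _ => (U ∩ S, U ∩ T)) ?_ ?_ ?_ ?_ ?_
  · rintro ⟨a, b⟩ h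
    simp only [mem_product, mem_powerset] at h ⊢
    exact union_subset_union h.1 h.2
  · intro U h
    simp only [mem_product, mem_powerset] at h ⊢
    exact ⟨inter_subset_right, inter_subset_right⟩
  · rintro ⟨a, b⟩ h
    simp only [mem_product, mem_powerset] at h ⊢
    obtain ⟨ha, hb⟩ := h
    ext x
    · simp only [mem_inter, mem_union]
      constructor
      · rintro ⟨h1 | h1, h2⟩
        · exact h1
        · exact absurd (hb h1) (Finset.disjoint_left.mp hd h2)
      · intro h1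
        exact ⟨Or.inl h1, ha h1⟩
    · simp only [mem_inter, mem_union]
      constructor
      · rintro ⟨h1 | h1, h2⟩
        · exact absurd h2 (Finset.disjoint_left.mp hd (ha h1))
        · exact h1
      · intro h1
        exact ⟨Or.inr h1, hb h1⟩
  · intro U h
    simp only [mem_powerset] at h ⊢
    rw [← inter_union_distrib_left]
    exact inter_eq_left.mpr h
  · rintro ⟨a, b⟩ h
    rfl

theorem blkKI_child {n : ℕ} {p : ℕ → ℕ} {C : Finset ℕ} {R : ℕ → Finset ℕ} {b : ℕ → Bool}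
    (hS : Switch n p C R b) {w v : ℕ} (hv : v ∈ C) (hw : p w = v) : w ∉ C := by
  intro hwC
  exact hS.par w hwC (hw ▸ hv)

theorem Fr_union {n : ℕ} {p : ℕ → ℕ} {C : Finset ℕ} {R : ℕ → Finset ℕ} {b : ℕ → Bool}
    (hS : Switch n p C R b) {U₀ A : Finset ℕ} (hA : A ⊆ C) :
    Fr n p C (U₀ ∪ A) = Fr n p C U₀ := by
  unfold Fr
  apply Finset.filter_congr
  intro v hv
  unfold Free
  have h1 : ∀ w, w ∉ C → (w ∈ U₀ ∪ A ↔ w ∈ U₀) := by
    intro w hw
    rw [mem_union]
    exact ⟨fun h => h.elim id (fun h => absurd (hA h) hw), Or.inl⟩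
  constructor
  · rintro ⟨ha, hb⟩
    refine ⟨fun w hw hpw h => ha w hw hpw (mem_union_left _ h), ?_⟩
    rcases hb with ⟨h0, h2⟩ | ⟨w, hw, hpw, hwC, hwU⟩
    · exact Or.inl ⟨h0, fun h => h2 (mem_union_left _ h)⟩
    · exact Or.inr ⟨w, hw, hpw, hwC, (h1 w hwC).mp hwU⟩
  · rintro ⟨ha, hb⟩
    refine ⟨fun w hw hpw h => ha w hw hpw ((h1 w (blkKI_child hS hv hpw)).mp h), ?_⟩
    rcases hb with ⟨h0, h2⟩ | ⟨w, hw, hpw, hwC, hwU⟩
    · exact Or.inl ⟨h0, fun h => h2 ((h1 _ (hS.par v hv)).mp h)⟩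
    · exact Or.inr ⟨w, hw, hpw, hwC, (h1 w hwC).mpr hwU⟩

/-- turning on free switches adds exactly one source each -/
theorem Zs_switch {n : ℕ} {p : ℕ → ℕ} (hp : TreeFn n p) {C : Finset ℕ} {R : ℕ → Finset ℕ}
    {b : ℕ → Bool} (hS : Switch n p C R b) {U₀ A B : Finset ℕ} (hU₀ : U₀ ⊆ Ico 1 n \ C)
    (hA : A ⊆ Fr n p C U₀) (hB : B ⊆ C \ Fr n p C U₀) :
    Zs n p (U₀ ∪ B ∪ A) = Zs n p (U₀ ∪ B) + A.card := by
  classical
  have hFC : Fr n p C U₀ ⊆ C := filter_subset _ _
  have hAC : A ⊆ C := hA.trans hFC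
  have hBC : B ⊆ C := hB.trans sdiff_subset
  have key : (range n).filter (fun u => IsSrc n p (U₀ ∪ B ∪ A) u) =
      (range n).filter (fun u => IsSrc n p (U₀ ∪ B) u) ∪ A := by
    ext u
    simp only [mem_filter, mem_union]
    by_cases huA : u ∈ A
    · have huC := hAC huA
      have hun := hS.sub huC
      have hfree : Free n p C U₀ u := (mem_filter.mp (hA huA)).2
      refine ⟨fun _ => Or.inr huA, fun _ => ⟨?_, ?_⟩⟩
      · exact mem_range.mpr (mem_Ico.mp hun).2
      · refine ⟨Or.inr (mem_union_right _ huA), ?_⟩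
        intro w hw hpw hwU
        have hwC := blkKI_child hS huC hpw
        rcases mem_union.mp hwU with h | h
        · rcases mem_union.mp h with h | h
          · exact hfree.1 w hw hpw h
          · exact hwC (hBC h)
        · exact hwC (hAC h)
    · constructor
      · rintro ⟨hr, hs⟩
        refine Or.inl ⟨hr, ?_, ?_⟩
        · rcases hs.1 with h | h
          · exact Or.inl h
          · rcases mem_union.mp h with h | h
            · exact Or.inr h
            · exact absurd h huA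
        · intro w hw hpw hwU
          exact hs.2 w hw hpw (mem_union_left _ hwU)
      · rintro (⟨hr, hs⟩ | h)
        · refine ⟨hr, ?_, ?_⟩
          · exact hs.1.imp id (fun h => mem_union_left _ h)
          · intro w hw hpw hwU
            rcases mem_union.mp hwU with h | h
            · exact hs.2 w hw hpw h
            · have hwC := hAC h
              have hfree : Free n p C U₀ w := (mem_filter.mp (hA h)).2
              rcases hfree.2 with ⟨h0, h2⟩ | ⟨w', hw', hpw', hwC', hwU'⟩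
              · rw [hpw] at h0 h2
                rcases hs.1 with h3 | h3
                · exact h0 h3
                · rcases mem_union.mp h3 with h3 | h3
                  · exact h2 h3
                  · exact hS.par w hwC (hpw ▸ hBC h3)
              · exact hs.2 w' hw' (hpw'.trans hpw) (mem_union_left _ hwU')
        · exact absurd h huA
  unfold Zs
  rw [key, card_union_of_disjoint]
  rw [Finset.disjoint_left]
  intro u hu huA
  have hs := (mem_filter.mp hu).2
  have huC := hAC huA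
  have hun := mem_Ico.mp (hS.sub huC)
  rcases hs.1 with h | h
  · omega
  · rcases mem_union.mp h with h | h
    · exact (mem_sdiff.mp (hU₀ h)).2 huC
    · exact (mem_sdiff.mp (hB h)).2 (hA huA)

theorem blkKI_sum {M : Type*} [AddCommMonoid M] {n : ℕ} {p : ℕ → ℕ} {C : Finset ℕ}
    {R : ℕ → Finset ℕ} {b : ℕ → Bool} (hS : Switch n p C R b) (f : Finset ℕ → M) :
    ∑ U ∈ (Ico 1 n).powerset, f U =
      ∑ U₀ ∈ (Ico 1 n \ C).powerset, ∑ B ∈ (C \ Fr n p C U₀).powerset,
        ∑ A ∈ (Fr n p C U₀).powerset, f (U₀ ∪ B ∪ A) := by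
  have h1 : Ico 1 n = (Ico 1 n \ C) ∪ C := (sdiff_union_of_subset hS.sub).symm
  conv_lhs => rw [h1]
  rw [blkKI_sum_union _ _ sdiff_disjoint]
  refine Finset.sum_congr rfl (fun U₀ _ => ?_)
  have h2 : C = (C \ Fr n p C U₀) ∪ Fr n p C U₀ :=
    (sdiff_union_of_subset (filter_subset _ _)).symm
  conv_lhs => rw [h2]
  rw [blkKI_sum_union _ _ sdiff_disjoint]
  refine Finset.sum_congr rfl (fun B _ => Finset.sum_congr rfl (fun A _ => ?_))
  rw [union_assoc]

theorem sum_switch {n : ℕ} {p : ℕ → ℕ} {C : Finset ℕ} {R : ℕ → Finset ℕ}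
    {b : ℕ → Bool} (hS : Switch n p C R b) (f : Finset ℕ → ℝ) :
    ∑ U ∈ (Ico 1 n).powerset, f U =
      ∑ U₀ ∈ (Ico 1 n \ C).powerset, ∑ B ∈ (C \ Fr n p C U₀).powerset,
        ∑ A ∈ (Fr n p C U₀).powerset, f (U₀ ∪ B ∪ A) :=
  blkKI_sum hS f

/-- the generating function in terms of switches -/
theorem PC_switch {n : ℕ} {p : ℕ → ℕ} (hp : TreeFn n p) {C : Finset ℕ} {R : ℕ → Finset ℕ}
    {b : ℕ → Bool} (hS : Switch n p C R b) (x : ℂ) :
    PC n p x = ∑ U₀ ∈ (Ico 1 n \ C).powerset, ∑ B ∈ (C \ Fr n p C U₀).powerset,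
      x ^ Zs n p (U₀ ∪ B) * (1 + x) ^ (Fr n p C U₀).card := by
  unfold PC
  rw [blkKI_sum hS]
  refine Finset.sum_congr rfl (fun U₀ hU₀ => Finset.sum_congr rfl (fun B hB => ?_))
  have h1 : ∑ A ∈ (Fr n p C U₀).powerset, x ^ Zs n p (U₀ ∪ B ∪ A) =
      ∑ A ∈ (Fr n p C U₀).powerset, x ^ Zs n p (U₀ ∪ B) * x ^ A.card := by
    refine Finset.sum_congr rfl (fun A hA => ?_)
    rw [Zs_switch hp hS (mem_powerset.mp hU₀) (mem_powerset.mp hA) (mem_powerset.mp hB), pow_add]
  rw [h1, ← Finset.mul_sum]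
  congr 1
  have h2 := Finset.sum_pow_mul_eq_add_pow x (1 : ℂ) (Fr n p C U₀)
  simp only [one_pow, mul_one] at h2
  rw [h2, add_comm]

-- END BLOCK

end Pool.Agent.Lib_helper19.Src
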