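import Pool.Agent.Lib_helper19.Src.Main

set_option autoImplicit false

namespace Pool.Agent.Lib_helper19.Src

open Finset



-- BEGIN BLOCK

/-- existence of a depth function -/
theorem blkSW_depth (n : ℕ) (p : ℕ → ℕ) (hp : TreeFn n p) :
    ∃ d : ℕ → ℕ, ∀ v ∈ Ico 1 n, d v = d (p v) + 1 := by
  classical
  have key : ∀ m : ℕ, ∃ d : ℕ → ℕ, ∀ v ∈ Ico 1 n, v < m → d v = d (p v) + 1 := by
    intro m
    induction m with
    | zero => exact ⟨fun _ => 0, fun v _ h => absurd h (Nat.not_lt_zero v)⟩
    | succ m ih =>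
      obtain ⟨d, hd⟩ := ih
      refine ⟨fun v => if v = m then d (p m) + 1 else d v, fun v hv hvm => ?_⟩
      have hpv := hp v hv
      by_cases h : v = m
      · subst h
        have h2 : p v ≠ v := Nat.ne_of_lt hpv
        simp only [if_true, if_neg h2]
      · have h2 : p v ≠ m := by omega
        simp only [if_neg h, if_neg h2]
        exact hd v hv (by omega)
  obtain ⟨d, hd⟩ := key n
  exact ⟨d, fun v hv => hd v hv (mem_Ico.mp hv).2⟩

/-- pairing lemma inside a fibre -/
theorem blkSW_pair (F X : Finset ℕ) (hd : Disjoint F X) :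
    ∃ C ⊆ F, ∃ h : ℕ → ℕ, (∀ v ∈ C, h v ∈ (F \ C) ∪ X) ∧
      (∀ v ∈ C, ∀ v' ∈ C, h v = h v' → v = v') ∧
      F.card ≤ 2 * C.card + 1 ∧ (X.Nonempty → F.card ≤ 2 * C.card) := by
  classical
  obtain ⟨k, hk1, hk2, hk3, hk4⟩ : ∃ k : ℕ, k ≤ F.card ∧ F.card ≤ 2 * k + 1 ∧
      (X.Nonempty → F.card ≤ 2 * k) ∧ k ≤ F.card - k + X.card := by
    by_cases hX : X.Nonempty
    · have := hX.card_pos
      exact ⟨(F.card + 1) / 2, by omega, by omega, fun _ => by omega, by omega⟩
    · exact ⟨F.card / 2, by omega, by omega, fun h => absurd h hX, by omega⟩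
  obtain ⟨C, hCF, hCk⟩ := Finset.exists_subset_card_eq hk1
  have hcard : C.card ≤ ((F \ C) ∪ X).card := by
    rw [card_union_of_disjoint (hd.mono_left sdiff_subset), card_sdiff_of_subset hCF, hCk]
    exact hk4
  obtain ⟨g⟩ : Nonempty (C ↪ ((F \ C) ∪ X : Finset ℕ)) :=
    Function.Embedding.nonempty_of_card_le (by simpa using hcard)
  refine ⟨C, hCF, fun v => if hv : v ∈ C then (g ⟨v, hv⟩ : ℕ) else 0, ?_, ?_, ?_, ?_⟩
  · intro v hv
    simp only [dif_pos hv]
    exact (g ⟨v, hv⟩).2
  · intro v hv v' hv' h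
    simp only [dif_pos hv, dif_pos hv'] at h
    have h2 := g.injective (Subtype.ext h)
    exact congrArg Subtype.val h2
  · rw [hCk]; exact hk2
  · rw [hCk]; exact hk3

theorem blkSW_count {n : ℕ} {p : ℕ → ℕ} (hp : TreeFn n p) :
    n ≤ 2 * ((Ico 1 n).filter (fun v => ((Ico 1 n).filter (fun w => p w = v)).card ≤ 1)).card
      + 1 := by
  classical
  rcases Nat.eq_zero_or_pos n with h0 | hn
  · subst h0; simp
  have h1 : (Ico 1 n).card = ∑ v ∈ range n, ((Ico 1 n).filter (fun w => p w = v)).card := by
    apply Finset.card_eq_sum_card_fiberwise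
    intro w hw
    have hw' : w ∈ Ico 1 n := by simpa using hw
    have := hp w hw'
    have h2 := mem_Ico.mp hw'
    simp only [coe_range, Set.mem_Iio]
    omega
  have h2 : ∑ v ∈ range n, (if ((Ico 1 n).filter (fun w => p w = v)).card ≤ 1 then 0 else 2) ≤
      ∑ v ∈ range n, ((Ico 1 n).filter (fun w => p w = v)).card := by
    apply Finset.sum_le_sum
    intro v _
    split_ifs with h
    · exact Nat.zero_le _
    · omega
  have h3 : ∑ v ∈ range n, (if ((Ico 1 n).filter (fun w => p w = v)).card ≤ 1 then 0 else 2) =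
      2 * ((range n).filter
        (fun v => ¬ ((Ico 1 n).filter (fun w => p w = v)).card ≤ 1)).card := by
    rw [Finset.sum_ite, Finset.sum_const_zero, zero_add, Finset.sum_const, smul_eq_mul, mul_comm]
  have h4 := Finset.card_filter_add_card_filter_not
    (s := range n) (fun v => ((Ico 1 n).filter (fun w => p w = v)).card ≤ 1)
  have h5 : ((range n).filter (fun v => ((Ico 1 n).filter (fun w => p w = v)).card ≤ 1)).card ≤
      ((Ico 1 n).filter (fun v => ((Ico 1 n).filter (fun w => p w = v)).card ≤ 1)).card + 1 := by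
    have h6 : (range n).filter (fun v => ((Ico 1 n).filter (fun w => p w = v)).card ≤ 1) ⊆
        insert 0 ((Ico 1 n).filter
          (fun v => ((Ico 1 n).filter (fun w => p w = v)).card ≤ 1)) := by
      intro v hv
      rw [mem_filter, mem_range] at hv
      rw [mem_insert, mem_filter, mem_Ico]
      rcases Nat.eq_zero_or_pos v with h | h
      · exact Or.inl h
      · exact Or.inr ⟨⟨h, hv.1⟩, hv.2⟩
    exact (card_le_card h6).trans (card_insert_le _ _)
  rw [Nat.card_Ico] at h1
  rw [card_range] at h4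
  omega

theorem exists_switch {n : ℕ} {p : ℕ → ℕ} (hp : TreeFn n p) :
    ∃ (C : Finset ℕ) (R : ℕ → Finset ℕ) (b : ℕ → Bool), Switch n p C R b ∧
      n ≤ 12 * C.card + 7 := by
  classical
  rcases Nat.eq_zero_or_pos n with h0 | hn
  · subst h0
    refine ⟨∅, fun _ => ∅, fun _ => true, ⟨?_, ?_, ?_, ?_, ?_, ?_⟩, ?_⟩ <;> simp
  obtain ⟨d, hd⟩ := blkSW_depth n p hp
  set E : Finset ℕ := (Ico 1 n).filter
    (fun v => ((Ico 1 n).filter (fun w => p w = v)).card ≤ 1) with hE
  have hcount : n ≤ 2 * E.card + 1 := blkSW_count hp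
  obtain ⟨i, hi⟩ : ∃ i : ℕ, E.card ≤ 3 * (E.filter (fun v => d v % 3 = i)).card := by
    by_contra hcon
    push Not at hcon
    have h0 := hcon 0
    have h1 := hcon 1
    have h2 := hcon 2
    have h3 : E.card = ∑ j ∈ range 3, (E.filter (fun v => d v % 3 = j)).card := by
      apply Finset.card_eq_sum_card_fiberwise
      intro v _
      simp only [coe_range, Set.mem_Iio]
      exact Nat.mod_lt _ (by norm_num)
    rw [Finset.sum_range_succ, Finset.sum_range_succ, Finset.sum_range_one] at h3
    omega
  set D : Finset ℕ := E.filter (fun v => d v % 3 = i) with hD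
  have hDE : ∀ v ∈ D, v ∈ Ico 1 n ∧ ((Ico 1 n).filter (fun w => p w = v)).card ≤ 1 ∧
      d v % 3 = i := by
    intro v hv
    rw [hD, mem_filter, hE, mem_filter] at hv
    exact ⟨hv.1.1, hv.1.2, hv.2⟩
  -- fibre data
  have hpair : ∀ u : ℕ, ∃ C ⊆ D.filter (fun v => p v = u), ∃ h : ℕ → ℕ,
      (∀ v ∈ C, h v ∈ (D.filter (fun v => p v = u) \ C) ∪ (if u = 0 then ∅ else {u})) ∧
      (∀ v ∈ C, ∀ v' ∈ C, h v = h v' → v = v') ∧
      (D.filter (fun v => p v = u)).card ≤ 2 * C.card + 1 ∧
      ((if u = 0 then (∅ : Finset ℕ) else {u}).Nonempty →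
        (D.filter (fun v => p v = u)).card ≤ 2 * C.card) := by
    intro u
    apply blkSW_pair
    rw [Finset.disjoint_left]
    intro v hv hv2
    split_ifs at hv2 with h
    · exact absurd hv2 (notMem_empty _)
    · rw [mem_singleton] at hv2
      rw [mem_filter] at hv
      have := hp v (hDE v hv.1).1
      omega
  choose Cf hCf hf hf1 hf2 hf3 hf4 using hpair
  set C : Finset ℕ := D.filter (fun v => v ∈ Cf (p v)) with hC
  have hCD : ∀ v ∈ C, v ∈ D ∧ v ∈ Cf (p v) := fun v hv => by
    rw [hC, mem_filter] at hv; exact hv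
  have hchild : ∀ v ∈ D, ∀ w ∈ Ico 1 n, p w = v → d w % 3 = (i + 1) % 3 := by
    intro v hv w hw hpw
    have h1 := hd w hw
    rw [hpw] at h1
    have h2 := (hDE v hv).2.2
    omega
  have hilt : ∀ v ∈ D, i < 3 := by
    intro v hv
    have := (hDE v hv).2.2
    omega
  have hparent : ∀ v ∈ D, d (p v) % 3 = (i + 2) % 3 := by
    intro v hv
    have h1 := hd v (hDE v hv).1
    have h2 := (hDE v hv).2.2
    omega
  -- type of the helper
  have hhelp : ∀ v ∈ C, (hf (p v) v ∈ D ∧ p (hf (p v) v) = p v ∧ hf (p v) v ∉ C) ∨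
      (p v ≠ 0 ∧ hf (p v) v = p v) := by
    intro v hv
    obtain ⟨hvD, hvC⟩ := hCD v hv
    have h1 := hf1 (p v) v hvC
    rw [mem_union] at h1
    rcases h1 with h1 | h1
    · left
      rw [mem_sdiff, mem_filter] at h1
      refine ⟨h1.1.1, h1.1.2, fun h2 => h1.2 ?_⟩
      have h3 := (hCD _ h2).2
      rw [h1.1.2] at h3
      exact h3
    · right
      split_ifs at h1 with h
      · exact absurd h1 (notMem_empty _)
      · rw [mem_singleton] at h1
        exact ⟨h, h1⟩
  have hdhelp : ∀ v ∈ C, d (hf (p v) v) % 3 ≠ (i + 1) % 3 := by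
    intro v hv
    have hv3 := hilt v (hCD v hv).1
    rcases hhelp v hv with h | h
    · have := (hDE _ h.1).2.2
      omega
    · rw [h.2, hparent v (hCD v hv).1]
      omega
  refine ⟨C, fun v => (Ico 1 n).filter (fun w => p w = v) ∪ {hf (p v) v},
    fun e => decide (e ∈ D), ⟨?_, ?_, ?_, ?_, ?_, ?_⟩, ?_⟩
  · intro v hv
    exact (hDE v (hCD v hv).1).1
  · intro v hv h
    have h1 := hparent v (hCD v hv).1
    have h2 := (hDE _ (hCD _ h).1).2.2
    have h3 := hilt v (hCD v hv).1
    omega
  · intro v hv e he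
    have hv3 := hilt v (hCD v hv).1
    rw [mem_union, mem_filter, mem_singleton] at he
    rw [mem_sdiff]
    rcases he with ⟨he, hpe⟩ | he
    · refine ⟨he, fun h => ?_⟩
      have h1 := hchild v (hCD v hv).1 e he hpe
      have h2 := (hDE _ (hCD _ h).1).2.2
      omega
    · rcases hhelp v hv with h | h
      · rw [he]
        exact ⟨(hDE _ h.1).1, h.2.2⟩
      · rw [he, h.2]
        have h1 := (hDE v (hCD v hv).1).1
        have h2 := hp v h1
        rw [mem_Ico] at h1
        refine ⟨mem_Ico.mpr ⟨by omega, by omega⟩, fun h3 => ?_⟩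
        have h4 := hparent v (hCD v hv).1
        have h5 := (hDE _ (hCD _ h3).1).2.2
        omega
  · intro v hv
    refine (card_union_le _ _).trans ?_
    rw [card_singleton]
    have := (hDE v (hCD v hv).1).2.1
    omega
  · intro v hv v' hv' hne
    rw [Finset.disjoint_left]
    intro e he he'
    rw [mem_union, mem_filter, mem_singleton] at he he'
    have hv3 := hilt v (hCD v hv).1
    rcases he with ⟨he, hpe⟩ | he
    · rcases he' with ⟨he', hpe'⟩ | he'
      · exact hne (hpe.symm.trans hpe')
      · have h1 := hchild v (hCD v hv).1 e he hpe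
        rw [he'] at h1
        exact hdhelp v' hv' h1
    · rcases he' with ⟨he', hpe'⟩ | he'
      · have h1 := hchild v' (hCD v' hv').1 e he' hpe'
        rw [he] at h1
        exact hdhelp v hv h1
      · have hee : hf (p v) v = hf (p v') v' := he.symm.trans he'
        have hpp : p v = p v' := by
          rcases hhelp v hv with h | h <;> rcases hhelp v' hv' with h' | h'
          · rw [← h.2.1, ← h'.2.1, hee]
          · exfalso
            have h1 := (hDE _ h.1).2.2
            rw [hee, h'.2, hparent v' (hCD v' hv').1] at h1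
            omega
          · exfalso
            have h1 := (hDE _ h'.1).2.2
            rw [← hee, h.2, hparent v (hCD v hv).1] at h1
            omega
          · rw [← h.2, ← h'.2, hee]
        rw [← hpp] at hee
        have h1 := (hCD v' hv').2
        rw [← hpp] at h1
        exact hne (hf2 (p v) v (hCD v hv).2 v' h1 hee)
  · intro v hv U hU
    have hv3 := hilt v (hCD v hv).1
    refine ⟨fun w hw hpw hwU => ?_, ?_⟩
    · have h1 := (hU w (mem_union_left _ (mem_filter.mpr ⟨hw, hpw⟩))).mp hwU
      have h2 : w ∈ D := by simpa using h1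
      have h3 := hchild v (hCD v hv).1 w hw hpw
      have h4 := (hDE _ h2).2.2
      omega
    · have h0 := hU (hf (p v) v) (mem_union_right _ (mem_singleton_self _))
      rcases hhelp v hv with h | h
      · right
        refine ⟨hf (p v) v, (hDE _ h.1).1, h.2.1, h.2.2, h0.mpr ?_⟩
        simpa using h.1
      · left
        refine ⟨h.1, fun h1 => ?_⟩
        rw [h.2] at h0
        have h2 : p v ∈ D := by simpa using h0.mp h1
        have h3 := (hDE _ h2).2.2
        rw [hparent v (hCD v hv).1] at h3
        omega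
  · have hfib : ∀ u, C.filter (fun v => p v = u) = Cf u := by
      intro u
      ext v
      rw [mem_filter, hC, mem_filter]
      constructor
      · rintro ⟨⟨h1, h2⟩, h3⟩
        rw [h3] at h2
        exact h2
      · intro h
        have h1 := hCf u h
        rw [mem_filter] at h1
        refine ⟨⟨h1.1, ?_⟩, h1.2⟩
        rw [h1.2]; exact h
    have h1 : D.card = ∑ u ∈ range n, (D.filter (fun v => p v = u)).card := by
      apply Finset.card_eq_sum_card_fiberwise
      intro v hv
      have hv1 := (hDE v (by simpa using hv)).1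
      have h2 := hp v hv1
      rw [mem_Ico] at hv1
      simp only [coe_range, Set.mem_Iio]
      omega
    have h2 : C.card = ∑ u ∈ range n, (C.filter (fun v => p v = u)).card := by
      apply Finset.card_eq_sum_card_fiberwise
      intro v hv
      have hv1 := (hDE v (hCD v (by simpa using hv)).1).1
      have h2 := hp v hv1
      rw [mem_Ico] at hv1
      simp only [coe_range, Set.mem_Iio]
      omega
    have h3 : ∑ u ∈ range n, (D.filter (fun v => p v = u)).card ≤
        ∑ u ∈ range n, (2 * (C.filter (fun v => p v = u)).card + if u = 0 then 1 else 0) := by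
      apply Finset.sum_le_sum
      intro u _
      rw [hfib]
      by_cases hu : u = 0
      · rw [if_pos hu]
        exact hf3 u
      · rw [if_neg hu]
        have := hf4 u (by rw [if_neg hu]; exact singleton_nonempty u)
        omega
    rw [Finset.sum_add_distrib, ← Finset.mul_sum, ← h1, ← h2, Finset.sum_ite_eq' (range n) 0,
      if_pos (mem_range.mpr hn)] at h3
    omega

-- END BLOCK

end Pool.Agent.Lib_helper19.Src
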