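import Pool.Agent.Lib_helper19.Src.Main
import Pool.Agent.Lib_helper19.SrcA.BA
import Pool.Agent.Lib_helper19.SrcA.SW
import Pool.Agent.Lib_helper19.SrcA.KI
import Pool.Agent.Lib_helper19.SrcA.FE

set_option autoImplicit false

namespace Pool.Agent.Lib_helper19.Src

open Finset



-- BEGIN BLOCK
theorem blkDC_sum_pow (F : Finset ℕ) (x : ℝ) :
    ∑ A ∈ F.powerset, x ^ A.card = (1 + x) ^ F.card := by
  have h := Finset.sum_pow_mul_eq_add_pow x 1 F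
  simp only [one_pow, mul_one] at h
  rw [h, add_comm]

/-- weighted sums over orientations in terms of the switches -/
theorem blkDC_sum {n : ℕ} {p : ℕ → ℕ} (hp : TreeFn n p) {C : Finset ℕ} {R : ℕ → Finset ℕ}
    {b : ℕ → Bool} (hS : Switch n p C R b) (x : ℝ) (f : ℕ → ℝ) :
    ∑ U ∈ (Ico 1 n).powerset, x ^ Zs n p U * f (Fr n p C U).card =
      ∑ U₀ ∈ (Ico 1 n \ C).powerset, ∑ B ∈ (C \ Fr n p C U₀).powerset,
        x ^ Zs n p (U₀ ∪ B) * (1 + x) ^ (Fr n p C U₀).card * f (Fr n p C U₀).card := by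
  rw [sum_switch hS]
  refine Finset.sum_congr rfl fun U₀ hU₀ => Finset.sum_congr rfl fun B hB => ?_
  rw [Finset.mem_powerset] at hU₀ hB
  have hBC : B ⊆ C := hB.trans Finset.sdiff_subset
  have hterm : ∀ A ∈ (Fr n p C U₀).powerset,
      x ^ Zs n p (U₀ ∪ B ∪ A) * f (Fr n p C (U₀ ∪ B ∪ A)).card =
        (x ^ Zs n p (U₀ ∪ B) * f (Fr n p C U₀).card) * x ^ A.card := by
    intro A hA
    rw [Finset.mem_powerset] at hA
    have hAC : A ⊆ C := hA.trans (Finset.filter_subset _ _)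
    rw [Zs_switch hp hS hU₀ hA hB, Fr_union hS hAC, Fr_union hS hBC, pow_add]
    ring
  rw [Finset.sum_congr rfl hterm, ← Finset.mul_sum, blkDC_sum_pow]
  ring

theorem blkDC_kappa {l1 l2 l : ℝ} (h1 : 0 < l1) (hl : l ∈ Set.Icc l1 l2) :
    1 / (1 + max l2 l1⁻¹) ≤ 1 / (1 + max l l⁻¹) := by
  have hl0 : 0 < l := lt_of_lt_of_le h1 hl.1
  have h2 : max l l⁻¹ ≤ max l2 l1⁻¹ := max_le_max hl.2 (inv_anti₀ h1 hl.1)
  have h3 : 0 < max l l⁻¹ := lt_of_lt_of_le hl0 (le_max_left _ _)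
  apply one_div_le_one_div_of_le (by positivity)
  linarith

/-- `(1 - a κ²)^{#C} ≤ exp(- a κ₀² n / 24)` -/
theorem blkDC_exp {n : ℕ} {a κ κ₀ : ℝ} {c : ℕ} (ha0 : 0 ≤ a) (ha1 : a ≤ 1) (hκ₀ : 0 ≤ κ₀)
    (hκ : κ₀ ≤ κ) (hκ1 : κ ≤ 1) (hn : 14 ≤ n) (hc : n ≤ 12 * c + 7) :
    (1 - a * κ ^ 2) ^ c ≤ Real.exp (-(a * κ₀ ^ 2 / 24) * n) := by
  have hκ0 : 0 ≤ κ := hκ₀.trans hκ
  have h0 : 0 ≤ 1 - a * κ ^ 2 := by
    have : a * κ ^ 2 ≤ 1 * 1 := mul_le_mul ha1 (pow_le_one₀ hκ0 hκ1) (by positivity) (by norm_num)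
    linarith
  have h1 : 1 - a * κ ^ 2 ≤ Real.exp (-(a * κ ^ 2)) := by
    have := Real.add_one_le_exp (-(a * κ ^ 2))
    linarith
  calc (1 - a * κ ^ 2) ^ c ≤ (Real.exp (-(a * κ ^ 2))) ^ c := pow_le_pow_left₀ h0 h1 c
    _ = Real.exp (c * (-(a * κ ^ 2))) := (Real.exp_nat_mul _ _).symm
    _ ≤ Real.exp (-(a * κ₀ ^ 2 / 24) * n) := by
        apply Real.exp_le_exp.mpr
        have h2 : (n : ℝ) ≤ 24 * c := by
          have : n ≤ 24 * c := by omega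
          exact_mod_cast this
        have h3 : κ₀ ^ 2 ≤ κ ^ 2 := pow_le_pow_left₀ hκ₀ hκ 2
        have h4 : a * κ₀ ^ 2 / 24 * n ≤ a * κ ^ 2 / 24 * (24 * c) := by
          apply mul_le_mul _ h2 (by positivity) (by positivity)
          have := mul_le_mul_of_nonneg_left h3 ha0
          linarith
        linarith

theorem blkDC_rho {l θ : ℝ} (hl : 0 < l) (hθ : θ ∈ Set.Icc (-Real.pi) Real.pi) :
    ∃ ρ : ℝ, 0 ≤ ρ ∧ ρ ≤ 1 ∧ ‖(1 : ℂ) + (l : ℂ) * Complex.exp (θ * Complex.I)‖ = (1 + l) * ρ ∧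
      l / (1 + l) ^ 2 * (2 / Real.pi ^ 2 * θ ^ 2) ≤ 1 - ρ := by
  set z : ℂ := (1 : ℂ) + (l : ℂ) * Complex.exp (θ * Complex.I) with hz
  have hl1 : 0 < 1 + l := by positivity
  have hnorm : ‖z‖ ^ 2 = (1 + l) ^ 2 - 2 * l * (1 - Real.cos θ) := by
    rw [← Complex.normSq_eq_norm_sq, Complex.normSq_apply]
    have hre : z.re = 1 + l * Real.cos θ := by
      rw [hz, Complex.exp_mul_I]
      simp [← Complex.ofReal_cos, ← Complex.ofReal_sin]
    have him : z.im = l * Real.sin θ := by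
      rw [hz, Complex.exp_mul_I]
      simp [← Complex.ofReal_cos, ← Complex.ofReal_sin]
    rw [hre, him]
    have := Real.sin_sq_add_cos_sq θ
    nlinarith [this]
  have hcos : Real.cos θ ≤ 1 - 2 / Real.pi ^ 2 * θ ^ 2 :=
    Real.cos_le_one_sub_mul_cos_sq (abs_le.mpr ⟨hθ.1, hθ.2⟩)
  refine ⟨‖z‖ / (1 + l), by positivity, ?_, by field_simp, ?_⟩
  · rw [div_le_one hl1]
    refine (norm_add_le _ _).trans ?_
    rw [norm_mul, Complex.norm_exp_ofReal_mul_I, Complex.norm_real, Real.norm_eq_abs,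
      abs_of_pos hl]
    simp
  · set ρ : ℝ := ‖z‖ / (1 + l) with hρ
    have hρ0 : 0 ≤ ρ := by positivity
    have hρ2 : ρ ^ 2 = 1 - 2 * (l / (1 + l) ^ 2) * (1 - Real.cos θ) := by
      rw [hρ, div_pow, hnorm]
      field_simp
    have h1 : 1 - ρ ^ 2 ≤ 2 * (1 - ρ) := by nlinarith [sq_nonneg (1 - ρ)]
    have h2 : 0 ≤ l / (1 + l) ^ 2 := by positivity
    have h3 : l / (1 + l) ^ 2 * (2 / Real.pi ^ 2 * θ ^ 2) ≤ l / (1 + l) ^ 2 * (1 - Real.cos θ) :=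
      mul_le_mul_of_nonneg_left (by linarith) h2
    nlinarith

theorem decay (l1 l2 : ℝ) (h1 : 0 < l1) (h12 : l1 ≤ l2) :
    ∃ c : ℝ, 0 < c ∧ ∃ n₀ : ℕ, ∀ n ≥ n₀, ∀ p : ℕ → ℕ, TreeFn n p → ∀ l ∈ Set.Icc l1 l2,
      ∀ θ ∈ Set.Icc (-Real.pi) Real.pi,
        ‖PC n p ((l : ℂ) * Complex.exp (θ * Complex.I))‖ ≤
          PR n p l * Real.exp (-c * n * θ ^ 2) := by
  have hl2 : 0 < l2 := h1.trans_le h12
  set κ₀ : ℝ := 1 / (1 + max l2 l1⁻¹) with hκ₀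
  have hκ₀0 : 0 < κ₀ := by
    have : 0 < max l2 l1⁻¹ := lt_of_lt_of_le hl2 (le_max_left _ _)
    positivity
  set A : ℝ := l1 / (1 + l2) ^ 2 * (2 / Real.pi ^ 2) with hA
  have hA0 : 0 < A := by positivity
  refine ⟨A * κ₀ ^ 2 / 24, by positivity, 14, fun n hn p hp l hl θ hθ => ?_⟩
  have hl0 : 0 < l := lt_of_lt_of_le h1 hl.1
  obtain ⟨C, R, b, hS, hC⟩ := exists_switch hp
  obtain ⟨ρ, hρ0, hρ1, hρ, hρ2⟩ := blkDC_rho hl0 hθ
  have hstep : ‖PC n p ((l : ℂ) * Complex.exp (θ * Complex.I))‖ ≤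
      ∑ U ∈ (Ico 1 n).powerset, l ^ Zs n p U * ρ ^ (Fr n p C U).card := by
    rw [PC_switch hp hS, blkDC_sum hp hS l (fun m => ρ ^ m)]
    refine (norm_sum_le _ _).trans (Finset.sum_le_sum fun U₀ _ => ?_)
    refine (norm_sum_le _ _).trans (Finset.sum_le_sum fun B _ => ?_)
    rw [norm_mul, norm_pow, norm_pow, hρ, norm_mul, Complex.norm_exp_ofReal_mul_I,
      Complex.norm_real, Real.norm_eq_abs, abs_of_pos hl0, mul_one, mul_pow]
    exact le_of_eq (by ring)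
  have hfe := fe_bound hp hS hl0 (a := 1 - ρ) (by linarith) (by linarith)
  rw [sub_sub_cancel] at hfe
  have hκ1 : 1 / (1 + max l l⁻¹) ≤ 1 := by
    have : 0 < max l l⁻¹ := lt_of_lt_of_le hl0 (le_max_left _ _)
    rw [div_le_one (by positivity)]
    linarith
  have hexp := blkDC_exp (n := n) (a := 1 - ρ) (κ := 1 / (1 + max l l⁻¹)) (κ₀ := κ₀) (c := C.card)
    (by linarith) (by linarith) hκ₀0.le (blkDC_kappa h1 hl) hκ1 hn hC
  have hPR : 0 < PR n p l := PR_pos hl0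
  calc ‖PC n p ((l : ℂ) * Complex.exp (θ * Complex.I))‖
      ≤ (1 - (1 - ρ) * (1 / (1 + max l l⁻¹)) ^ 2) ^ C.card * PR n p l := hstep.trans hfe
    _ ≤ Real.exp (-((1 - ρ) * κ₀ ^ 2 / 24) * n) * PR n p l :=
        mul_le_mul_of_nonneg_right hexp hPR.le
    _ ≤ PR n p l * Real.exp (-(A * κ₀ ^ 2 / 24) * n * θ ^ 2) := by
        rw [mul_comm]
        apply mul_le_mul_of_nonneg_left _ hPR.le
        apply Real.exp_le_exp.mpr
        have h3 : A * θ ^ 2 ≤ 1 - ρ := by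
          refine le_trans ?_ hρ2
          rw [hA, mul_assoc]
          apply mul_le_mul_of_nonneg_right _ (by positivity)
          apply div_le_div₀ hl0.le hl.1 (by positivity)
          apply pow_le_pow_left₀ (by positivity)
          linarith [hl.2]
        have h4 : A * θ ^ 2 * (κ₀ ^ 2 / 24 * n) ≤ (1 - ρ) * (κ₀ ^ 2 / 24 * n) :=
          mul_le_mul_of_nonneg_right h3 (by positivity)
        nlinarith
-- END BLOCK

end Pool.Agent.Lib_helper19.Src
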