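import Pool.Agent.Lib_helper19.Src.Main

set_option autoImplicit false

namespace Pool.Agent.Lib_helper19.Src

open Finset

-- BEGIN BLOCK

theorem blkLC_local {g F : ℂ → ℂ} {B : ℝ} {j : ℝ}
    (hg : DifferentiableOn ℂ g (Metric.ball 0 (1 / 5)))
    (hB : ∀ s ∈ Metric.ball (0 : ℂ) (1 / 5), ‖g s‖ ≤ B)
    (hj : g 0 = j) (hsym : ∀ s : ℝ, g (-(s : ℂ)) = (starRingEnd ℂ) (g s))
    (hF : ∀ s ∈ Metric.ball (0 : ℂ) (1 / 5), HasDerivAt F (Complex.I * (g s - j) * F s) s)
    {θ : ℝ} (h0 : 0 ≤ θ) (h1 : θ ≤ 1 / 10) :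
    ∃ z : ℂ, F θ = F 0 * Complex.exp z ∧ |z.re| ≤ 10 * B * θ ^ 2 ∧ |z.im| ≤ 50 * B * θ ^ 3 := by
  have hb0 : (0 : ℂ) ∈ Metric.ball (0 : ℂ) (1 / 5) := by
    rw [Metric.mem_ball, dist_self]; norm_num
  have hB0 : 0 ≤ B := (norm_nonneg _).trans (hB 0 hb0)
  have hgd : DifferentiableOn ℂ (fun s => Complex.I * (g s - j)) (Metric.ball 0 (1 / 5)) := by
    fun_prop
  obtain ⟨P, hP0, hP⟩ := hgd.isExactOn_ball.with_val_at 0 0
  -- constancy
  have hmem : ∀ t : ℝ, t ∈ Set.Icc 0 θ → (t : ℂ) ∈ Metric.ball (0 : ℂ) (1 / 5) := by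
    intro t ht
    rw [mem_ball_zero_iff, Complex.norm_real, Real.norm_eq_abs, abs_of_nonneg ht.1]
    linarith [ht.2]
  have hθ : (θ : ℂ) ∈ Metric.ball (0 : ℂ) (1 / 5) := hmem θ ⟨h0, le_rfl⟩
  have hconst : F θ * Complex.exp (-P θ) = F 0 * Complex.exp (-P 0) := by
    have hd : ∀ s ∈ Metric.ball (0 : ℂ) (1 / 5),
        HasDerivAt (fun s => F s * Complex.exp (-P s)) 0 s := by
      intro s hs
      have h := (hF s hs).mul ((hP s hs).neg.cexp)
      refine h.congr_deriv ?_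
      ring
    exact Metric.isOpen_ball.is_const_of_deriv_eq_zero (convex_ball _ _).isPreconnected
      (fun s hs => (hd s hs).differentiableAt.differentiableWithinAt)
      (fun s hs => (hd s hs).deriv) hθ hb0
  refine ⟨P θ, ?_, ?_, ?_⟩
  · rw [hP0, neg_zero, Complex.exp_zero, mul_one] at hconst
    rw [← hconst, mul_assoc, ← Complex.exp_add, neg_add_cancel, Complex.exp_zero, mul_one]
  · -- first order bound
    have hS : ∀ s ∈ Metric.ball (0 : ℂ) (1 / 5), ‖g s - j‖ ≤ 10 * B * ‖s‖ := by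
      intro s hs
      have hmaps : Set.MapsTo g (Metric.ball 0 (1 / 5)) (Metric.closedBall (g 0) (2 * B)) := by
        intro w hw
        rw [Metric.mem_closedBall, dist_eq_norm]
        have e1 := hB w hw
        have e2 := hB 0 hb0
        have e3 := norm_sub_le (g w) (g 0)
        linarith
      have h := Complex.dist_le_div_mul_dist_of_mapsTo_ball hg hmaps hs
      rw [dist_eq_norm, dist_zero_right, hj] at h
      calc ‖g s - j‖ ≤ 2 * B / (1 / 5) * ‖s‖ := h
        _ = 10 * B * ‖s‖ := by ring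
    have hder : ∀ t ∈ Set.Icc 0 θ, HasDerivWithinAt (fun t : ℝ => P t) (Complex.I * (g t - j))
        (Set.Icc 0 θ) t := by
      intro t ht
      exact (hP t (hmem t ht)).comp_ofReal.hasDerivWithinAt
    have hbd : ∀ t ∈ Set.Ico 0 θ, ‖Complex.I * (g t - j)‖ ≤ 10 * B * θ := by
      intro t ht
      have e := hS t (hmem t ⟨ht.1, ht.2.le⟩)
      rw [norm_mul, Complex.norm_I, one_mul]
      rw [Complex.norm_real, Real.norm_eq_abs, abs_of_nonneg ht.1] at e
      refine e.trans ?_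
      gcongr
      exact ht.2.le
    have h := norm_image_sub_le_of_norm_deriv_le_segment' hder hbd θ ⟨h0, le_rfl⟩
    rw [Complex.ofReal_zero, hP0, sub_zero, sub_zero] at h
    calc |(P θ).re| ≤ ‖P θ‖ := Complex.abs_re_le_norm _
      _ ≤ 10 * B * θ * θ := h
      _ = 10 * B * θ ^ 2 := by ring
  · -- second order bound
    set h : ℂ → ℂ := fun s => g s + g (-s) with hh
    have hmn : ∀ s ∈ Metric.ball (0 : ℂ) (1 / 5), -s ∈ Metric.ball (0 : ℂ) (1 / 5) := by
      intro s hs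
      rw [mem_ball_zero_iff] at hs ⊢
      rwa [norm_neg]
    have hhd : DifferentiableOn ℂ h (Metric.ball 0 (1 / 5)) := by
      refine hg.add ?_
      exact hg.comp differentiable_neg.differentiableOn hmn
    have hS2 : ∀ s ∈ Metric.ball (0 : ℂ) (1 / 5), ‖h s - 2 * j‖ ≤ 100 * B * ‖s‖ ^ 2 := by
      intro s hs
      have hmaps : Set.MapsTo h (Metric.ball 0 (1 / 5)) (Metric.closedBall (h 0) (4 * B)) := by
        intro w hw
        rw [Metric.mem_closedBall, dist_eq_norm]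
        have e1 := hB w hw
        have e2 := hB 0 hb0
        have e3 := hB (-w) (hmn w hw)
        have e4 : ‖h w - h 0‖ ≤ ‖g w‖ + ‖g (-w)‖ + (‖g 0‖ + ‖g (-0)‖) := by
          calc ‖h w - h 0‖ ≤ ‖h w‖ + ‖h 0‖ := norm_sub_le _ _
            _ ≤ _ := add_le_add (norm_add_le _ _) (norm_add_le _ _)
        rw [neg_zero] at e4
        linarith
      have hlo : (fun w => h w - h 0) =o[nhds 0] (fun w => ‖w - 0‖ ^ 1) := by
        have hg0 : HasDerivAt g (deriv g 0) 0 :=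
          (hg.differentiableAt (Metric.isOpen_ball.mem_nhds hb0)).hasDerivAt
        have hg1 : HasDerivAt g (deriv g 0) (-0) := by rw [neg_zero]; exact hg0
        have hg2 : HasDerivAt (fun s => g (-s)) (deriv g 0 * (-1)) 0 :=
          hg1.comp 0 (hasDerivAt_neg 0)
        have hh0 : HasDerivAt h 0 0 := by
          have := hg0.add hg2
          refine this.congr_deriv ?_
          ring
        have := hh0.isLittleO
        simp only [smul_zero, sub_zero] at this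
        simp only [pow_one, sub_zero]
        exact this.norm_right
      have h3 := Complex.dist_le_mul_div_pow_of_mapsTo_ball_of_isLittleO hhd hmaps hlo hs
      rw [dist_eq_norm, dist_zero_right] at h3
      have e0 : h 0 = 2 * j := by
        simp only [hh, neg_zero, hj]
        ring
      rw [e0] at h3
      calc ‖h s - 2 * j‖ ≤ _ := h3
        _ = 100 * B * ‖s‖ ^ 2 := by ring
    have hre : ∀ t ∈ Set.Icc 0 θ, |(g t).re - j| ≤ 50 * B * t ^ 2 := by
      intro t ht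
      have e := hS2 t (hmem t ht)
      rw [Complex.norm_real, Real.norm_eq_abs, abs_of_nonneg ht.1] at e
      have e1 : h t - 2 * j = ((2 * ((g t).re - j) : ℝ) : ℂ) := by
        simp only [hh]
        rw [hsym t]
        apply Complex.ext <;> simp
        ring
      rw [e1, Complex.norm_real, Real.norm_eq_abs, abs_mul, abs_two] at e
      linarith
    have hder : ∀ t ∈ Set.Icc 0 θ, HasDerivWithinAt (fun t : ℝ => (P t).im) ((g t).re - j)
        (Set.Icc 0 θ) t := by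
      intro t ht
      have e1 : HasDerivAt (fun t : ℝ => P t) (Complex.I * (g t - j)) t :=
        (hP t (hmem t ht)).comp_ofReal
      have e2 := (Complex.imCLM.hasFDerivAt (x := P t)).comp_hasDerivAt t e1
      have e3 : Complex.imCLM (Complex.I * (g t - j)) = (g t).re - j := by
        simp
      rw [e3] at e2
      exact e2.hasDerivWithinAt
    have hbd : ∀ t ∈ Set.Ico 0 θ, ‖(g t).re - j‖ ≤ 50 * B * θ ^ 2 := by
      intro t ht
      rw [Real.norm_eq_abs]
      refine (hre t ⟨ht.1, ht.2.le⟩).trans ?_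
      have := ht.1
      have := ht.2.le
      gcongr
    have h := norm_image_sub_le_of_norm_deriv_le_segment' hder hbd θ ⟨h0, le_rfl⟩
    rw [Complex.ofReal_zero, hP0, Complex.zero_im, sub_zero, sub_zero, Real.norm_eq_abs] at h
    calc |(P θ).im| ≤ 50 * B * θ ^ 2 * θ := h
      _ = 50 * B * θ ^ 3 := by ring

/-- the polynomial -/
noncomputable def blkLC_Q (n : ℕ) (a : ℕ → ℝ) (x : ℂ) : ℂ :=
  ∑ i ∈ range (n + 1), (a i : ℂ) * x ^ i

/-- the polynomial `x Q'(x)` -/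
noncomputable def blkLC_N (n : ℕ) (a : ℕ → ℝ) (x : ℂ) : ℂ :=
  ∑ i ∈ range (n + 1), (i : ℂ) * ((a i : ℂ) * x ^ i)

theorem blkLC_hasDeriv (n : ℕ) (a : ℕ → ℝ) (x : ℂ) :
    HasDerivAt (blkLC_Q n a) (∑ i ∈ range (n + 1), (a i : ℂ) * (i * x ^ (i - 1))) x := by
  unfold blkLC_Q
  exact HasDerivAt.fun_sum fun i _ => (hasDerivAt_pow i x).const_mul _

theorem blkLC_diff (n : ℕ) (a : ℕ → ℝ) : Differentiable ℂ (blkLC_Q n a) :=
  fun x => (blkLC_hasDeriv n a x).differentiableAt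

theorem blkLC_diffN (n : ℕ) (a : ℕ → ℝ) : Differentiable ℂ (blkLC_N n a) := by
  unfold blkLC_N
  fun_prop

theorem blkLC_mul_deriv (n : ℕ) (a : ℕ → ℝ) (x : ℂ) :
    x * deriv (blkLC_Q n a) x = blkLC_N n a x := by
  rw [(blkLC_hasDeriv n a x).deriv, mul_sum]
  unfold blkLC_N
  refine sum_congr rfl fun i _ => ?_
  rcases Nat.eq_zero_or_pos i with h | h
  · subst h
    simp
  · have : x ^ i = x * x ^ (i - 1) := by
      rw [← pow_succ']
      congr 1
      omega
    rw [this]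
    ring

theorem blkLC_conjQ (n : ℕ) (a : ℕ → ℝ) (x : ℂ) :
    blkLC_Q n a ((starRingEnd ℂ) x) = (starRingEnd ℂ) (blkLC_Q n a x) := by
  unfold blkLC_Q
  rw [map_sum]
  refine sum_congr rfl fun i _ => ?_
  rw [map_mul, map_pow, Complex.conj_ofReal]

theorem blkLC_conjN (n : ℕ) (a : ℕ → ℝ) (x : ℂ) :
    blkLC_N n a ((starRingEnd ℂ) x) = (starRingEnd ℂ) (blkLC_N n a x) := by
  unfold blkLC_N
  rw [map_sum]
  refine sum_congr rfl fun i _ => ?_
  rw [map_mul, map_mul, map_pow, Complex.conj_ofReal, Complex.conj_natCast]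

theorem blkLC_curve {M : ℝ} {n : ℕ} {a : ℕ → ℝ}
    (hQ0 : ∀ x : ℂ, ‖x - 1‖ < 1 → blkLC_Q n a x ≠ 0)
    (hQ1 : ∀ x : ℂ, ‖x - 1‖ ≤ 9 / 10 → ‖deriv (blkLC_Q n a) x‖ ≤ M * n * ‖blkLC_Q n a x‖)
    {l : ℝ} (hl : l ∈ Set.Icc (4 / 5 : ℝ) (13 / 10)) {j : ℕ}
    (hmean : blkLC_N n a l = j * blkLC_Q n a l) {θ : ℝ} (h0 : 0 ≤ θ) (h1 : θ ≤ 1 / 10) :
    ∃ z : ℂ, blkLC_Q n a (l * Complex.exp (θ * Complex.I)) *
        Complex.exp (-(j * θ * Complex.I)) = blkLC_Q n a l * Complex.exp z ∧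
      |z.re| ≤ 20 * M * n * θ ^ 2 ∧ |z.im| ≤ 100 * M * n * θ ^ 3 := by
  have hX : ∀ s ∈ Metric.ball (0 : ℂ) (1 / 5), ‖(l : ℂ) * Complex.exp (s * Complex.I) - 1‖ ≤
      9 / 10 := by
    intro s hs
    rw [mem_ball_zero_iff] at hs
    have e1 : ‖s * Complex.I‖ = ‖s‖ := by rw [norm_mul, Complex.norm_I, mul_one]
    have e2 : ‖Complex.exp (s * Complex.I) - 1‖ ≤ 2 * ‖s‖ := by
      have := Complex.norm_exp_sub_one_le (x := s * Complex.I) (by rw [e1]; linarith)
      rwa [e1] at this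
    have e3 : (l : ℂ) * Complex.exp (s * Complex.I) - 1 =
        l * (Complex.exp (s * Complex.I) - 1) + ((l - 1 : ℝ) : ℂ) := by
      push_cast
      ring
    rw [e3]
    calc _ ≤ ‖(l : ℂ) * (Complex.exp (s * Complex.I) - 1)‖ + ‖((l - 1 : ℝ) : ℂ)‖ :=
          norm_add_le _ _
      _ ≤ 13 / 10 * (2 * (1 / 5)) + 3 / 10 := by
          rw [norm_mul, Complex.norm_real, Complex.norm_real, Real.norm_eq_abs, Real.norm_eq_abs]
          have e4 : |l| ≤ 13 / 10 := by
            rw [abs_le]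
            constructor <;> linarith [hl.1, hl.2]
          have e5 : |l - 1| ≤ 3 / 10 := by
            rw [abs_le]
            constructor <;> linarith [hl.1, hl.2]
          have e6 : ‖Complex.exp (s * Complex.I) - 1‖ ≤ 2 * (1 / 5) := by linarith
          gcongr
      _ ≤ 9 / 10 := by norm_num
  set g : ℂ → ℂ := fun s => blkLC_N n a (l * Complex.exp (s * Complex.I)) /
    blkLC_Q n a (l * Complex.exp (s * Complex.I)) with hg
  set F : ℂ → ℂ := fun s => blkLC_Q n a (l * Complex.exp (s * Complex.I)) *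
    Complex.exp (-(j * s * Complex.I)) with hF
  have hne : ∀ s ∈ Metric.ball (0 : ℂ) (1 / 5),
      blkLC_Q n a (l * Complex.exp (s * Complex.I)) ≠ 0 := by
    intro s hs
    exact hQ0 _ (by linarith [hX s hs])
  have hgd : DifferentiableOn ℂ g (Metric.ball 0 (1 / 5)) := by
    refine DifferentiableOn.div ?_ ?_ hne
    · exact ((blkLC_diffN n a).comp (by fun_prop)).differentiableOn
    · exact ((blkLC_diff n a).comp (by fun_prop)).differentiableOn
  have hB : ∀ s ∈ Metric.ball (0 : ℂ) (1 / 5), ‖g s‖ ≤ 2 * M * n := by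
    intro s hs
    set x := (l : ℂ) * Complex.exp (s * Complex.I) with hx
    have e1 := hX s hs
    have e2 := hQ1 x e1
    have e3 : 0 < ‖blkLC_Q n a x‖ := norm_pos_iff.2 (hne s hs)
    have e4 : ‖x‖ ≤ 2 := by
      have := norm_add_le (x - 1) 1
      rw [sub_add_cancel, norm_one] at this
      linarith
    show ‖blkLC_N n a x / blkLC_Q n a x‖ ≤ _
    rw [norm_div, div_le_iff₀ e3, ← blkLC_mul_deriv, norm_mul]
    calc ‖x‖ * ‖deriv (blkLC_Q n a) x‖ ≤ 2 * (M * n * ‖blkLC_Q n a x‖) := by gcongr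
      _ = 2 * M * n * ‖blkLC_Q n a x‖ := by ring
  have hj : g 0 = ((j : ℝ) : ℂ) := by
    simp only [hg, zero_mul, Complex.exp_zero, mul_one]
    have e : blkLC_Q n a l ≠ 0 := by
      have := hne 0 (by rw [mem_ball_zero_iff, norm_zero]; norm_num)
      simpa using this
    rw [hmean, mul_div_assoc, div_self e, mul_one]
    simp
  have hconjx : ∀ s : ℝ, (l : ℂ) * Complex.exp (-(s : ℂ) * Complex.I) =
      (starRingEnd ℂ) ((l : ℂ) * Complex.exp ((s : ℂ) * Complex.I)) := by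
    intro s
    rw [map_mul, Complex.conj_ofReal, ← Complex.exp_conj, map_mul, Complex.conj_ofReal,
      Complex.conj_I]
    congr 2
    ring
  have hsym : ∀ s : ℝ, g (-(s : ℂ)) = (starRingEnd ℂ) (g s) := by
    intro s
    simp only [hg]
    rw [hconjx s, blkLC_conjN, blkLC_conjQ, map_div₀]
  have hFd : ∀ s ∈ Metric.ball (0 : ℂ) (1 / 5),
      HasDerivAt F (Complex.I * (g s - ((j : ℝ) : ℂ)) * F s) s := by
    intro s hs
    have e1 : HasDerivAt (fun s : ℂ => (l : ℂ) * Complex.exp (s * Complex.I))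
        ((l : ℂ) * (Complex.exp (s * Complex.I) * (1 * Complex.I))) s :=
      (((hasDerivAt_id s).mul_const Complex.I).cexp).const_mul _
    have e2 : HasDerivAt (fun s : ℂ => blkLC_Q n a ((l : ℂ) * Complex.exp (s * Complex.I)))
        (deriv (blkLC_Q n a) ((l : ℂ) * Complex.exp (s * Complex.I)) *
          ((l : ℂ) * (Complex.exp (s * Complex.I) * (1 * Complex.I)))) s :=
      ((blkLC_diff n a _).hasDerivAt).comp s e1
    have e3 : HasDerivAt (fun s : ℂ => Complex.exp (-(j * s * Complex.I)))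
        (Complex.exp (-(j * s * Complex.I)) * (-(j * 1 * Complex.I))) s :=
      ((((hasDerivAt_id s).const_mul (j : ℂ)).mul_const Complex.I).neg).cexp
    refine (e2.mul e3).congr_deriv ?_
    have e4 := blkLC_mul_deriv n a ((l : ℂ) * Complex.exp (s * Complex.I))
    have e5 := hne s hs
    have e6 : g s * blkLC_Q n a ((l : ℂ) * Complex.exp (s * Complex.I)) =
        blkLC_N n a ((l : ℂ) * Complex.exp (s * Complex.I)) := by
      simp only [hg]
      field_simp
    simp only [hF]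
    rw [Complex.ofReal_natCast]
    linear_combination (Complex.exp (-(j * s * Complex.I)) * Complex.I) * (e4 - e6)
  obtain ⟨z, hz1, hz2, hz3⟩ := blkLC_local hgd hB hj hsym hFd h0 h1
  refine ⟨z, ?_, hz2.trans_eq (by ring), hz3.trans_eq (by ring)⟩
  simpa [hF] using hz1

theorem blkLC_cos_int (m : ℤ) :
    ∫ θ in (0 : ℝ)..Real.pi, Real.cos (m * θ) = if m = 0 then Real.pi else 0 := by
  by_cases h : m = 0
  · subst h
    simp
  · rw [if_neg h]
    have hm : (m : ℝ) ≠ 0 := by exact_mod_cast h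
    rw [intervalIntegral.integral_comp_mul_left (fun x => Real.cos x) hm, integral_cos]
    rw [Real.sin_int_mul_pi]
    simp

theorem blkLC_cos_int2 (m : ℤ) :
    ∫ θ in (0 : ℝ)..Real.pi, Real.cos (m * θ) * (2 - 2 * Real.cos θ) =
      2 * (if m = 0 then Real.pi else 0) - (if m = 1 then Real.pi else 0) -
        (if m = -1 then Real.pi else 0) := by
  have e : ∀ θ : ℝ, Real.cos (m * θ) * (2 - 2 * Real.cos θ) =
      2 * Real.cos (m * θ) - Real.cos (((m + 1 : ℤ) : ℝ) * θ) -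
        Real.cos (((m - 1 : ℤ) : ℝ) * θ) := by
    intro θ
    push_cast
    rw [add_mul, sub_mul, one_mul, Real.cos_add, Real.cos_sub]
    ring
  simp_rw [e]
  have hc : ∀ k : ℤ, IntervalIntegrable (fun θ : ℝ => Real.cos (k * θ)) MeasureTheory.volume 0
      Real.pi := fun k => (by fun_prop : Continuous fun θ : ℝ =>
        Real.cos (k * θ)).intervalIntegrable _ _
  rw [intervalIntegral.integral_sub (((hc m).const_mul 2).sub (hc (m + 1))) (hc (m - 1)),
    intervalIntegral.integral_sub ((hc m).const_mul 2) (hc (m + 1)),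
    intervalIntegral.integral_const_mul, blkLC_cos_int, blkLC_cos_int, blkLC_cos_int]
  have h1 : (m + 1 = 0) ↔ (m = -1) := by omega
  have h2 : (m - 1 = 0) ↔ (m = 1) := by omega
  simp only [h1, h2]
  ring

theorem blkLC_fourier (n : ℕ) (b : ℕ → ℝ) {j : ℕ} (hj : 1 ≤ j) (hjn : j + 1 ≤ n) :
    ∫ θ in (0 : ℝ)..Real.pi, (∑ i ∈ range (n + 1), b i * Real.cos (((i : ℤ) - (j : ℤ) : ℤ) * θ)) *
      (2 - 2 * Real.cos θ) = Real.pi * (2 * b j - b (j - 1) - b (j + 1)) := by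
  have e : ∀ θ : ℝ, (∑ i ∈ range (n + 1), b i * Real.cos (((i : ℤ) - (j : ℤ) : ℤ) * θ)) *
      (2 - 2 * Real.cos θ) = ∑ i ∈ range (n + 1), b i *
        (Real.cos (((i : ℤ) - (j : ℤ) : ℤ) * θ) * (2 - 2 * Real.cos θ)) := by
    intro θ
    rw [sum_mul]
    exact sum_congr rfl fun i _ => by ring
  simp_rw [e]
  rw [intervalIntegral.integral_finsetSum]
  · simp_rw [intervalIntegral.integral_const_mul, blkLC_cos_int2]
    have h0 : ∀ i : ℕ, ((i : ℤ) - (j : ℤ) = 0) ↔ i = j := by intro i; omega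
    have h1 : ∀ i : ℕ, ((i : ℤ) - (j : ℤ) = 1) ↔ i = j + 1 := by intro i; omega
    have h2 : ∀ i : ℕ, ((i : ℤ) - (j : ℤ) = -1) ↔ i = j - 1 := by intro i; omega
    simp only [h0, h1, h2, mul_sub, sum_sub_distrib]
    have s1 : ∑ x ∈ range (n + 1), b x * (2 * if x = j then Real.pi else 0) =
        b j * (2 * Real.pi) := by
      rw [sum_eq_single j]
      · rw [if_pos rfl]
      · intro i _ hi
        rw [if_neg hi]; ring
      · intro h
        exact absurd (mem_range.2 (by omega)) h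
    have s2 : ∑ x ∈ range (n + 1), b x * (if x = j + 1 then Real.pi else 0) =
        b (j + 1) * Real.pi := by
      rw [sum_eq_single (j + 1)]
      · rw [if_pos rfl]
      · intro i _ hi
        rw [if_neg hi]; ring
      · intro h
        exact absurd (mem_range.2 (by omega)) h
    have s3 : ∑ x ∈ range (n + 1), b x * (if x = j - 1 then Real.pi else 0) =
        b (j - 1) * Real.pi := by
      rw [sum_eq_single (j - 1)]
      · rw [if_pos rfl]
      · intro i _ hi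
        rw [if_neg hi]; ring
      · intro h
        exact absurd (mem_range.2 (by omega)) h
    rw [s1, s2, s3]
    ring
  · intro i _
    exact (by fun_prop : Continuous fun θ : ℝ => b i *
        (Real.cos (((i : ℤ) - (j : ℤ) : ℤ) * θ) * (2 - 2 * Real.cos θ))).intervalIntegrable _ _

theorem blkLC_re (n : ℕ) (a : ℕ → ℝ) (l : ℝ) (j : ℕ) (θ : ℝ) :
    (blkLC_Q n a (l * Complex.exp (θ * Complex.I)) * Complex.exp (-(j * θ * Complex.I))).re =
      ∑ i ∈ range (n + 1), (a i * l ^ i) * Real.cos (((i : ℤ) - (j : ℤ) : ℤ) * θ) := by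
  unfold blkLC_Q
  rw [sum_mul, Complex.re_sum]
  refine sum_congr rfl fun i _ => ?_
  have e : (a i : ℂ) * ((l : ℂ) * Complex.exp (θ * Complex.I)) ^ i *
      Complex.exp (-(j * θ * Complex.I)) =
      ((a i * l ^ i : ℝ) : ℂ) *
        Complex.exp (((((i : ℤ) - (j : ℤ) : ℤ) * θ : ℝ) : ℂ) * Complex.I) := by
    rw [mul_pow, ← Complex.exp_nat_mul]
    have e1 : ((((((i : ℤ) - (j : ℤ) : ℤ) : ℝ) * θ : ℝ) : ℂ) * Complex.I) =
        (i : ℂ) * (θ * Complex.I) + -(j * θ * Complex.I) := by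
      push_cast
      ring
    rw [e1, Complex.exp_add]
    push_cast
    ring
  rw [e, Complex.re_ofReal_mul, Complex.exp_ofReal_mul_I_re]

theorem blkLC_lower {M : ℝ} {n : ℕ} {a : ℕ → ℝ}
    (hQ0 : ∀ x : ℂ, ‖x - 1‖ < 1 → blkLC_Q n a x ≠ 0)
    (hQ1 : ∀ x : ℂ, ‖x - 1‖ ≤ 9 / 10 → ‖deriv (blkLC_Q n a) x‖ ≤ M * n * ‖blkLC_Q n a x‖)
    {l : ℝ} (hl : l ∈ Set.Icc (4 / 5 : ℝ) (13 / 10)) {j : ℕ}
    (hmean : blkLC_N n a l = j * blkLC_Q n a l) {S : ℝ} (hS : blkLC_Q n a l = (S : ℂ))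
    (hS0 : 0 ≤ S) {θ : ℝ} (h0 : 0 ≤ θ)
    (h1 : θ ≤ 1 / 10) (h2 : 100 * M * n * θ ^ 3 ≤ 1) :
    S / 2 * Real.exp (-(20 * M * n * θ ^ 2)) ≤
      ∑ i ∈ range (n + 1), (a i * l ^ i) * Real.cos (((i : ℤ) - (j : ℤ) : ℤ) * θ) := by
  obtain ⟨z, hz1, hz2, hz3⟩ := blkLC_curve hQ0 hQ1 hl hmean h0 h1
  rw [← blkLC_re, hz1, hS, Complex.re_ofReal_mul, Complex.exp_re]
  have e1 : -(20 * M * n * θ ^ 2) ≤ z.re := by
    have := (abs_le.1 hz2).1
    linarith
  have e2 : |z.im| ≤ 1 := hz3.trans h2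
  have e3 : 1 / 2 ≤ Real.cos z.im := by
    have e4 := Real.one_sub_sq_div_two_le_cos (x := z.im)
    have e5 : z.im ^ 2 ≤ 1 := by
      rw [← sq_abs]
      have := abs_nonneg z.im
      nlinarith
    linarith
  calc S / 2 * Real.exp (-(20 * M * n * θ ^ 2)) ≤ S / 2 * Real.exp z.re := by gcongr
    _ = S * (Real.exp z.re * (1 / 2)) := by ring
    _ ≤ S * (Real.exp z.re * Real.cos z.im) := by gcongr

theorem blkLC_amgm {u v w : ℝ} (hu : 0 ≤ u) (hv : 0 ≤ v) (h : 0 < 2 * w - u - v) :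
    u * v ≤ w ^ 2 := by
  have h1 : u * v ≤ ((u + v) / 2) ^ 2 := by
    have := sq_nonneg (u - v)
    linarith
  have h2 : ((u + v) / 2) ^ 2 ≤ w ^ 2 := by
    gcongr
    linarith
  exact h1.trans h2

theorem blkLC_exp {c M N θ : ℝ} (hc : 0 < c) (hM : 0 < M) (hN : 0 < N) (h0 : 0 ≤ θ)
    (h : 1 < 100 * M * N * θ ^ 3) :
    Real.exp (-c * N * θ ^ 2) ≤ 720 * (100 * M) ^ 4 / (c ^ 6 * N ^ 2) := by
  have hθ0 : 0 < θ := by
    rcases h0.eq_or_lt with h' | h'
    · rw [← h'] at h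
      norm_num at h
    · exact h'
  have hx0 : 0 < c * N * θ ^ 2 := by positivity
  have e3 := Real.pow_div_factorial_le_exp (c * N * θ ^ 2) hx0.le 6
  have e4 : c ^ 6 * N ^ 2 / (100 * M) ^ 4 ≤ (c * N * θ ^ 2) ^ 6 := by
    rw [div_le_iff₀ (by positivity)]
    have e5 : (c * N * θ ^ 2) ^ 6 * (100 * M) ^ 4 = c ^ 6 * N ^ 2 * (100 * M * N * θ ^ 3) ^ 4 := by
      ring
    rw [e5]
    exact le_mul_of_one_le_right (by positivity) (one_le_pow₀ h.le)
  have e7 : -c * N * θ ^ 2 = -(c * N * θ ^ 2) := by ring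
  rw [e7, Real.exp_neg]
  have e8 : (Nat.factorial 6 : ℝ) = 720 := by
    norm_num [Nat.factorial]
  rw [e8] at e3
  have e9 : c ^ 6 * N ^ 2 / (100 * M) ^ 4 / 720 ≤ Real.exp (c * N * θ ^ 2) := by
    refine le_trans ?_ e3
    gcongr
  have e10 : 720 * (100 * M) ^ 4 / (c ^ 6 * N ^ 2) =
      (c ^ 6 * N ^ 2 / (100 * M) ^ 4 / 720)⁻¹ := by
    field_simp
  rw [e10]
  exact inv_anti₀ (by positivity) e9

theorem lc_of_bounds (M c : ℝ) (hM : 0 < M) (hc : 0 < c) : ∃ n₀ : ℕ, ∀ n ≥ n₀, ∀ a : ℕ → ℝ,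
    (∀ i, 0 ≤ a i) → (∀ x : ℂ, ‖x - 1‖ < 1 → ∑ i ∈ range (n + 1), (a i : ℂ) * x ^ i ≠ 0) →
    (∀ x : ℂ, ‖x - 1‖ ≤ 9 / 10 →
      ‖deriv (fun y : ℂ => ∑ i ∈ range (n + 1), (a i : ℂ) * y ^ i) x‖ ≤
        M * n * ‖∑ i ∈ range (n + 1), (a i : ℂ) * x ^ i‖) →
    ∀ l ∈ Set.Icc (4 / 5 : ℝ) (13 / 10),
      (∀ θ ∈ Set.Icc (-Real.pi) Real.pi,
        ‖∑ i ∈ range (n + 1), (a i : ℂ) * ((l : ℂ) * Complex.exp (θ * Complex.I)) ^ i‖ ≤
          (∑ i ∈ range (n + 1), a i * l ^ i) * Real.exp (-c * n * θ ^ 2)) →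
      ∀ j : ℕ, 1 ≤ j → j + 1 ≤ n →
        ∑ i ∈ range (n + 1), (i : ℝ) * (a i * l ^ i) = j * ∑ i ∈ range (n + 1), a i * l ^ i →
          a (j - 1) * a (j + 1) ≤ a j ^ 2 := by
  set κ : ℝ := Real.exp (-(20 * M)) * c ^ 6 / (15 * (4 * Real.pi) * 720 * (100 * M) ^ 4) with hκ
  have hπ := Real.pi_pos
  have hκ0 : 0 < κ := by positivity
  have ht : Filter.Tendsto (fun n : ℕ => 1 / Real.sqrt n) Filter.atTop (nhds 0) := by
    simp_rw [one_div]
    exact (Real.tendsto_sqrt_atTop.comp tendsto_natCast_atTop_atTop).inv_tendsto_atTop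
  have hm0 : 0 < min (min (1 / 10) (1 / (100 * M))) κ := by positivity
  have ev : ∀ᶠ n : ℕ in Filter.atTop, 1 / Real.sqrt n < min (min (1 / 10) (1 / (100 * M))) κ ∧
      10 / M ≤ n ∧ 1 ≤ n := by
    refine (ht.eventually_lt_const hm0).and (Filter.Eventually.and ?_ (Filter.eventually_ge_atTop 1))
    exact tendsto_natCast_atTop_atTop.eventually_ge_atTop (10 / M)
  obtain ⟨n₀, hn₀⟩ := Filter.eventually_atTop.1 ev
  refine ⟨n₀, fun n hn a ha hQ0 hQ1 l hl hdec j hj hjn hmean => ?_⟩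
  obtain ⟨h1, h2, h3⟩ := hn₀ n hn
  have hn1 : (1 : ℝ) ≤ n := by exact_mod_cast h3
  have hn0 : (0 : ℝ) < n := by linarith
  set δ : ℝ := 1 / Real.sqrt n with hδ
  have hδ0 : 0 < δ := by
    rw [hδ]
    have := Real.sqrt_pos.2 hn0
    positivity
  have hδ2 : n * δ ^ 2 = 1 := by
    rw [hδ, div_pow, Real.sq_sqrt hn0.le]
    field_simp
  have hδ3 : δ < 1 / 10 := h1.trans_le ((min_le_left _ _).trans (min_le_left _ _))
  have hδ4 : δ < 1 / (100 * M) := h1.trans_le ((min_le_left _ _).trans (min_le_right _ _))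
  have hδ5 : δ < κ := h1.trans_le (min_le_right _ _)
  change ∀ x : ℂ, ‖x - 1‖ < 1 → blkLC_Q n a x ≠ 0 at hQ0
  change ∀ x : ℂ, ‖x - 1‖ ≤ 9 / 10 → ‖deriv (blkLC_Q n a) x‖ ≤ M * n * ‖blkLC_Q n a x‖ at hQ1
  have hl0 : 0 < l := by linarith [hl.1]
  set S : ℝ := ∑ i ∈ range (n + 1), a i * l ^ i with hS
  have hSQ : blkLC_Q n a l = (S : ℂ) := by
    rw [hS]
    unfold blkLC_Q
    push_cast
    rfl
  have hS0 : 0 ≤ S := sum_nonneg fun i _ => mul_nonneg (ha i) (pow_nonneg hl0.le i)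
  have hSpos : 0 < S := by
    refine lt_of_le_of_ne hS0 fun h => ?_
    refine hQ0 l ?_ ?_
    · have : (l : ℂ) - 1 = ((l - 1 : ℝ) : ℂ) := by push_cast; rfl
      rw [this, Complex.norm_real, Real.norm_eq_abs, abs_lt]
      constructor <;> linarith [hl.1, hl.2]
    · rw [hSQ, ← h, Complex.ofReal_zero]
  have hN : blkLC_N n a l = j * blkLC_Q n a l := by
    rw [hSQ]
    unfold blkLC_N
    have : ((∑ i ∈ range (n + 1), (i : ℝ) * (a i * l ^ i) : ℝ) : ℂ) = ((j * S : ℝ) : ℂ) := by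
      rw [hmean]
    push_cast at this
    exact this
  set R : ℝ → ℝ := fun θ => ∑ i ∈ range (n + 1), (a i * l ^ i) *
    Real.cos (((i : ℤ) - (j : ℤ) : ℤ) * θ) with hR
  have hRc : Continuous R := by
    simp only [hR]
    fun_prop
  have hgood : ∀ θ : ℝ, 0 ≤ θ → 100 * M * n * θ ^ 3 ≤ 1 →
      S / 2 * Real.exp (-(20 * M * n * θ ^ 2)) ≤ R θ := by
    intro θ h0 hθ
    refine blkLC_lower hQ0 hQ1 hl hN hSQ hS0 h0 ?_ hθ
    by_contra hcon
    push Not at hcon
    have e1 : (1 / 10 : ℝ) ^ 3 < θ ^ 3 := by gcongr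
    have e2 : 10 ≤ M * n := by
      rw [div_le_iff₀ hM] at h2
      linarith
    have e3 : 0 < M * n := by positivity
    have e4 := mul_lt_mul_of_pos_left e1 e3
    linarith
  have hupper : ∀ θ : ℝ, 0 ≤ θ → θ ≤ Real.pi → |R θ| ≤ S * Real.exp (-c * n * θ ^ 2) := by
    intro θ h0 hθ
    have e1 := hdec θ ⟨by linarith, hθ⟩
    change ‖blkLC_Q n a (l * Complex.exp (θ * Complex.I))‖ ≤ _ at e1
    have e2 := blkLC_re n a l j θ
    have e3 : R θ = _ := e2.symm
    rw [e3]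
    refine (Complex.abs_re_le_norm _).trans ?_
    rw [norm_mul]
    have e4 : ‖Complex.exp (-(j * θ * Complex.I))‖ = 1 := by
      have : -((j : ℂ) * θ * Complex.I) = ((-(j * θ) : ℝ) : ℂ) * Complex.I := by
        push_cast
        ring
      rw [this, Complex.norm_exp_ofReal_mul_I]
    rw [e4, mul_one]
    exact e1
  set ε : ℝ := 720 * (100 * M) ^ 4 / (c ^ 6 * n ^ 2) with hε
  have hε0 : 0 < ε := by positivity
  have hbad : ∀ θ : ℝ, 0 ≤ θ → θ ≤ Real.pi → -(S * ε) ≤ R θ := by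
    intro θ h0 hθ
    by_cases hcase : 100 * M * n * θ ^ 3 ≤ 1
    · refine le_trans ?_ (hgood θ h0 hcase)
      have : 0 ≤ S * ε := by positivity
      have : 0 ≤ S / 2 * Real.exp (-(20 * M * n * θ ^ 2)) := by positivity
      linarith
    · push Not at hcase
      have e1 := hupper θ h0 hθ
      have e2 : Real.exp (-c * n * θ ^ 2) ≤ ε :=
        blkLC_exp hc hM hn0 h0 hcase
      have e3 := (abs_le.1 e1).1
      have e4 : S * Real.exp (-c * n * θ ^ 2) ≤ S * ε := by gcongr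
      linarith
  -- the integral
  have hF := blkLC_fourier n (fun i => a i * l ^ i) hj hjn
  change ∫ θ in (0 : ℝ)..Real.pi, R θ * (2 - 2 * Real.cos θ) = _ at hF
  have hint : ∀ u v : ℝ, IntervalIntegrable (fun θ => R θ * (2 - 2 * Real.cos θ))
      MeasureTheory.volume u v := fun u v => by
    refine Continuous.intervalIntegrable ?_ _ _
    fun_prop
  rw [← intervalIntegral.integral_add_adjacent_intervals (hint 0 δ) (hint δ Real.pi)] at hF
  have hπ3 := Real.pi_gt_three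
  have hπ4 : Real.pi ^ 2 ≤ 10 := by
    have h1 : Real.pi ^ 2 ≤ 3.15 ^ 2 := by
      have := Real.pi_lt_d2
      gcongr
    norm_num at h1 ⊢
    linarith
  set K : ℝ := S * Real.exp (-(20 * M)) / 5 with hK
  have hK0 : 0 < K := by positivity
  have hI1 : K * δ ^ 3 / 3 ≤ ∫ θ in (0 : ℝ)..δ, R θ * (2 - 2 * Real.cos θ) := by
    have e0 : ∫ θ in (0 : ℝ)..δ, K * θ ^ 2 = K * δ ^ 3 / 3 := by
      rw [intervalIntegral.integral_const_mul, integral_pow]
      norm_num
      ring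
    rw [← e0]
    refine intervalIntegral.integral_mono_on hδ0.le ?_ (hint 0 δ) ?_
    · exact (by fun_prop : Continuous fun θ : ℝ => K * θ ^ 2).intervalIntegrable _ _
    · intro θ hθ
      have e1 : 100 * M * n * θ ^ 3 ≤ 1 := by
        calc 100 * M * n * θ ^ 3 ≤ 100 * M * n * δ ^ 3 := by
              have := hθ.1
              have := hθ.2
              gcongr
          _ = 100 * M * δ * (n * δ ^ 2) := by ring
          _ = 100 * M * δ := by rw [hδ2, mul_one]
          _ ≤ 1 := by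
              rw [lt_div_iff₀ (by positivity)] at hδ4
              linarith
      have e2 := hgood θ hθ.1 e1
      have e3 : Real.exp (-(20 * M)) ≤ Real.exp (-(20 * M * n * θ ^ 2)) := by
        rw [Real.exp_le_exp]
        have e31 : n * θ ^ 2 ≤ 1 := by
          rw [← hδ2]
          have := hθ.1
          have := hθ.2
          gcongr
        have e32 := mul_le_mul_of_nonneg_left e31 (by positivity : 0 ≤ 20 * M)
        linarith
      have e4 : 2 / 5 * θ ^ 2 ≤ 2 - 2 * Real.cos θ := by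
        have e5 := Real.cos_le_one_sub_mul_cos_sq (x := θ) (by
          rw [abs_of_nonneg hθ.1]; linarith [hθ.2])
        have e6 : 1 / 5 ≤ 2 / Real.pi ^ 2 := by
          rw [div_le_div_iff₀ (by norm_num) (by positivity)]
          linarith
        have e7 : 1 / 5 * θ ^ 2 ≤ 2 / Real.pi ^ 2 * θ ^ 2 := by gcongr
        linarith
      have e8 : 0 ≤ S / 2 * Real.exp (-(20 * M)) := by positivity
      calc K * θ ^ 2 = (S / 2 * Real.exp (-(20 * M))) * (2 / 5 * θ ^ 2) := by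
            rw [hK]; ring
        _ ≤ (S / 2 * Real.exp (-(20 * M * n * θ ^ 2))) * (2 - 2 * Real.cos θ) := by
            gcongr
        _ ≤ R θ * (2 - 2 * Real.cos θ) := by
            have : 0 ≤ 2 - 2 * Real.cos θ := by linarith [Real.cos_le_one θ]
            gcongr
  have hI2 : -(S * ε * 4 * Real.pi) ≤ ∫ θ in δ..Real.pi, R θ * (2 - 2 * Real.cos θ) := by
    have hδπ : δ ≤ Real.pi := by linarith
    have e0 : ∫ θ in δ..Real.pi, -(S * ε * 4) = -(S * ε * 4) * (Real.pi - δ) := by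
      rw [intervalIntegral.integral_const, smul_eq_mul, mul_comm]
    have e1 : ∫ θ in δ..Real.pi, -(S * ε * 4) ≤
        ∫ θ in δ..Real.pi, R θ * (2 - 2 * Real.cos θ) := by
      refine intervalIntegral.integral_mono_on hδπ intervalIntegrable_const (hint _ _) ?_
      intro θ hθ
      have e2 := hbad θ (hδ0.le.trans hθ.1) hθ.2
      have e3 : 0 ≤ 2 - 2 * Real.cos θ := by linarith [Real.cos_le_one θ]
      have e4 : 2 - 2 * Real.cos θ ≤ 4 := by linarith [Real.neg_one_le_cos θ]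
      have e5 : 0 ≤ S * ε := by positivity
      have e6 := mul_le_mul_of_nonneg_left e4 e5
      have e7 := mul_le_mul_of_nonneg_right e2 e3
      show -(S * ε * 4) ≤ R θ * (2 - 2 * Real.cos θ)
      linarith
    rw [e0] at e1
    have : 0 ≤ S * ε * 4 * δ := by positivity
    linarith
  have hfin : 0 < K * δ ^ 3 / 3 - S * ε * 4 * Real.pi := by
    have e1 : ε = 720 * (100 * M) ^ 4 / c ^ 6 * δ ^ 4 := by
      have e2 : (δ ^ 2 * n) ^ 2 = 1 := by rw [mul_comm, hδ2, one_pow]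
      rw [hε]
      have e3 : δ ^ 4 = 1 / n ^ 2 := by
        rw [eq_div_iff (by positivity)]
        rw [← e2]; ring
      rw [e3]
      field_simp
    have hA0 : 0 < 720 * (100 * M) ^ 4 / c ^ 6 * (4 * Real.pi) := by positivity
    have hA1 : 720 * (100 * M) ^ 4 / c ^ 6 * (4 * Real.pi) * κ = Real.exp (-(20 * M)) / 15 := by
      rw [hκ]
      field_simp
    have hA2 : ε * 4 * Real.pi = δ ^ 4 * (720 * (100 * M) ^ 4 / c ^ 6 * (4 * Real.pi)) := by
      rw [e1]; ring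
    clear_value ε κ δ
    set A : ℝ := 720 * (100 * M) ^ 4 / c ^ 6 * (4 * Real.pi) with hA
    clear_value A
    have e5 : S * δ ^ 3 * A * δ < S * δ ^ 3 * A * κ := by
      have : 0 < S * δ ^ 3 * A := by positivity
      exact mul_lt_mul_of_pos_left hδ5 this
    have e6 : S * δ ^ 3 * A * κ = K * δ ^ 3 / 3 := by
      rw [mul_assoc, hA1, hK]
      ring
    have e7 : S * ε * 4 * Real.pi = S * δ ^ 3 * A * δ := by
      calc S * ε * 4 * Real.pi = S * (ε * 4 * Real.pi) := by ring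
        _ = _ := by rw [hA2]; ring
    linarith
  have hpos : 0 < 2 * (a j * l ^ j) - a (j - 1) * l ^ (j - 1) - a (j + 1) * l ^ (j + 1) := by
    have : 0 < Real.pi * (2 * (a j * l ^ j) - a (j - 1) * l ^ (j - 1) -
        a (j + 1) * l ^ (j + 1)) := by
      rw [← hF]
      linarith
    exact (pos_iff_pos_of_mul_pos this).1 hπ
  have hprod : (a (j - 1) * l ^ (j - 1)) * (a (j + 1) * l ^ (j + 1)) ≤ (a j * l ^ j) ^ 2 := by
    have hx : 0 ≤ a (j - 1) * l ^ (j - 1) := mul_nonneg (ha _) (pow_nonneg hl0.le _)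
    have hy : 0 ≤ a (j + 1) * l ^ (j + 1) := mul_nonneg (ha _) (pow_nonneg hl0.le _)
    exact blkLC_amgm hx hy hpos
  have hpow : l ^ (j - 1) * l ^ (j + 1) = (l ^ j) ^ 2 := by
    rw [← pow_add, ← pow_mul]
    congr 1
    omega
  have hlj : 0 < (l ^ j) ^ 2 := by positivity
  have e1 : (a (j - 1) * a (j + 1)) * (l ^ j) ^ 2 ≤ (a j ^ 2) * (l ^ j) ^ 2 := by
    calc (a (j - 1) * a (j + 1)) * (l ^ j) ^ 2 =
        (a (j - 1) * l ^ (j - 1)) * (a (j + 1) * l ^ (j + 1)) := by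
          rw [← hpow]; ring
      _ ≤ (a j * l ^ j) ^ 2 := hprod
      _ = _ := by ring
  exact le_of_mul_le_mul_right e1 hlj

-- END BLOCK

end Pool.Agent.Lib_helper19.Src
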