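import Pool.Agent.Lib_helper19.Src.Main

set_option autoImplicit false

namespace Pool.Agent.Lib_helper19.Src

open Finset

-- BEGIN BLOCK

/-- weighted generating function -/
noncomputable def blkZF_W (n : ℕ) (p : ℕ → ℕ) (s : ℕ → ℂ) (y : ℂ) : ℂ :=
  ∑ U ∈ (Ico 1 n).powerset, ∏ u ∈ range n, (if IsSrc n p U u then 1 + y * s u else 1)

theorem blkZF_PC (n : ℕ) (p : ℕ → ℕ) (x : ℂ) :
    PC n p x = blkZF_W n p (fun _ => 1) (x - 1) := by
  unfold PC blkZF_W Zs
  refine sum_congr rfl fun U _ => ?_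
  rw [← prod_filter, prod_const]
  congr 1
  ring

theorem blkZF_src1 {n : ℕ} {p : ℕ → ℕ} {U : Finset ℕ} {u : ℕ} (hU : U ⊆ Ico 1 n) :
    IsSrc (n + 1) p U u ↔ IsSrc n p U u := by
  unfold IsSrc
  constructor
  · rintro ⟨h1, h2⟩
    refine ⟨h1, fun w hw hwu => h2 w ?_ hwu⟩
    rw [mem_Ico] at hw ⊢
    omega
  · rintro ⟨h1, h2⟩
    refine ⟨h1, fun w hw hwu hwU => ?_⟩
    exact h2 w (hU hwU) hwu hwU

theorem blkZF_src2 {n : ℕ} {p : ℕ → ℕ} {U : Finset ℕ} (hn : 1 ≤ n) (hU : U ⊆ Ico 1 n) :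
    ¬ IsSrc (n + 1) p U n := by
  rintro ⟨h1, _⟩
  rcases h1 with h1 | h1
  · omega
  · have := hU h1
    rw [mem_Ico] at this
    omega

theorem blkZF_src3 {n : ℕ} {p : ℕ → ℕ} {U : Finset ℕ} {u : ℕ} (hn : 1 ≤ n) (hU : U ⊆ Ico 1 n)
    (hu : u < n) :
    IsSrc (n + 1) p (insert n U) u ↔ IsSrc n p U u ∧ p n ≠ u := by
  unfold IsSrc
  constructor
  · rintro ⟨h1, h2⟩
    refine ⟨⟨?_, fun w hw hwu hwU => ?_⟩, fun h => ?_⟩
    · rcases h1 with h1 | h1
      · exact Or.inl h1
      · rw [mem_insert] at h1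
        rcases h1 with h1 | h1
        · omega
        · exact Or.inr h1
    · refine h2 w ?_ hwu (mem_insert_of_mem hwU)
      rw [mem_Ico] at hw ⊢
      omega
    · refine h2 n ?_ h (mem_insert_self _ _)
      rw [mem_Ico]
      omega
  · rintro ⟨⟨h1, h2⟩, h3⟩
    refine ⟨?_, fun w hw hwu hwU => ?_⟩
    · rcases h1 with h1 | h1
      · exact Or.inl h1
      · exact Or.inr (mem_insert_of_mem h1)
    · rw [mem_insert] at hwU
      rcases hwU with h | h
      · subst h
        exact h3 hwu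
      · exact h2 w (hU h) hwu h

theorem blkZF_src4 {n : ℕ} {p : ℕ → ℕ} {U : Finset ℕ} (hp : TreeFn (n + 1) p) :
    IsSrc (n + 1) p (insert n U) n := by
  refine ⟨Or.inr (mem_insert_self _ _), fun w hw hwu => ?_⟩
  have := hp w hw
  rw [mem_Ico] at hw
  omega

theorem blkZF_leaf {n : ℕ} {p : ℕ → ℕ} (hn : 1 ≤ n) (hp : TreeFn (n + 1) p) (s : ℕ → ℂ) (y : ℂ)
    (h0 : 2 + y * s n ≠ 0) :
    blkZF_W (n + 1) p s y =
      (2 + y * s n) * blkZF_W n p (Function.update s (p n) (s (p n) / (2 + y * s n))) y := by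
  unfold blkZF_W
  have hI : Ico 1 (n + 1) = insert n (Ico 1 n) := by
    ext a
    rw [mem_insert, mem_Ico, mem_Ico]
    omega
  have hpn : p n < n := hp n (by rw [mem_Ico]; omega)
  rw [hI, sum_powerset_insert (by rw [mem_Ico]; omega), ← sum_add_distrib, mul_sum]
  refine sum_congr rfl fun U hU => ?_
  rw [mem_powerset] at hU
  rw [prod_range_succ, prod_range_succ]
  rw [if_neg (blkZF_src2 hn hU), if_pos (blkZF_src4 hp)]
  have hmem : p n ∈ range n := mem_range.2 hpn
  rw [← mul_prod_erase _ _ hmem, ← mul_prod_erase _ _ hmem, ← mul_prod_erase _ _ hmem]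
  have e1 : ∏ u ∈ (range n).erase (p n), (if IsSrc (n + 1) p U u then 1 + y * s u else 1) =
      ∏ u ∈ (range n).erase (p n), (if IsSrc n p U u then 1 + y * s u else 1) := by
    refine prod_congr rfl fun u _ => ?_
    simp only [blkZF_src1 hU]
  have e2 : ∏ u ∈ (range n).erase (p n), (if IsSrc (n + 1) p (insert n U) u then 1 + y * s u
      else 1) = ∏ u ∈ (range n).erase (p n), (if IsSrc n p U u then 1 + y * s u else 1) := by
    refine prod_congr rfl fun u hu => ?_
    rw [mem_erase, mem_range] at hu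
    have : IsSrc (n + 1) p (insert n U) u ↔ IsSrc n p U u := by
      rw [blkZF_src3 hn hU hu.2]
      exact ⟨fun h => h.1, fun h => ⟨h, fun h' => hu.1 h'.symm⟩⟩
    simp only [this]
  have e3 : ∏ u ∈ (range n).erase (p n), (if IsSrc n p U u then
      1 + y * Function.update s (p n) (s (p n) / (2 + y * s n)) u else 1) =
      ∏ u ∈ (range n).erase (p n), (if IsSrc n p U u then 1 + y * s u else 1) := by
    refine prod_congr rfl fun u hu => ?_
    rw [mem_erase] at hu
    rw [Function.update_of_ne hu.1]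
  rw [e1, e2, e3]
  have h3 : ¬ IsSrc (n + 1) p (insert n U) (p n) := by
    rw [blkZF_src3 hn hU hpn]
    exact fun h => h.2 rfl
  rw [if_neg h3]
  simp only [blkZF_src1 hU]
  rw [Function.update_self]
  set P := ∏ u ∈ (range n).erase (p n), (if IsSrc n p U u then 1 + y * s u else 1) with hP
  by_cases h : IsSrc n p U (p n)
  · rw [if_pos h, if_pos h]
    field_simp
    ring
  · rw [if_neg h, if_neg h]
    ring

theorem blkZF_deriv_s {s : ℂ → ℂ} (hs : DifferentiableOn ℂ s (Metric.ball 1 1))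
    (hs1 : ∀ x ∈ Metric.ball (1 : ℂ) 1, ‖s x‖ ≤ 1) {x : ℂ} (hx : ‖x - 1‖ ≤ 9 / 10) :
    ‖deriv s x‖ ≤ 11 := by
  have hsub : ∀ z, dist z x ≤ 1 / 11 → z ∈ Metric.ball (1 : ℂ) 1 := by
    intro z hz
    rw [Metric.mem_ball]
    have h1 : dist x 1 ≤ 9 / 10 := by rw [dist_eq_norm]; exact hx
    have := dist_triangle z x 1
    linarith
  have h := Complex.norm_deriv_le_of_forall_mem_sphere_norm_le (c := x) (R := 1 / 11) (C := 1)
    (f := s) (by norm_num) ?_ ?_
  · calc ‖deriv s x‖ ≤ 1 / (1 / 11) := h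
      _ = 11 := by norm_num
  · refine (hs.mono fun z hz => hsub z ?_).diffContOnCl_ball (U := Metric.closedBall x (1 / 11)) ?_
    · exact Metric.mem_closedBall.1 hz
    · exact subset_rfl
  · intro z hz
    exact hs1 z (hsub z (by rw [Metric.mem_sphere] at hz; exact hz.le))

theorem blkZF_factor {s : ℂ → ℂ} (hs : DifferentiableOn ℂ s (Metric.ball 1 1))
    (hs1 : ∀ x ∈ Metric.ball (1 : ℂ) 1, ‖s x‖ ≤ 1) (a : ℂ) {x : ℂ} (hx : ‖x - 1‖ ≤ 9 / 10) :
    DifferentiableAt ℂ (fun z => a + (z - 1) * s z) x ∧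
      ‖deriv (fun z => a + (z - 1) * s z) x‖ ≤ 109 / 10 ∧ ‖a‖ - 9 / 10 ≤ ‖a + (x - 1) * s x‖ := by
  have hxb : x ∈ Metric.ball (1 : ℂ) 1 := by
    rw [Metric.mem_ball, dist_eq_norm]; linarith
  have hd : DifferentiableAt ℂ s x := hs.differentiableAt (Metric.isOpen_ball.mem_nhds hxb)
  have hD : HasDerivAt (fun z => a + (z - 1) * s z) (1 * s x + (x - 1) * deriv s x) x := by
    have h1 : HasDerivAt (fun z : ℂ => z - 1) 1 x := (hasDerivAt_id x).sub_const 1
    exact (h1.mul hd.hasDerivAt).const_add a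
  refine ⟨hD.differentiableAt, ?_, ?_⟩
  · rw [hD.deriv]
    calc ‖1 * s x + (x - 1) * deriv s x‖ ≤ ‖1 * s x‖ + ‖(x - 1) * deriv s x‖ := norm_add_le _ _
      _ ≤ 1 + 9 / 10 * 11 := by
          rw [one_mul, norm_mul]
          gcongr
          · exact hs1 x hxb
          · exact blkZF_deriv_s hs hs1 hx
      _ = 109 / 10 := by norm_num
  · have h2 : ‖(x - 1) * s x‖ ≤ 9 / 10 := by
      rw [norm_mul]
      calc ‖x - 1‖ * ‖s x‖ ≤ 9 / 10 * 1 := by
            gcongr
            exact hs1 x hxb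
        _ = 9 / 10 := by norm_num
    have h3 := norm_sub_le (a + (x - 1) * s x) ((x - 1) * s x)
    rw [add_sub_cancel_right] at h3
    linarith

theorem blkZF_main (n : ℕ) (hn : 1 ≤ n) : ∀ p : ℕ → ℕ, TreeFn n p → ∀ s : ℕ → ℂ → ℂ,
    (∀ u, DifferentiableOn ℂ (s u) (Metric.ball 1 1)) →
    (∀ u, ∀ x ∈ Metric.ball (1 : ℂ) 1, ‖s u x‖ ≤ 1) →
    (∀ x ∈ Metric.ball (1 : ℂ) 1, blkZF_W n p (fun u => s u x) (x - 1) ≠ 0) ∧
    DifferentiableOn ℂ (fun x => blkZF_W n p (fun u => s u x) (x - 1)) (Metric.ball 1 1) ∧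
    ∀ x : ℂ, ‖x - 1‖ ≤ 9 / 10 →
      ‖deriv (fun x => blkZF_W n p (fun u => s u x) (x - 1)) x‖ ≤
        110 * n * ‖blkZF_W n p (fun u => s u x) (x - 1)‖ := by
  induction n, hn using Nat.le_induction with
  | base =>
    intro p hp s hs hs1
    have hW : ∀ x : ℂ, blkZF_W 1 p (fun u => s u x) (x - 1) = 1 + (x - 1) * s 0 x := by
      intro x
      unfold blkZF_W
      have hsrc : IsSrc 1 p ∅ 0 := by
        refine ⟨Or.inl rfl, fun w hw => ?_⟩
        simp at hw
      simp [hsrc]
    have hWf : (fun x => blkZF_W 1 p (fun u => s u x) (x - 1)) = fun x => 1 + (x - 1) * s 0 x :=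
      funext hW
    refine ⟨fun x hx => ?_, ?_, fun x hx => ?_⟩
    · rw [hW]
      intro h
      have h2 : ‖(x - 1) * s 0 x‖ < 1 := by
        rw [norm_mul]
        have hx1 : ‖x - 1‖ < 1 := by
          rw [Metric.mem_ball, dist_eq_norm] at hx; exact hx
        calc ‖x - 1‖ * ‖s 0 x‖ ≤ ‖x - 1‖ * 1 := by
              gcongr
              exact hs1 0 x hx
          _ < 1 := by rw [mul_one]; exact hx1
      have h3 : (x - 1) * s 0 x = -1 := by linear_combination h
      rw [h3] at h2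
      simp at h2
    · rw [hWf]
      have := hs 0
      fun_prop
    · rw [hWf, hW x]
      obtain ⟨_, h2, h3⟩ := blkZF_factor (hs 0) (hs1 0) 1 hx
      rw [norm_one] at h3
      calc _ ≤ (109 / 10 : ℝ) := h2
        _ ≤ 110 * ((1 : ℕ) : ℝ) * (1 - 9 / 10) := by norm_num
        _ ≤ _ := by gcongr
  | succ n hn ih =>
    intro p hp s hs hs1
    have hpn : TreeFn n p := by
      intro v hv
      refine hp v ?_
      rw [mem_Ico] at hv ⊢
      omega
    -- the new weights
    set s' : ℕ → ℂ → ℂ := fun u x =>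
      Function.update (fun u => s u x) (p n) (s (p n) x / (2 + (x - 1) * s n x)) u with hs'
    have hden : ∀ x ∈ Metric.ball (1 : ℂ) 1, 1 ≤ ‖2 + (x - 1) * s n x‖ := by
      intro x hx
      have hx1 : ‖x - 1‖ < 1 := by
        rw [Metric.mem_ball, dist_eq_norm] at hx; exact hx
      have h2 : ‖(x - 1) * s n x‖ ≤ 1 := by
        rw [norm_mul]
        calc ‖x - 1‖ * ‖s n x‖ ≤ 1 * 1 := by
              gcongr
              exact hs1 n x hx
          _ = 1 := one_mul 1
      have h3 := norm_sub_le (2 + (x - 1) * s n x) ((x - 1) * s n x)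
      rw [add_sub_cancel_right] at h3
      have h4 : ‖(2 : ℂ)‖ = 2 := by simp
      linarith
    have hden0 : ∀ x ∈ Metric.ball (1 : ℂ) 1, 2 + (x - 1) * s n x ≠ 0 := by
      intro x hx h
      have := hden x hx
      rw [h, norm_zero] at this
      linarith
    have hs'd : ∀ u, DifferentiableOn ℂ (s' u) (Metric.ball 1 1) := by
      intro u
      by_cases hu : u = p n
      · have : s' u = fun x => s (p n) x / (2 + (x - 1) * s n x) := by
          funext x
          simp only [hs', hu, Function.update_self]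
        rw [this]
        refine DifferentiableOn.div (hs (p n)) ?_ hden0
        have := hs n
        fun_prop
      · have : s' u = s u := by
          funext x
          simp only [hs', Function.update_of_ne hu]
        rw [this]
        exact hs u
    have hs'1 : ∀ u, ∀ x ∈ Metric.ball (1 : ℂ) 1, ‖s' u x‖ ≤ 1 := by
      intro u x hx
      by_cases hu : u = p n
      · have : s' u x = s (p n) x / (2 + (x - 1) * s n x) := by
          simp only [hs', hu, Function.update_self]
        rw [this, norm_div]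
        have h1 := hden x hx
        have h2 := hs1 (p n) x hx
        rw [div_le_one (by linarith)]
        linarith
      · have : s' u x = s u x := by
          simp only [hs', Function.update_of_ne hu]
        rw [this]
        exact hs1 u x hx
    obtain ⟨ih1, ih2, ih3⟩ := ih p hpn s' hs'd hs'1
    have hkey : ∀ x ∈ Metric.ball (1 : ℂ) 1, blkZF_W (n + 1) p (fun u => s u x) (x - 1) =
        (2 + (x - 1) * s n x) * blkZF_W n p (fun u => s' u x) (x - 1) := by
      intro x hx
      exact blkZF_leaf hn hp (fun u => s u x) (x - 1) (hden0 x hx)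
    refine ⟨fun x hx => ?_, ?_, fun x hx => ?_⟩
    · rw [hkey x hx]
      exact mul_ne_zero (hden0 x hx) (ih1 x hx)
    · refine DifferentiableOn.congr (f := fun x => (2 + (x - 1) * s n x) *
        blkZF_W n p (fun u => s' u x) (x - 1)) ?_ hkey
      refine DifferentiableOn.mul ?_ ih2
      have := hs n
      fun_prop
    · have hxb : x ∈ Metric.ball (1 : ℂ) 1 := by
        rw [Metric.mem_ball, dist_eq_norm]; linarith
      have hev : (fun x => blkZF_W (n + 1) p (fun u => s u x) (x - 1)) =ᶠ[nhds x]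
          fun x => (2 + (x - 1) * s n x) * blkZF_W n p (fun u => s' u x) (x - 1) := by
        filter_upwards [Metric.isOpen_ball.mem_nhds hxb] with z hz
        exact hkey z hz
      obtain ⟨h1, h2, h3⟩ := blkZF_factor (hs n) (hs1 n) 2 hx
      have h4 : ‖(2 : ℂ)‖ = 2 := by simp
      rw [h4] at h3
      have hWd : DifferentiableAt ℂ (fun x => blkZF_W n p (fun u => s' u x) (x - 1)) x :=
        ih2.differentiableAt (Metric.isOpen_ball.mem_nhds hxb)
      rw [hev.deriv_eq, hkey x hxb]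
      have hmul : deriv (fun x => (2 + (x - 1) * s n x) *
          blkZF_W n p (fun u => s' u x) (x - 1)) x =
          deriv (fun x => 2 + (x - 1) * s n x) x * blkZF_W n p (fun u => s' u x) (x - 1) +
          (2 + (x - 1) * s n x) * deriv (fun x => blkZF_W n p (fun u => s' u x) (x - 1)) x :=
        deriv_mul h1 hWd
      rw [hmul]
      have h5 := ih3 x hx
      set A := ‖2 + (x - 1) * s n x‖ with hA
      set B := ‖blkZF_W n p (fun u => s' u x) (x - 1)‖ with hB
      have hB0 : 0 ≤ B := norm_nonneg _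
      calc _ ≤ ‖deriv (fun x => 2 + (x - 1) * s n x) x *
            blkZF_W n p (fun u => s' u x) (x - 1)‖ + ‖(2 + (x - 1) * s n x) *
            deriv (fun x => blkZF_W n p (fun u => s' u x) (x - 1)) x‖ := norm_add_le _ _
        _ ≤ 109 / 10 * B + A * (110 * n * B) := by
            rw [norm_mul, norm_mul]
            gcongr
        _ ≤ (110 * A) * B + A * (110 * n * B) := by
            gcongr
            linarith
        _ = 110 * ((n + 1 : ℕ) : ℝ) * (A * B) := by
            push_cast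
            ring
        _ = _ := by rw [hA, hB, ← norm_mul]

theorem zero_free : ∃ M : ℝ, 0 < M ∧ ∀ n : ℕ, 1 ≤ n → ∀ p : ℕ → ℕ, TreeFn n p → ∀ x : ℂ,
    (‖x - 1‖ < 1 → PC n p x ≠ 0) ∧
      (‖x - 1‖ ≤ 9 / 10 → ‖deriv (PC n p) x‖ ≤ M * n * ‖PC n p x‖) := by
  refine ⟨110, by norm_num, fun n hn p hp x => ?_⟩
  obtain ⟨h1, _, h3⟩ := blkZF_main n hn p hp (fun _ _ => 1)
    (fun _ => differentiableOn_const _) (fun _ _ _ => by simp)
  have hPC : PC n p = fun x => blkZF_W n p (fun _ => 1) (x - 1) := funext (blkZF_PC n p)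
  refine ⟨fun hx => ?_, fun hx => ?_⟩
  · rw [blkZF_PC]
    exact h1 x (by rw [Metric.mem_ball, dist_eq_norm]; exact hx)
  · rw [hPC]
    exact h3 x hx

-- END BLOCK

end Pool.Agent.Lib_helper19.Src
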