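import Pool.Agent.Lib_helper19.Src.Main
import Pool.Agent.Lib_helper19.SrcA.ZF
import Pool.Agent.Lib_helper19.SrcA.DC
import Pool.Agent.Lib_helper19.SrcA.LC

set_option autoImplicit false

namespace Pool.Agent.Lib_helper19.Src

open Finset



-- BEGIN BLOCK
theorem blkLN_sum (n : ℕ) (p : ℕ → ℕ) (g : ℕ → ℝ) :
    ∑ U ∈ (Ico 1 n).powerset, g (Zs n p U) = ∑ j ∈ range (n + 1), (cnt n p j : ℝ) * g j := by
  have h : ∀ U ∈ (Ico 1 n).powerset, Zs n p U ∈ range (n + 1) := fun U _ =>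
    mem_range.mpr (Nat.lt_succ_of_le (Zs_le n p U))
  rw [← Finset.sum_fiberwise_of_maps_to h]
  refine Finset.sum_congr rfl fun j _ => ?_
  have : ∀ U ∈ (Ico 1 n).powerset.filter (fun U => Zs n p U = j), g (Zs n p U) = g j := by
    intro U hU
    rw [(mem_filter.mp hU).2]
  rw [Finset.sum_congr rfl this, Finset.sum_const, nsmul_eq_mul]
  rfl

theorem lc_near : ∃ n₀ : ℕ, ∀ n ≥ n₀, ∀ p : ℕ → ℕ, TreeFn n p →
    ∀ l ∈ Set.Icc (4 / 5 : ℝ) (13 / 10), ∀ j : ℕ, 1 ≤ j →
      ∑ U ∈ (Ico 1 n).powerset, (Zs n p U : ℝ) * l ^ Zs n p U = j * PR n p l →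
        cnt n p (j - 1) * cnt n p (j + 1) ≤ cnt n p j ^ 2 := by
  obtain ⟨M, hM, hzf⟩ := zero_free
  obtain ⟨c, hc, n1, hdc⟩ := decay (4 / 5) (13 / 10) (by norm_num) (by norm_num)
  obtain ⟨n2, hlc⟩ := lc_of_bounds M c hM hc
  refine ⟨max (max n1 n2) 1, fun n hn p hp l hl j hj hmean => ?_⟩
  have hn1 : n1 ≤ n := le_trans (le_trans (le_max_left _ _) (le_max_left _ _)) hn
  have hn2 : n2 ≤ n := le_trans (le_trans (le_max_right _ _) (le_max_left _ _)) hn
  have hn3 : 1 ≤ n := le_trans (le_max_right _ _) hn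
  by_cases hjn : j + 1 ≤ n
  · have hPC : ∀ x : ℂ, ∑ i ∈ range (n + 1), (((cnt n p i : ℕ) : ℝ) : ℂ) * x ^ i = PC n p x := by
      intro x
      rw [PC_eq]
      refine Finset.sum_congr rfl fun i _ => ?_
      push_cast
      rfl
    have key := hlc n hn2 (fun i => (cnt n p i : ℝ)) (fun i => Nat.cast_nonneg _)
      (fun x hx => by
        rw [hPC]
        exact (hzf n hn3 p hp x).1 hx)
      (fun x hx => by
        have hfun : (fun y : ℂ => ∑ i ∈ range (n + 1), (((cnt n p i : ℕ) : ℝ) : ℂ) * y ^ i) = PC n p := by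
          funext y
          exact hPC y
        rw [hfun, hPC]
        exact (hzf n hn3 p hp x).2 hx)
      l hl
      (fun θ hθ => by
        rw [hPC, ← PR_eq]
        exact hdc n hn1 p hp l hl θ hθ)
      j hj hjn
      (by
        rw [← PR_eq, ← hmean, blkLN_sum n p (fun i => (i : ℝ) * l ^ i)]
        refine Finset.sum_congr rfl fun i _ => ?_
        ring)
    exact_mod_cast key
  · have : cnt n p (j + 1) = 0 := cnt_eq_zero (by omega)
    rw [this, Nat.mul_zero]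
    exact Nat.zero_le _
-- END BLOCK

end Pool.Agent.Lib_helper19.Src
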