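import Pool.Agent.Lib_helper19.Src.Main
import Pool.Agent.Lib_helper19.SrcA.BA
import Pool.Agent.Lib_helper19.SrcA.SW
import Pool.Agent.Lib_helper19.SrcA.KI
import Pool.Agent.Lib_helper19.SrcA.FE
import Pool.Agent.Lib_helper19.SrcA.BN

set_option autoImplicit false

namespace Pool.Agent.Lib_helper19.Src

open Finset



-- BEGIN BLOCK

/-- part of a group with `i` sources -/
noncomputable def blkST_S (F : Finset ℕ) (l : ℝ) (z i : ℕ) : ℝ :=
  ∑ A ∈ F.powerset, if z + A.card = i then l ^ i else 0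

theorem blkST_tot (F : Finset ℕ) (l : ℝ) :
    ∑ A ∈ F.powerset, l ^ A.card = (1 + l) ^ F.card := by
  have h := Finset.sum_pow_mul_eq_add_pow l (1 : ℝ) F
  simp only [one_pow, mul_one] at h
  rw [h, add_comm]

theorem blkST_S_nonneg (F : Finset ℕ) {l : ℝ} (hl : 0 < l) (z i : ℕ) : 0 ≤ blkST_S F l z i := by
  unfold blkST_S
  apply sum_nonneg
  intro A _
  split_ifs
  · exact pow_nonneg hl.le _
  · exact le_rfl

theorem blkST_S_le (F : Finset ℕ) {l : ℝ} (hl : 0 < l) (z i : ℕ) :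
    blkST_S F l z i ≤ l ^ z * (1 + l) ^ F.card := by
  unfold blkST_S
  rw [← blkST_tot, mul_sum]
  apply sum_le_sum
  intro A _
  split_ifs with h
  · rw [← h, pow_add]
  · positivity

theorem blkST_S_lt (F : Finset ℕ) (l : ℝ) {z i : ℕ} (h : i < z) : blkST_S F l z i = 0 := by
  unfold blkST_S
  apply sum_eq_zero
  intro A _
  rw [if_neg (by omega)]

theorem blkST_S_eq (F : Finset ℕ) (l : ℝ) (z k : ℕ) :
    blkST_S F l z (z + k) = l ^ z * ((F.card.choose k : ℝ) * l ^ k) := by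
  unfold blkST_S
  rw [← sum_filter]
  have h : F.powerset.filter (fun A => z + A.card = z + k) = F.powersetCard k := by
    ext A
    rw [mem_filter, mem_powerset, mem_powersetCard]
    constructor
    · rintro ⟨h1, h2⟩
      exact ⟨h1, by omega⟩
    · rintro ⟨h1, h2⟩
      exact ⟨h1, by omega⟩
  rw [h, sum_const, card_powersetCard, nsmul_eq_mul, pow_add]
  ring

theorem blkST_tail (F : Finset ℕ) {l η : ℝ} (hl : 0 < l) (hη0 : 0 < η) (hη1 : η ≤ 1) {k : ℕ}
    (hk : η * F.card < |(k : ℝ) - l / (1 + l) * F.card|) :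
    (F.card.choose k : ℝ) * l ^ k ≤ 2 * Real.exp (-(η ^ 2 / 4) * F.card) * (1 + l) ^ F.card := by
  refine le_trans ?_ (binom_tail F l η hl hη0 hη1)
  have h1 : (F.card.choose k : ℝ) * l ^ k = ∑ A ∈ F.powersetCard k, l ^ A.card := by
    rw [sum_congr rfl (fun A hA => by rw [(mem_powersetCard.1 hA).2] :
      ∀ A ∈ F.powersetCard k, l ^ A.card = l ^ k), sum_const, card_powersetCard, nsmul_eq_mul]
  rw [h1]
  apply sum_le_sum_of_subset_of_nonneg
  · intro A hA
    rw [mem_powersetCard] at hA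
    rw [mem_filter, mem_powerset]
    refine ⟨hA.1, ?_⟩
    rw [hA.2]
    exact hk
  · intro A _ _
    exact pow_nonneg hl.le _

theorem blkST_ratio (M k : ℕ) (l : ℝ) :
    ((M.choose (k + 1) : ℝ) * l ^ (k + 1)) * ((k : ℝ) + 1) =
      ((M.choose k : ℝ) * l ^ k) * (l * ((M : ℝ) - k)) := by
  by_cases h : k ≤ M
  · have h1 := Nat.choose_succ_right_eq M k
    have h2 : (M.choose (k + 1) : ℝ) * ((k : ℝ) + 1) = (M.choose k : ℝ) * ((M : ℝ) - k) := by
      rw [← Nat.cast_sub h]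
      exact_mod_cast h1
    rw [pow_succ]
    linear_combination l ^ k * l * h2
  · have h1 : M.choose k = 0 := Nat.choose_eq_zero_of_lt (by omega)
    have h2 : M.choose (k + 1) = 0 := Nat.choose_eq_zero_of_lt (by omega)
    rw [h1, h2]
    simp

/-- the ratio estimates for one group, for large `M` -/
theorem blkST_up {M k : ℕ} {l q η η' : ℝ} (hl : 0 < l) (hq : q * (1 + l) = l) (hη : 0 < η)
    (hη' : 0 < η') (hM : 0 < (M : ℝ))
    (h : l * η' + l / M + (1 + η) * η' ≤ η * q)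
    (hk : |((k : ℝ) + 1) - q * M| ≤ η' * M) :
    (M.choose (k + 1) : ℝ) * l ^ (k + 1) ≤ (1 + η) * ((M.choose k : ℝ) * l ^ k) := by
  have hk1 : (0 : ℝ) < (k : ℝ) + 1 := by positivity
  have hr := blkST_ratio M k l
  have h0 : (0 : ℝ) ≤ (M.choose k : ℝ) * l ^ k := by positivity
  rw [abs_le] at hk
  have h2 : l * ((M : ℝ) - k) ≤ (1 + η) * ((k : ℝ) + 1) := by
    have h3 : (l * η' + l / M + (1 + η) * η') * M ≤ η * q * M :=
      mul_le_mul_of_nonneg_right h hM.le
    have h4 : l / M * M = l := div_mul_cancel₀ _ hM.ne'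
    have h5 : (q - η') * M ≤ (k : ℝ) + 1 := by linarith [hk.1]
    have h6 : (1 + η) * ((q - η') * M) ≤ (1 + η) * ((k : ℝ) + 1) :=
      mul_le_mul_of_nonneg_left h5 (by linarith)
    have h7 : l * ((M : ℝ) - k) ≤ l * (M * (1 - q + η') + 1) := by
      apply mul_le_mul_of_nonneg_left _ hl.le
      linarith [hk.1]
    have h8 : l * (1 - q) = q := by linarith
    have h9 : l * (M * (1 - q + η') + 1) = q * M + l * η' * M + l := by
      linear_combination (M : ℝ) * h8
    nlinarith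
  have h3 : ((M.choose (k + 1) : ℝ) * l ^ (k + 1)) * ((k : ℝ) + 1) ≤
      ((1 + η) * ((M.choose k : ℝ) * l ^ k)) * ((k : ℝ) + 1) := by
    rw [hr]
    calc ((M.choose k : ℝ) * l ^ k) * (l * ((M : ℝ) - k))
        ≤ ((M.choose k : ℝ) * l ^ k) * ((1 + η) * ((k : ℝ) + 1)) :=
          mul_le_mul_of_nonneg_left h2 h0
      _ = ((1 + η) * ((M.choose k : ℝ) * l ^ k)) * ((k : ℝ) + 1) := by ring
  exact le_of_mul_le_mul_right h3 hk1

theorem blkST_down {M k : ℕ} {l q η η' : ℝ} (hl : 0 < l) (hq : q * (1 + l) = l) (hη : 0 < η)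
    (hη1 : η < 1) (hη' : 0 < η') (hM : 0 < (M : ℝ))
    (h : η' + 1 / M + l * η' ≤ η * q)
    (hk : |(k : ℝ) - q * M| ≤ η' * M) :
    (1 - η) * ((M.choose k : ℝ) * l ^ k) ≤ (M.choose (k + 1) : ℝ) * l ^ (k + 1) := by
  have hk1 : (0 : ℝ) < (k : ℝ) + 1 := by positivity
  have hr := blkST_ratio M k l
  have h0 : (0 : ℝ) ≤ (M.choose k : ℝ) * l ^ k := by positivity
  rw [abs_le] at hk
  have h2 : (1 - η) * ((k : ℝ) + 1) ≤ l * ((M : ℝ) - k) := by
    have h3 : (η' + 1 / M + l * η') * M ≤ η * q * M :=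
      mul_le_mul_of_nonneg_right h hM.le
    have h4 : 1 / (M : ℝ) * M = 1 := div_mul_cancel₀ _ hM.ne'
    have h5 : (k : ℝ) + 1 ≤ (q + η') * M + 1 := by linarith [hk.2]
    have h6 : (1 - η) * ((k : ℝ) + 1) ≤ (1 - η) * ((q + η') * M + 1) :=
      mul_le_mul_of_nonneg_left h5 (by linarith)
    have h7 : l * (M * (1 - q - η')) ≤ l * ((M : ℝ) - k) := by
      apply mul_le_mul_of_nonneg_left _ hl.le
      linarith [hk.2]
    have h8 : l * (1 - q) = q := by linarith
    have h9 : l * (M * (1 - q - η')) = q * M - l * η' * M := by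
      linear_combination (M : ℝ) * h8
    have h10 : 0 ≤ η * (η' * M + 1) := by positivity
    nlinarith
  have h3 : ((1 - η) * ((M.choose k : ℝ) * l ^ k)) * ((k : ℝ) + 1) ≤
      ((M.choose (k + 1) : ℝ) * l ^ (k + 1)) * ((k : ℝ) + 1) := by
    rw [hr]
    calc ((1 - η) * ((M.choose k : ℝ) * l ^ k)) * ((k : ℝ) + 1)
        = ((M.choose k : ℝ) * l ^ k) * ((1 - η) * ((k : ℝ) + 1)) := by ring
      _ ≤ ((M.choose k : ℝ) * l ^ k) * (l * ((M : ℝ) - k)) :=
          mul_le_mul_of_nonneg_left h2 h0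
  exact le_of_mul_le_mul_right h3 hk1

/-- the step estimate for one group -/
theorem blkST_group (l1 l2 η : ℝ) (h1 : 0 < l1) (h12 : l1 ≤ l2) (hη : 0 < η) (hη1 : η < 1) :
    ∃ δ : ℝ, 0 < δ ∧ ∃ K₀ : ℝ, 0 < K₀ ∧ ∀ l ∈ Set.Icc l1 l2, ∀ F : Finset ℕ, ∀ z i : ℕ,
      blkST_S F l z (i + 1) ≤ (1 + η) * blkST_S F l z i +
          l ^ z * (K₀ * Real.exp (-δ) ^ F.card * (1 + l) ^ F.card) ∧
        (1 - η) * blkST_S F l z i ≤ blkST_S F l z (i + 1) +
          l ^ z * (K₀ * Real.exp (-δ) ^ F.card * (1 + l) ^ F.card) := by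
  have hl2 : 0 < l2 := lt_of_lt_of_le h1 h12
  set q₀ : ℝ := l1 / (1 + l1) with hq₀
  have hq₀p : 0 < q₀ := by positivity
  have hq₀1 : q₀ < 1 := by rw [hq₀, div_lt_one (by linarith)]; linarith
  set η' : ℝ := η * q₀ / (3 * (l2 + 2)) with hη'
  have hη'p : 0 < η' := by positivity
  have hη'e : η' * (3 * (l2 + 2)) = η * q₀ := div_mul_cancel₀ _ (by positivity)
  have hηq : η * q₀ < q₀ := by nlinarith
  have hη'q : η' < q₀ := by nlinarith
  have hη'1 : η' ≤ 1 := by linarith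
  obtain ⟨M₀, hM₀⟩ := exists_nat_gt (3 * (l2 + 1) / (η * q₀))
  have hM₀' : 3 * (l2 + 1) < η * q₀ * M₀ := by
    rw [div_lt_iff₀ (by positivity)] at hM₀
    linarith
  set δ : ℝ := η' ^ 2 / 4 with hδ
  have hδp : 0 < δ := by positivity
  refine ⟨δ, hδp, max 2 (Real.exp (δ * M₀)), by positivity, ?_⟩
  set K₀ : ℝ := max 2 (Real.exp (δ * M₀)) with hK₀
  have hK2 : 2 ≤ K₀ := le_max_left _ _
  have hKe : Real.exp (δ * M₀) ≤ K₀ := le_max_right _ _
  intro l hl F z i
  have hl0 : 0 < l := lt_of_lt_of_le h1 hl.1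
  set M := F.card with hMdef
  set E : ℝ := K₀ * Real.exp (-δ) ^ M * (1 + l) ^ M with hE
  have hE0 : 0 ≤ E := by positivity
  have hlz : 0 < l ^ z := by positivity
  by_cases hM : M < M₀
  · -- small groups
    have h2 : (1 : ℝ) ≤ K₀ * Real.exp (-δ) ^ M := by
      rw [← Real.exp_nat_mul]
      calc (1 : ℝ) = Real.exp 0 := Real.exp_zero.symm
        _ ≤ Real.exp (δ * M₀ + M * -δ) := by
            apply Real.exp_le_exp.2
            have : (M : ℝ) ≤ M₀ := by exact_mod_cast hM.le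
            nlinarith
        _ = Real.exp (δ * M₀) * Real.exp (M * -δ) := Real.exp_add _ _
        _ ≤ K₀ * Real.exp (M * -δ) :=
            mul_le_mul_of_nonneg_right hKe (Real.exp_pos _).le
    have h3 : ∀ j, blkST_S F l z j ≤ l ^ z * E := by
      intro j
      refine (blkST_S_le F hl0 z j).trans ?_
      apply mul_le_mul_of_nonneg_left _ hlz.le
      rw [hE]
      exact le_mul_of_one_le_left (by positivity) h2
    constructor
    · have := blkST_S_nonneg F hl0 z i
      have h4 := h3 (i + 1)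
      nlinarith
    · have := blkST_S_nonneg F hl0 z (i + 1)
      have := blkST_S_nonneg F hl0 z i
      have h4 := h3 i
      nlinarith
  · -- large groups
    push Not at hM
    have hMM : (M₀ : ℝ) ≤ M := by exact_mod_cast hM
    have hMp : (0 : ℝ) < M := by
      by_contra hcon
      have : (M : ℝ) = 0 := le_antisymm (not_lt.1 hcon) (Nat.cast_nonneg _)
      have : (M₀ : ℝ) ≤ 0 := by linarith
      nlinarith [mul_pos hη hq₀p]
    set q : ℝ := l / (1 + l) with hq
    have hqe : q * (1 + l) = l := div_mul_cancel₀ _ (by positivity)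
    have hq₀q : q₀ ≤ q := by
      rw [hq₀, hq, div_le_div_iff₀ (by linarith) (by linarith)]
      nlinarith [hl.1]
    have hbig : 3 * (l2 + 1) < η * q * M := by
      calc 3 * (l2 + 1) < η * q₀ * M₀ := hM₀'
        _ ≤ η * q * M := by
            apply mul_le_mul (mul_le_mul_of_nonneg_left hq₀q hη.le) hMM (Nat.cast_nonneg _)
            positivity
    have hη'3 : η' * (3 * (l2 + 2)) ≤ η * q := by
      rw [hη'e]
      exact mul_le_mul_of_nonneg_left hq₀q hη.le
    have hlM : l / M ≤ η * q / 3 := by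
      rw [div_le_iff₀ hMp]
      nlinarith [hl.2]
    have h1M : 1 / (M : ℝ) ≤ η * q / 3 := by
      rw [div_le_iff₀ hMp]
      nlinarith [hl.2]
    have hup : l * η' + l / M + (1 + η) * η' ≤ η * q := by
      have h2 : l * η' ≤ l2 * η' := mul_le_mul_of_nonneg_right hl.2 hη'p.le
      have h3 : (1 + η) * η' ≤ 2 * η' := mul_le_mul_of_nonneg_right (by linarith) hη'p.le
      have h4 : 3 * (l2 * η') + 6 * η' ≤ η * q := by linarith
      have h5 : 0 < η * q := by linarith [mul_pos hl2 hη'p]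
      linarith
    have hdn : η' + 1 / M + l * η' ≤ η * q := by
      have h2 : l * η' ≤ l2 * η' := mul_le_mul_of_nonneg_right hl.2 hη'p.le
      have h4 : 3 * (l2 * η') + 6 * η' ≤ η * q := by linarith
      have h5 : 0 < η * q := by linarith [mul_pos hl2 hη'p]
      linarith
    have htail : ∀ k : ℕ, η' * M < |(k : ℝ) - q * M| → (M.choose k : ℝ) * l ^ k ≤ E := by
      intro k hk
      refine (blkST_tail F hl0 hη'p hη'1 hk).trans ?_
      rw [hE, ← Real.exp_nat_mul]
      apply mul_le_mul_of_nonneg_right _ (by positivity)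
      apply mul_le_mul hK2 _ (Real.exp_pos _).le (by linarith)
      apply le_of_eq
      congr 1
      rw [hδ]
      ring
    rcases lt_trichotomy z (i + 1) with hz | hz | hz
    · obtain ⟨k, rfl⟩ := Nat.exists_eq_add_of_le (Nat.lt_succ_iff.1 hz)
      have e1 : blkST_S F l z (z + k + 1) = l ^ z * ((M.choose (k + 1) : ℝ) * l ^ (k + 1)) := by
        rw [add_assoc]; exact blkST_S_eq F l z (k + 1)
      rw [e1, blkST_S_eq F l z k]
      have hb0 : (0 : ℝ) ≤ (M.choose k : ℝ) * l ^ k := by positivity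
      have hb1 : (0 : ℝ) ≤ (M.choose (k + 1) : ℝ) * l ^ (k + 1) := by positivity
      constructor
      · have h2 : (M.choose (k + 1) : ℝ) * l ^ (k + 1) ≤
            (1 + η) * ((M.choose k : ℝ) * l ^ k) + E := by
          by_cases hk : η' * M < |((k + 1 : ℕ) : ℝ) - q * M|
          · have := htail (k + 1) hk
            nlinarith
          · push Not at hk
            have := blkST_up (M := M) (k := k) hl0 hqe hη hη'p hMp hup (by push_cast at hk; exact hk)
            linarith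
        calc l ^ z * ((M.choose (k + 1) : ℝ) * l ^ (k + 1))
            ≤ l ^ z * ((1 + η) * ((M.choose k : ℝ) * l ^ k) + E) :=
              mul_le_mul_of_nonneg_left h2 hlz.le
          _ = (1 + η) * (l ^ z * ((M.choose k : ℝ) * l ^ k)) + l ^ z * E := by ring
      · have h2 : (1 - η) * ((M.choose k : ℝ) * l ^ k) ≤
            (M.choose (k + 1) : ℝ) * l ^ (k + 1) + E := by
          by_cases hk : η' * M < |(k : ℝ) - q * M|
          · have := htail k hk
            nlinarith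
          · push Not at hk
            have := blkST_down (M := M) (k := k) hl0 hqe hη hη1 hη'p hMp hdn hk
            linarith
        calc (1 - η) * (l ^ z * ((M.choose k : ℝ) * l ^ k))
            = l ^ z * ((1 - η) * ((M.choose k : ℝ) * l ^ k)) := by ring
          _ ≤ l ^ z * ((M.choose (k + 1) : ℝ) * l ^ (k + 1) + E) :=
              mul_le_mul_of_nonneg_left h2 hlz.le
          _ = l ^ z * ((M.choose (k + 1) : ℝ) * l ^ (k + 1)) + l ^ z * E := by ring
    · subst hz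
      rw [blkST_S_lt F l (Nat.lt_succ_self i)]
      have e1 : blkST_S F l (i + 1) (i + 1) = l ^ (i + 1) * ((M.choose 0 : ℝ) * l ^ 0) :=
        blkST_S_eq F l (i + 1) 0
      rw [e1]
      have h2 : (M.choose 0 : ℝ) * l ^ 0 ≤ E := by
        apply htail 0
        rw [Nat.cast_zero, zero_sub, abs_neg, abs_of_pos (by nlinarith)]
        exact mul_lt_mul_of_pos_right (lt_of_lt_of_le hη'q hq₀q) hMp
      have h3 : (0 : ℝ) ≤ (M.choose 0 : ℝ) * l ^ 0 := by positivity
      constructor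
      · have := mul_le_mul_of_nonneg_left h2 hlz.le
        linarith
      · have := mul_nonneg hlz.le h3
        have := mul_nonneg hlz.le hE0
        linarith
    · rw [blkST_S_lt F l (by omega : i < z), blkST_S_lt F l hz]
      have := mul_nonneg hlz.le hE0
      constructor <;> linarith

theorem blkST_cnt {n : ℕ} {p : ℕ → ℕ} (hp : TreeFn n p) {C : Finset ℕ} {R : ℕ → Finset ℕ}
    {b : ℕ → Bool} (hS : Switch n p C R b) (l : ℝ) (i : ℕ) :
    (cnt n p i : ℝ) * l ^ i = ∑ U₀ ∈ (Ico 1 n \ C).powerset,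
      ∑ B ∈ (C \ Fr n p C U₀).powerset, blkST_S (Fr n p C U₀) l (Zs n p (U₀ ∪ B)) i := by
  have h1 : (cnt n p i : ℝ) * l ^ i =
      ∑ U ∈ (Ico 1 n).powerset, if Zs n p U = i then l ^ i else 0 := by
    rw [← sum_filter, sum_const, nsmul_eq_mul, cnt]
  rw [h1, sum_switch hS]
  apply sum_congr rfl
  intro U₀ hU₀
  apply sum_congr rfl
  intro B hB
  unfold blkST_S
  apply sum_congr rfl
  intro A hA
  rw [Zs_switch hp hS (mem_powerset.1 hU₀) (mem_powerset.1 hA) (mem_powerset.1 hB)]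

theorem blkST_err {n : ℕ} {p : ℕ → ℕ} (hp : TreeFn n p) {C : Finset ℕ} {R : ℕ → Finset ℕ}
    {b : ℕ → Bool} (hS : Switch n p C R b) (l s : ℝ) :
    ∑ U ∈ (Ico 1 n).powerset, l ^ Zs n p U * s ^ (Fr n p C U).card =
      ∑ U₀ ∈ (Ico 1 n \ C).powerset, ∑ B ∈ (C \ Fr n p C U₀).powerset,
        l ^ Zs n p (U₀ ∪ B) * (s ^ (Fr n p C U₀).card * (1 + l) ^ (Fr n p C U₀).card) := by
  rw [sum_switch hS]
  apply sum_congr rfl
  intro U₀ hU₀
  apply sum_congr rfl
  intro B hB
  rw [← blkST_tot (Fr n p C U₀) l, mul_sum, mul_sum]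
  apply sum_congr rfl
  intro A hA
  have hA' := mem_powerset.1 hA
  have hB' := mem_powerset.1 hB
  rw [Zs_switch hp hS (mem_powerset.1 hU₀) hA' hB']
  have h2 : Fr n p C (U₀ ∪ B ∪ A) = Fr n p C U₀ := by
    rw [union_assoc]
    apply Fr_union hS
    apply union_subset
    · exact hB'.trans sdiff_subset
    · exact hA'.trans (filter_subset _ _)
  rw [h2, pow_add]
  ring

theorem blkST_step1 (l1 l2 η : ℝ) (h1 : 0 < l1) (h12 : l1 ≤ l2) (hη : 0 < η) (hη1 : η < 1) :
    ∃ c : ℝ, 0 < c ∧ ∃ n₀ : ℕ, ∀ n ≥ n₀, ∀ p : ℕ → ℕ, TreeFn n p → ∀ l ∈ Set.Icc l1 l2, ∀ i : ℕ,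
      (cnt n p (i + 1) : ℝ) * l ^ (i + 1) ≤
          (1 + η) * ((cnt n p i : ℝ) * l ^ i) + Real.exp (-c * n) * PR n p l ∧
        (1 - η) * ((cnt n p i : ℝ) * l ^ i) ≤
          (cnt n p (i + 1) : ℝ) * l ^ (i + 1) + Real.exp (-c * n) * PR n p l := by
  obtain ⟨δ, hδ, K₀, hK₀, hg⟩ := blkST_group l1 l2 η h1 h12 hη hη1
  have hl2 : 0 < l2 := lt_of_lt_of_le h1 h12
  set a : ℝ := 1 - Real.exp (-δ) with ha
  have hexp1 : Real.exp (-δ) < 1 := by
    rw [Real.exp_lt_one_iff]; linarith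
  have hexp0 : 0 < Real.exp (-δ) := Real.exp_pos _
  have ha0 : 0 < a := by linarith
  have ha1 : a ≤ 1 := by linarith
  set κ : ℝ := 1 / (1 + max l2 l1⁻¹) with hκ
  have hmax0 : 0 < max l2 l1⁻¹ := lt_max_of_lt_left hl2
  have hκ0 : 0 < κ := by positivity
  have hκ1 : κ ≤ 1 := by
    rw [hκ, div_le_one (by linarith)]; linarith
  set d : ℝ := a * κ ^ 2 with hd
  have hd0 : 0 < d := by positivity
  obtain ⟨n₀, hn₀⟩ := exists_nat_gt ((Real.log K₀ + 7 * d / 12) / (d / 24))
  refine ⟨d / 24, by positivity, n₀, ?_⟩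
  intro n hn p hp l hl i
  have hl0 : 0 < l := lt_of_lt_of_le h1 hl.1
  obtain ⟨C, R, b, hS, hC⟩ := exists_switch hp
  have herr : K₀ * ∑ U ∈ (Ico 1 n).powerset, l ^ Zs n p U * Real.exp (-δ) ^ (Fr n p C U).card ≤
      Real.exp (-(d / 24) * n) * PR n p l := by
    have h2 := fe_bound hp hS hl0 ha0.le ha1
    have h3 : (1 : ℝ) - a = Real.exp (-δ) := by rw [ha]; ring
    rw [h3] at h2
    have hPR : 0 ≤ PR n p l := by
      unfold PR
      exact sum_nonneg (fun _ _ => pow_nonneg hl0.le _)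
    have hκl : κ ≤ 1 / (1 + max l l⁻¹) := by
      rw [hκ]
      apply one_div_le_one_div_of_le
      · have : 0 < max l l⁻¹ := lt_max_of_lt_left hl0
        linarith
      · have : max l l⁻¹ ≤ max l2 l1⁻¹ :=
          max_le_max hl.2 (inv_anti₀ h1 hl.1)
        linarith
    have hκ2 : κ ^ 2 ≤ (1 / (1 + max l l⁻¹)) ^ 2 := pow_le_pow_left₀ hκ0.le hκl 2
    have hk1 : (1 / (1 + max l l⁻¹)) ^ 2 ≤ 1 := by
      apply pow_le_one₀ (by positivity)
      have : 0 < max l l⁻¹ := lt_max_of_lt_left hl0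
      rw [div_le_one (by linarith)]; linarith
    have h4 : (1 - a * (1 / (1 + max l l⁻¹)) ^ 2) ^ C.card ≤ Real.exp (-d * C.card) := by
      have h5 : 0 ≤ 1 - a * (1 / (1 + max l l⁻¹)) ^ 2 := by nlinarith
      have h6 : 1 - a * (1 / (1 + max l l⁻¹)) ^ 2 ≤ Real.exp (-d) := by
        have := Real.add_one_le_exp (-d)
        have h7 : d ≤ a * (1 / (1 + max l l⁻¹)) ^ 2 := mul_le_mul_of_nonneg_left hκ2 ha0.le
        linarith
      calc (1 - a * (1 / (1 + max l l⁻¹)) ^ 2) ^ C.card ≤ Real.exp (-d) ^ C.card :=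
            pow_le_pow_left₀ h5 h6 _
        _ = Real.exp (-d * C.card) := by
            rw [← Real.exp_nat_mul]; congr 1; ring
    have h5 : K₀ * Real.exp (-d * C.card) ≤ Real.exp (-(d / 24) * n) := by
      rw [← Real.exp_log hK₀, ← Real.exp_add]
      apply Real.exp_le_exp.2
      have hCr : (n : ℝ) ≤ 12 * C.card + 7 := by exact_mod_cast hC
      have hnr : (n₀ : ℝ) ≤ n := by exact_mod_cast hn
      have h6 : (Real.log K₀ + 7 * d / 12) < n * (d / 24) := by
        rw [div_lt_iff₀ (by positivity)] at hn₀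
        have : (n₀ : ℝ) * (d / 24) ≤ n * (d / 24) :=
          mul_le_mul_of_nonneg_right hnr (by positivity)
        linarith
      have h7 : d * ((n : ℝ) - 7) ≤ d * (12 * C.card) :=
        mul_le_mul_of_nonneg_left (by linarith) hd0.le
      nlinarith
    calc K₀ * ∑ U ∈ (Ico 1 n).powerset, l ^ Zs n p U * Real.exp (-δ) ^ (Fr n p C U).card
        ≤ K₀ * ((1 - a * (1 / (1 + max l l⁻¹)) ^ 2) ^ C.card * PR n p l) :=
          mul_le_mul_of_nonneg_left h2 hK₀.le
      _ ≤ K₀ * (Real.exp (-d * C.card) * PR n p l) := by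
          apply mul_le_mul_of_nonneg_left _ hK₀.le
          exact mul_le_mul_of_nonneg_right h4 hPR
      _ = (K₀ * Real.exp (-d * C.card)) * PR n p l := by ring
      _ ≤ Real.exp (-(d / 24) * n) * PR n p l := mul_le_mul_of_nonneg_right h5 hPR
  rw [blkST_err hp hS] at herr
  have herr' : ∑ U₀ ∈ (Ico 1 n \ C).powerset, ∑ B ∈ (C \ Fr n p C U₀).powerset,
        l ^ Zs n p (U₀ ∪ B) * (K₀ * Real.exp (-δ) ^ (Fr n p C U₀).card *
          (1 + l) ^ (Fr n p C U₀).card) ≤ Real.exp (-(d / 24) * n) * PR n p l := by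
    refine le_trans (le_of_eq ?_) herr
    rw [mul_sum]
    apply sum_congr rfl
    intro U₀ _
    rw [mul_sum]
    apply sum_congr rfl
    intro B _
    ring
  rw [blkST_cnt hp hS l i, blkST_cnt hp hS l (i + 1)]
  constructor
  · refine le_trans ?_ (add_le_add_right herr' _)
    rw [mul_sum, ← sum_add_distrib]
    apply sum_le_sum
    intro U₀ _
    rw [mul_sum, ← sum_add_distrib]
    apply sum_le_sum
    intro B _
    exact (hg l hl _ _ i).1
  · refine le_trans ?_ (add_le_add_right herr' _)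
    rw [mul_sum, ← sum_add_distrib]
    apply sum_le_sum
    intro U₀ _
    rw [mul_sum, ← sum_add_distrib]
    apply sum_le_sum
    intro B _
    exact (hg l hl _ _ i).2

theorem step (l1 l2 η : ℝ) (h1 : 0 < l1) (h12 : l1 ≤ l2) (hη : 0 < η) :
    ∃ c : ℝ, 0 < c ∧ ∃ n₀ : ℕ, ∀ n ≥ n₀, ∀ p : ℕ → ℕ, TreeFn n p → ∀ l ∈ Set.Icc l1 l2, ∀ i : ℕ,
      (cnt n p (i + 1) : ℝ) * l ^ (i + 1) ≤
          (1 + η) * ((cnt n p i : ℝ) * l ^ i) + Real.exp (-c * n) * PR n p l ∧
        (1 - η) * ((cnt n p i : ℝ) * l ^ i) ≤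
          (cnt n p (i + 1) : ℝ) * l ^ (i + 1) + Real.exp (-c * n) * PR n p l := by
  obtain ⟨c, hc, n₀, h⟩ := blkST_step1 l1 l2 (min η (1 / 2)) h1 h12
    (lt_min hη (by norm_num)) (lt_of_le_of_lt (min_le_right _ _) (by norm_num))
  refine ⟨c, hc, n₀, ?_⟩
  intro n hn p hp l hl i
  have hl0 : 0 < l := lt_of_lt_of_le h1 hl.1
  obtain ⟨h2, h3⟩ := h n hn p hp l hl i
  have h4 : (0 : ℝ) ≤ (cnt n p i : ℝ) * l ^ i := by positivity
  have h5 : min η (1 / 2) ≤ η := min_le_left _ _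
  constructor
  · refine h2.trans ?_
    have := mul_le_mul_of_nonneg_right (add_le_add_right h5 1) h4
    linarith
  · refine le_trans ?_ h3
    apply mul_le_mul_of_nonneg_right _ h4
    linarith

-- END BLOCK

end Pool.Agent.Lib_helper19.Src
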