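import Pool.Agent.Lib_helper19.Src.Main
import Pool.Agent.Lib_helper19.SrcA.AC
import Pool.Agent.Lib_helper19.SrcA.ST

set_option autoImplicit false

namespace Pool.Agent.Lib_helper19.Src

open Finset



-- BEGIN BLOCK
/-! ### Block LO: local lower bound (uses AC and ST) -/

theorem lo_half_le_exp (ε : ℝ) (hε : 0 < ε) (n m : ℕ) (hm : (m : ℝ) ≤ ε * n) :
    Real.exp (-ε * n) ≤ (1 / 2 : ℝ) ^ m := by
  have h1 : (Real.exp (-1)) ≤ 1 / 2 := by
    have := Real.add_one_le_exp (1 : ℝ)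
    rw [Real.exp_neg, inv_eq_one_div]
    exact one_div_le_one_div_of_le (by norm_num) (by linarith)
  calc Real.exp (-ε * n) ≤ Real.exp (-(m : ℝ)) := by
        apply Real.exp_le_exp.2; linarith
    _ = Real.exp (-1) ^ m := by
        rw [← Real.exp_nat_mul]; congr 1; ring
    _ ≤ (1 / 2 : ℝ) ^ m := pow_le_pow_left₀ (Real.exp_pos _).le h1 m

theorem lo_up (u : ℕ → ℝ) (δ s : ℝ) (hstep : ∀ i, 3 / 4 * u i ≤ u (i + 1) + δ)
    (M : ℕ) (hs : 4 * δ ≤ (1 / 2) ^ M * s) (k : ℕ) (hk : s ≤ u k) (hs0 : 0 ≤ s) :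
    ∀ m ≤ M, (1 / 2) ^ m * s ≤ u (k + m) := by
  intro m
  induction m with
  | zero => intro _; simpa using hk
  | succ m ih =>
    intro hm
    have h1 := ih (by omega)
    have h2 := hstep (k + m)
    have h3 : (1 / 2 : ℝ) ^ M * s ≤ (1 / 2) ^ m * s :=
      mul_le_mul_of_nonneg_right (pow_le_pow_of_le_one (by norm_num) (by norm_num) (by omega)) hs0
    rw [pow_succ]
    have h4 : u (k + (m + 1)) = u (k + m + 1) := rfl
    rw [h4]
    linarith

theorem lo_down (u : ℕ → ℝ) (δ s : ℝ) (hstep : ∀ i, u (i + 1) ≤ 5 / 4 * u i + δ)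
    (M : ℕ) (hs : 4 * δ ≤ (1 / 2) ^ M * s) (k : ℕ) (hk : s ≤ u k) (hs0 : 0 ≤ s) :
    ∀ m ≤ M, m ≤ k → (1 / 2) ^ m * s ≤ u (k - m) := by
  intro m
  induction m with
  | zero => intro _ _; simpa using hk
  | succ m ih =>
    intro hm hmk
    have h1 := ih (by omega) (by omega)
    have h2 := hstep (k - (m + 1))
    rw [show k - (m + 1) + 1 = k - m by omega] at h2
    have h3 : (1 / 2 : ℝ) ^ M * s ≤ (1 / 2) ^ m * s :=
      mul_le_mul_of_nonneg_right (pow_le_pow_of_le_one (by norm_num) (by norm_num) (by omega)) hs0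
    have h5 : (0 : ℝ) ≤ (1 / 2) ^ m * s := by positivity
    rw [pow_succ]
    linarith

theorem loc (ε : ℝ) (hε : 0 < ε) : ∃ n₀ : ℕ, ∀ n ≥ n₀, ∀ p : ℕ → ℕ, TreeFn n p → ∀ a : ℕ,
    n ≤ 2 * a → (∃ U ⊆ Ico 1 n, Zs n p U = a) → ∀ j : ℕ, n ≤ 15 * j → 7 * j ≤ 6 * a + 7 →
      ∃ l ∈ Set.Icc ((1 / 2 : ℝ) ^ 16) (2 ^ 28),
        Real.exp (-ε * n) * PR n p l ≤ (cnt n p j : ℝ) * l ^ j := by
  obtain ⟨c, hc, n₁, hst⟩ := step ((1 / 2 : ℝ) ^ 16) (2 ^ 28) (1 / 4) (by positivity)
    (by norm_num) (by norm_num)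
  set e : ℝ := min (ε / 2) (c / 4) with he
  have he0 : 0 < e := lt_min (by positivity) (by positivity)
  have he1 : e ≤ ε / 2 := min_le_left _ _
  have he2 : e ≤ c / 4 := min_le_right _ _
  obtain ⟨n₂, hap⟩ := approx e he0
  refine ⟨max (max n₁ n₂) (⌈4 / c⌉₊ + 1), ?_⟩
  intro n hn p hp a hna hU j hj1 hj2
  have hn1 : n₁ ≤ n := by omega
  have hn2 : n₂ ≤ n := by omega
  have hn3 : ⌈4 / c⌉₊ ≤ n := by omega
  have hcn : 4 ≤ c * n := by
    have h1 : 4 / c ≤ (n : ℝ) := (Nat.le_ceil _).trans (by exact_mod_cast hn3)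
    rw [div_le_iff₀ hc] at h1
    linarith
  obtain ⟨l, hl, k, hkj, hk⟩ := hap n hn2 p hp a hna hU j hj1 hj2
  refine ⟨l, hl, ?_⟩
  have hl0 : 0 < l := lt_of_lt_of_le (by positivity) hl.1
  have hPR : 0 < PR n p l := PR_pos hl0
  set P := PR n p l with hP
  set u : ℕ → ℝ := fun i => (cnt n p i : ℝ) * l ^ i with hu
  set δ : ℝ := Real.exp (-c * n) * P with hδ
  set s : ℝ := Real.exp (-e * n) * P with hs
  have hs0 : 0 < s := by positivity
  have hup : ∀ i, 3 / 4 * u i ≤ u (i + 1) + δ := by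
    intro i
    have := (hst n hn1 p hp l hl i).2
    have h : (1 - 1 / 4 : ℝ) = 3 / 4 := by norm_num
    rw [h] at this
    exact this
  have hdown : ∀ i, u (i + 1) ≤ 5 / 4 * u i + δ := by
    intro i
    have := (hst n hn1 p hp l hl i).1
    have h : (1 + 1 / 4 : ℝ) = 5 / 4 := by norm_num
    rw [h] at this
    exact this
  -- the number of steps
  have key : ∀ m : ℕ, (m : ℝ) ≤ e * n → 4 * δ ≤ (1 / 2) ^ m * s ∧
      Real.exp (-ε * n) * P ≤ (1 / 2) ^ m * s := by
    intro m hm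
    have h1 := lo_half_le_exp e he0 n m hm
    have h2 : Real.exp (-e * n) * Real.exp (-e * n) * P ≤ (1 / 2) ^ m * s := by
      rw [hs, ← mul_assoc]
      exact mul_le_mul_of_nonneg_right (mul_le_mul_of_nonneg_right h1 (Real.exp_pos _).le) hPR.le
    have h3 : Real.exp (-e * n) * Real.exp (-e * n) = Real.exp (-(2 * e) * n) := by
      rw [← Real.exp_add]; congr 1; ring
    rw [h3] at h2
    have hnn : (0 : ℝ) ≤ n := Nat.cast_nonneg n
    constructor
    · refine le_trans ?_ h2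
      rw [hδ, ← mul_assoc]
      apply mul_le_mul_of_nonneg_right _ hPR.le
      have h4 : Real.exp (-(c / 2) * n) ≤ Real.exp (-(2 * e) * n) := by
        apply Real.exp_le_exp.2; nlinarith
      have h5 : Real.exp (-c * n) = Real.exp (-(c / 2) * n) * Real.exp (-(c / 2) * n) := by
        rw [← Real.exp_add]; congr 1; ring
      have h6 : 4 * Real.exp (-(c / 2) * n) ≤ 1 := by
        have h7 : Real.exp (-(c / 2) * n) ≤ Real.exp (-2) := by
          apply Real.exp_le_exp.2; linarith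
        have h8 : Real.exp (-2) ≤ 1 / 4 := by
          have h9 : (Real.exp (-1)) ≤ 1 / 2 := by
            have := Real.add_one_le_exp (1 : ℝ)
            rw [Real.exp_neg, inv_eq_one_div]
            exact one_div_le_one_div_of_le (by norm_num) (by linarith)
          have h10 : Real.exp (-2) = Real.exp (-1) * Real.exp (-1) := by
            rw [← Real.exp_add]; norm_num
          rw [h10]
          have h11 := Real.exp_pos (-1)
          nlinarith
        linarith
      have h12 := Real.exp_pos (-(c / 2) * n)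
      rw [h5]
      nlinarith
    · refine le_trans ?_ h2
      apply mul_le_mul_of_nonneg_right _ hPR.le
      apply Real.exp_le_exp.2
      nlinarith
  rcases le_total k j with hkj' | hkj'
  · have hm : ((j - k : ℕ) : ℝ) ≤ e * n := by
      rw [Nat.cast_sub hkj']
      have := (abs_le.1 hkj).1
      linarith
    obtain ⟨h1, h2⟩ := key _ hm
    have := lo_up u δ s hup (j - k) h1 k hk hs0.le (j - k) le_rfl
    rw [Nat.add_sub_cancel' hkj'] at this
    exact h2.trans this
  · have hm : ((k - j : ℕ) : ℝ) ≤ e * n := by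
      rw [Nat.cast_sub hkj']
      have := (abs_le.1 hkj).2
      linarith
    obtain ⟨h1, h2⟩ := key _ hm
    have := lo_down u δ s hdown (k - j) h1 k hk hs0.le (k - j) le_rfl (by omega)
    rw [show k - (k - j) = j by omega] at this
    exact h2.trans this
-- END BLOCK

end Pool.Agent.Lib_helper19.Src
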