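import Pool.Agent.Lib_helper19.Src.Main
import Pool.Agent.Lib_helper19.SrcA.BA

set_option autoImplicit false

/-! Block LT of MP_80a94d_pr (lower tail), by helper80. -/

namespace Pool.Agent.Lib_helper19.Src

open Finset

-- BEGIN BLOCK

/-- head of the edge `{e, p e}` in the orientation `U` -/
def blkLT_hd (p : ℕ → ℕ) (U : Finset ℕ) (e : ℕ) : ℕ := if e ∈ U then p e else e

/-- tail of the edge `{e, p e}` in the orientation `U` -/
def blkLT_tl (p : ℕ → ℕ) (U : Finset ℕ) (e : ℕ) : ℕ := if e ∈ U then e else p e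

/-- in-degree -/
def blkLT_ind (n : ℕ) (p : ℕ → ℕ) (U : Finset ℕ) (u : ℕ) : ℕ :=
  ((Ico 1 n).filter (fun e => blkLT_hd p U e = u)).card

/-- degree -/
def blkLT_deg (n : ℕ) (p : ℕ → ℕ) (u : ℕ) : ℕ :=
  ((Ico 1 n).filter (fun e => e = u ∨ p e = u)).card

/-- flipping an edge -/
def blkLT_fl (U : Finset ℕ) (e : ℕ) : Finset ℕ := symmDiff U {e}

theorem blkLT_mem_fl_self (U : Finset ℕ) (e : ℕ) : e ∈ blkLT_fl U e ↔ e ∉ U := by
  unfold blkLT_fl; simp [mem_symmDiff]

theorem blkLT_mem_fl_of_ne (U : Finset ℕ) {e f : ℕ} (h : f ≠ e) : f ∈ blkLT_fl U e ↔ f ∈ U := by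
  unfold blkLT_fl; simp [mem_symmDiff, h]

theorem blkLT_fl_fl (U : Finset ℕ) (e : ℕ) : blkLT_fl (blkLT_fl U e) e = U := by
  unfold blkLT_fl; rw [symmDiff_assoc, symmDiff_self]; simp

theorem blkLT_fl_sub {n : ℕ} {U : Finset ℕ} {e : ℕ} (hU : U ⊆ Ico 1 n) (he : e ∈ Ico 1 n) :
    blkLT_fl U e ⊆ Ico 1 n := by
  intro f hf
  by_cases h : f = e
  · rw [h]; exact he
  · exact hU ((blkLT_mem_fl_of_ne U h).1 hf)

theorem blkLT_hd_fl_self (p : ℕ → ℕ) (U : Finset ℕ) (e : ℕ) :
    blkLT_hd p (blkLT_fl U e) e = blkLT_tl p U e := by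
  unfold blkLT_hd blkLT_tl
  by_cases h : e ∈ U <;> simp [blkLT_mem_fl_self, h]

theorem blkLT_tl_fl_self (p : ℕ → ℕ) (U : Finset ℕ) (e : ℕ) :
    blkLT_tl p (blkLT_fl U e) e = blkLT_hd p U e := by
  unfold blkLT_hd blkLT_tl
  by_cases h : e ∈ U <;> simp [blkLT_mem_fl_self, h]

theorem blkLT_hd_fl_of_ne (p : ℕ → ℕ) (U : Finset ℕ) {e f : ℕ} (h : f ≠ e) :
    blkLT_hd p (blkLT_fl U e) f = blkLT_hd p U f := by
  unfold blkLT_hd
  by_cases h' : f ∈ U <;> simp [blkLT_mem_fl_of_ne U h, h']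

theorem blkLT_tl_fl_of_ne (p : ℕ → ℕ) (U : Finset ℕ) {e f : ℕ} (h : f ≠ e) :
    blkLT_tl p (blkLT_fl U e) f = blkLT_tl p U f := by
  unfold blkLT_tl
  by_cases h' : f ∈ U <;> simp [blkLT_mem_fl_of_ne U h, h']

theorem blkLT_hd_ne_tl {n : ℕ} {p : ℕ → ℕ} (hp : TreeFn n p) (U : Finset ℕ) {e : ℕ}
    (he : e ∈ Ico 1 n) : blkLT_hd p U e ≠ blkLT_tl p U e := by
  have := hp e he
  unfold blkLT_hd blkLT_tl
  split_ifs <;> omega

theorem blkLT_hd_lt {n : ℕ} {p : ℕ → ℕ} (hp : TreeFn n p) (U : Finset ℕ) {e : ℕ}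
    (he : e ∈ Ico 1 n) : blkLT_hd p U e < n := by
  have := hp e he
  have h2 := mem_Ico.1 he
  unfold blkLT_hd
  split_ifs <;> omega

theorem blkLT_tl_lt {n : ℕ} {p : ℕ → ℕ} (hp : TreeFn n p) (U : Finset ℕ) {e : ℕ}
    (he : e ∈ Ico 1 n) : blkLT_tl p U e < n := by
  have := hp e he
  have h2 := mem_Ico.1 he
  unfold blkLT_tl
  split_ifs <;> omega

theorem blkLT_src {n : ℕ} {p : ℕ → ℕ} (_hp : TreeFn n p) (U : Finset ℕ) {u : ℕ} (hu : u < n) :
    IsSrc n p U u ↔ blkLT_ind n p U u = 0 := by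
  unfold IsSrc blkLT_ind
  rw [card_eq_zero, filter_eq_empty_iff]
  constructor
  · rintro ⟨h1, h2⟩ e he h3
    unfold blkLT_hd at h3
    by_cases h : e ∈ U
    · rw [if_pos h] at h3
      exact h2 e he h3 h
    · rw [if_neg h] at h3
      subst h3
      rcases h1 with h1 | h1
      · have := mem_Ico.1 he; omega
      · exact h h1
  · intro h
    constructor
    · by_contra hcon
      push Not at hcon
      have he : u ∈ Ico 1 n := mem_Ico.2 ⟨by omega, hu⟩
      apply h he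
      unfold blkLT_hd
      rw [if_neg hcon.2]
    · intro w hw hpw hwU
      apply h hw
      unfold blkLT_hd
      rw [if_pos hwU, hpw]

theorem blkLT_Zs {n : ℕ} {p : ℕ → ℕ} (hp : TreeFn n p) (U : Finset ℕ) :
    Zs n p U = ((range n).filter (fun u => blkLT_ind n p U u = 0)).card := by
  unfold Zs
  congr 1
  apply filter_congr
  intro u hu
  exact blkLT_src hp U (mem_range.1 hu)

theorem blkLT_sum_ind {n : ℕ} {p : ℕ → ℕ} (hp : TreeFn n p) (U : Finset ℕ) :
    ∑ u ∈ range n, blkLT_ind n p U u = n - 1 := by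
  have h := card_eq_sum_card_fiberwise (s := Ico 1 n) (t := range n) (f := blkLT_hd p U)
    (fun e he => mem_coe.2 (mem_range.2 (blkLT_hd_lt hp U he)))
  rw [Nat.card_Ico] at h
  exact h.symm

/-- in-degrees after a flip -/
theorem blkLT_ind_fl {n : ℕ} {p : ℕ → ℕ} (_hp : TreeFn n p) (U : Finset ℕ) {e : ℕ}
    (he : e ∈ Ico 1 n) (u : ℕ) :
    blkLT_ind n p (blkLT_fl U e) u + (if u = blkLT_hd p U e then 1 else 0) =
      blkLT_ind n p U u + (if u = blkLT_tl p U e then 1 else 0) := by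
  unfold blkLT_ind
  rw [card_filter, card_filter, ← add_sum_erase _ _ he, ← add_sum_erase _ _ he]
  have h1 : ∑ x ∈ (Ico 1 n).erase e, (if blkLT_hd p (blkLT_fl U e) x = u then 1 else 0) =
      ∑ x ∈ (Ico 1 n).erase e, (if blkLT_hd p U x = u then 1 else 0) := by
    apply sum_congr rfl
    intro x hx
    rw [blkLT_hd_fl_of_ne p U (ne_of_mem_erase hx)]
  rw [h1, blkLT_hd_fl_self]
  simp only [eq_comm (a := u)]
  ring

theorem blkLT_ind_hd_pos {n : ℕ} {p : ℕ → ℕ} (U : Finset ℕ) {e : ℕ}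
    (he : e ∈ Ico 1 n) : 1 ≤ blkLT_ind n p U (blkLT_hd p U e) := by
  unfold blkLT_ind
  exact card_pos.2 ⟨e, mem_filter.2 ⟨he, rfl⟩⟩

/-- number of sources after a flip -/
theorem blkLT_Zs_fl {n : ℕ} {p : ℕ → ℕ} (hp : TreeFn n p) (U : Finset ℕ) {e : ℕ}
    (he : e ∈ Ico 1 n) :
    Zs n p (blkLT_fl U e) + (if blkLT_ind n p U (blkLT_tl p U e) = 0 then 1 else 0) =
      Zs n p U + (if blkLT_ind n p U (blkLT_hd p U e) = 1 then 1 else 0) := by
  have hne := blkLT_hd_ne_tl hp U he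
  have hh : blkLT_hd p U e ∈ range n := mem_range.2 (blkLT_hd_lt hp U he)
  have ht : blkLT_tl p U e ∈ (range n).erase (blkLT_hd p U e) :=
    mem_erase.2 ⟨hne.symm, mem_range.2 (blkLT_tl_lt hp U he)⟩
  rw [blkLT_Zs hp, blkLT_Zs hp, card_filter, card_filter, ← add_sum_erase _ _ hh,
    ← add_sum_erase _ _ hh, ← add_sum_erase _ _ ht, ← add_sum_erase _ _ ht]
  have h1 : ∑ x ∈ ((range n).erase (blkLT_hd p U e)).erase (blkLT_tl p U e),
      (if blkLT_ind n p (blkLT_fl U e) x = 0 then 1 else 0) =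
      ∑ x ∈ ((range n).erase (blkLT_hd p U e)).erase (blkLT_tl p U e),
      (if blkLT_ind n p U x = 0 then 1 else 0) := by
    apply sum_congr rfl
    intro x hx
    have hx1 : x ≠ blkLT_tl p U e := ne_of_mem_erase hx
    have hx2 : x ≠ blkLT_hd p U e := ne_of_mem_erase (mem_of_mem_erase hx)
    have := blkLT_ind_fl hp U he x
    rw [if_neg hx1, if_neg hx2] at this
    simp only [add_zero] at this
    rw [this]
  rw [h1]
  have h2 := blkLT_ind_fl hp U he (blkLT_hd p U e)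
  have h3 := blkLT_ind_fl hp U he (blkLT_tl p U e)
  rw [if_pos rfl, if_neg hne] at h2
  rw [if_neg hne.symm, if_pos rfl] at h3
  have h4 := blkLT_ind_hd_pos (n := n) (p := p) U he
  split_ifs <;> omega

/-- double counting of the edges whose flip increases the number of sources -/
theorem blkLT_bij {n : ℕ} {p : ℕ → ℕ} (j : ℕ) :
    ∑ U ∈ (Ico 1 n).powerset.filter (fun U => Zs n p U = j),
        ((Ico 1 n).filter (fun e => Zs n p (blkLT_fl U e) = j + 1)).card =
      ∑ U ∈ (Ico 1 n).powerset.filter (fun U => Zs n p U = j + 1),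
        ((Ico 1 n).filter (fun e => Zs n p (blkLT_fl U e) = j)).card := by
  rw [← card_sigma, ← card_sigma]
  refine card_nbij' (fun x => ⟨blkLT_fl x.1 x.2, x.2⟩) (fun x => ⟨blkLT_fl x.1 x.2, x.2⟩) ?_ ?_ ?_ ?_
  · rintro ⟨U, e⟩ h
    simp only [coe_sigma, Set.mem_sigma_iff, mem_coe, mem_filter, mem_powerset] at h ⊢
    exact ⟨⟨blkLT_fl_sub h.1.1 h.2.1, h.2.2⟩, h.2.1, by rw [blkLT_fl_fl]; exact h.1.2⟩
  · rintro ⟨U, e⟩ h
    simp only [coe_sigma, Set.mem_sigma_iff, mem_coe, mem_filter, mem_powerset] at h ⊢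
    exact ⟨⟨blkLT_fl_sub h.1.1 h.2.1, h.2.2⟩, h.2.1, by rw [blkLT_fl_fl]; exact h.1.2⟩
  · rintro ⟨U, e⟩ h
    simp only [blkLT_fl_fl]
  · rintro ⟨U, e⟩ h
    simp only [blkLT_fl_fl]

/-- `#{ind = 0} + #{ind = 1} + #{ind ≥ 2} = n` and `#{ind ≥ 2} + ... ≤ Zs - 1` -/
theorem blkLT_counts {n : ℕ} {p : ℕ → ℕ} (hp : TreeFn n p) (hn : 1 ≤ n) (U : Finset ℕ) :
    n + 1 ≤ ((range n).filter (fun u => blkLT_ind n p U u = 1)).card + 2 * Zs n p U ∧
      (∑ u ∈ (range n).filter (fun u => 2 ≤ blkLT_ind n p U u), blkLT_ind n p U u) + 2 ≤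
        2 * Zs n p U := by
  have hs := blkLT_sum_ind hp U
  rw [blkLT_Zs hp]
  set a : ℕ → ℕ := fun u => blkLT_ind n p U u with ha
  have e0 : ((range n).filter (fun u => a u = 0)).card =
      ∑ u ∈ range n, (if a u = 0 then 1 else 0) := card_filter _ _
  have e1 : ((range n).filter (fun u => a u = 1)).card =
      ∑ u ∈ range n, (if a u = 1 then 1 else 0) := card_filter _ _
  have e2 : ∑ u ∈ (range n).filter (fun u => 2 ≤ a u), a u =
      ∑ u ∈ range n, (if 2 ≤ a u then a u else 0) := sum_filter _ _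
  have h1 : ∑ u ∈ range n, ((if a u = 1 then 1 else 0) + 2 * (if a u = 0 then 1 else 0) + a u) ≥
      ∑ u ∈ range n, 2 := by
    apply sum_le_sum
    intro u _
    split_ifs <;> omega
  have h2 : ∑ u ∈ range n, ((if 2 ≤ a u then a u else 0) + 2) ≤
      ∑ u ∈ range n, (2 * a u + 2 * (if a u = 0 then 1 else 0)) := by
    apply sum_le_sum
    intro u _
    split_ifs <;> omega
  rw [sum_add_distrib, sum_add_distrib, ← mul_sum] at h1
  rw [sum_add_distrib, sum_add_distrib, ← mul_sum, ← mul_sum] at h2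
  simp only [sum_const, card_range, smul_eq_mul] at h1 h2
  change ∑ u ∈ range n, a u = n - 1 at hs
  rw [e0, e1, e2]
  constructor <;> omega

theorem blkLT_sum_deg {n : ℕ} {p : ℕ → ℕ} (hp : TreeFn n p) :
    ∑ u ∈ range n, blkLT_deg n p u = 2 * (n - 1) := by
  have h1 := blkLT_sum_ind hp (∅ : Finset ℕ)
  have h2 := blkLT_sum_ind hp (Ico 1 n)
  have h3 : ∀ u ∈ range n, blkLT_deg n p u = blkLT_ind n p ∅ u + blkLT_ind n p (Ico 1 n) u := by
    intro u _
    unfold blkLT_deg blkLT_ind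
    have a1 : (Ico 1 n).filter (fun e => blkLT_hd p ∅ e = u) = (Ico 1 n).filter (fun e => e = u) := by
      apply filter_congr
      intro e _
      simp [blkLT_hd]
    have a2 : (Ico 1 n).filter (fun e => blkLT_hd p (Ico 1 n) e = u) =
        (Ico 1 n).filter (fun e => p e = u) := by
      apply filter_congr
      intro e he
      unfold blkLT_hd
      rw [if_pos he]
    rw [a1, a2, filter_or, card_union_of_disjoint]
    rw [disjoint_filter]
    intro e he h h'
    have := hp e he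
    omega
  rw [sum_congr rfl h3, sum_add_distrib, h1, h2]
  ring

theorem blkLT_deg4 {n : ℕ} {p : ℕ → ℕ} (hp : TreeFn n p) :
    2 * ((range n).filter (fun u => 4 ≤ blkLT_deg n p u)).card ≤ n - 1 := by
  have h := blkLT_sum_deg hp
  have h1 : ∑ u ∈ range n, 4 * (if 4 ≤ blkLT_deg n p u then 1 else 0) ≤
      ∑ u ∈ range n, blkLT_deg n p u := by
    apply sum_le_sum
    intro u _
    split_ifs <;> omega
  rw [← mul_sum, ← card_filter] at h1
  omega

/-- `#Up ≥ #{ind = 1} - #{edges from a source to a vertex of in-degree one}` -/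
theorem blkLT_up {n : ℕ} {p : ℕ → ℕ} (hp : TreeFn n p) (U : Finset ℕ) :
    ((range n).filter (fun u => blkLT_ind n p U u = 1)).card ≤
      ((Ico 1 n).filter (fun e => Zs n p (blkLT_fl U e) = Zs n p U + 1)).card +
      ((Ico 1 n).filter (fun e => blkLT_ind n p U (blkLT_hd p U e) = 1 ∧
        blkLT_ind n p U (blkLT_tl p U e) = 0)).card := by
  have h1 : ((range n).filter (fun u => blkLT_ind n p U u = 1)).card ≤
      ((Ico 1 n).filter (fun e => blkLT_ind n p U (blkLT_hd p U e) = 1)).card := by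
    have h2 : (range n).filter (fun u => blkLT_ind n p U u = 1) ⊆
        ((Ico 1 n).filter (fun e => blkLT_ind n p U (blkLT_hd p U e) = 1)).image
          (blkLT_hd p U) := by
      intro u hu
      rw [mem_filter] at hu
      have h3 : 0 < blkLT_ind n p U u := by omega
      obtain ⟨e, he⟩ := card_pos.1 h3
      rw [mem_filter] at he
      exact mem_image.2 ⟨e, mem_filter.2 ⟨he.1, by rw [he.2]; exact hu.2⟩, he.2⟩
    exact (card_le_card h2).trans card_image_le
  refine h1.trans ?_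
  rw [← card_union_add_card_inter]
  refine (card_le_card ?_).trans (Nat.le_add_right _ _)
  intro e he
  rw [mem_filter] at he
  rw [mem_union, mem_filter, mem_filter]
  have h := blkLT_Zs_fl hp U he.1
  rw [if_pos he.2] at h
  by_cases h0 : blkLT_ind n p U (blkLT_tl p U e) = 0
  · exact Or.inr ⟨he.1, he.2, h0⟩
  · rw [if_neg h0] at h
    exact Or.inl ⟨he.1, by omega⟩

theorem blkLT_low {n : ℕ} {p : ℕ → ℕ} (hp : TreeFn n p) (U : Finset ℕ) :
    ((Ico 1 n).filter (fun e => blkLT_ind n p U (blkLT_hd p U e) = 1 ∧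
        blkLT_ind n p U (blkLT_tl p U e) = 0)).card ≤ 3 * Zs n p U +
      ((Ico 1 n).filter (fun e => (blkLT_ind n p U (blkLT_hd p U e) = 1 ∧
        blkLT_ind n p U (blkLT_tl p U e) = 0) ∧ 4 ≤ blkLT_deg n p (blkLT_tl p U e))).card := by
  rw [← card_filter_add_card_filter_not (s := (Ico 1 n).filter (fun e =>
    blkLT_ind n p U (blkLT_hd p U e) = 1 ∧ blkLT_ind n p U (blkLT_tl p U e) = 0))
    (fun e => 4 ≤ blkLT_deg n p (blkLT_tl p U e)), filter_filter, filter_filter, add_comm]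
  gcongr
  rw [blkLT_Zs hp]
  have h1 := card_le_mul_card_image_of_maps_to (s := (Ico 1 n).filter (fun e =>
      (blkLT_ind n p U (blkLT_hd p U e) = 1 ∧ blkLT_ind n p U (blkLT_tl p U e) = 0) ∧
        ¬ 4 ≤ blkLT_deg n p (blkLT_tl p U e)))
    (t := (range n).filter (fun u => blkLT_ind n p U u = 0)) (f := blkLT_tl p U) ?_ 3 ?_
  · exact h1
  · intro e he
    rw [mem_filter] at he
    exact mem_filter.2 ⟨mem_range.2 (blkLT_tl_lt hp U he.1), he.2.1.2⟩
  · intro u hu
    rw [filter_filter]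
    by_cases hd : 4 ≤ blkLT_deg n p u
    · rw [filter_false_of_mem]
      · simp
      · rintro e he ⟨h1, h2⟩
        rw [h2] at h1
        exact h1.2 hd
    · refine le_trans (card_le_card ?_) (by omega : blkLT_deg n p u ≤ 3)
      intro e he
      rw [mem_filter] at he ⊢
      refine ⟨he.1, ?_⟩
      have := he.2.2
      unfold blkLT_tl at this
      split_ifs at this
      · exact Or.inl this
      · exact Or.inr this

theorem blkLT_high {n : ℕ} {p : ℕ → ℕ} (hp : TreeFn n p) (j : ℕ) :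
    ∑ U ∈ (Ico 1 n).powerset.filter (fun U => Zs n p U = j),
      ((Ico 1 n).filter (fun e => (blkLT_ind n p U (blkLT_hd p U e) = 1 ∧
        blkLT_ind n p U (blkLT_tl p U e) = 0) ∧ 4 ≤ blkLT_deg n p (blkLT_tl p U e))).card ≤
      cnt n p j * ((range n).filter (fun u => 4 ≤ blkLT_deg n p u)).card := by
  unfold cnt
  rw [← card_sigma, ← card_product]
  apply card_le_card_of_injOn (fun x => (blkLT_fl x.1 x.2, blkLT_tl p x.1 x.2))
  · rintro ⟨U, e⟩ h
    simp only [coe_sigma, Set.mem_sigma_iff, mem_coe, mem_filter, mem_powerset] at h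
    simp only [coe_product, Set.mem_prod, mem_coe, mem_filter, mem_powerset]
    obtain ⟨⟨hU, hZ⟩, he, ⟨h1, h0⟩, h4⟩ := h
    refine ⟨⟨blkLT_fl_sub hU he, ?_⟩, mem_range.2 (blkLT_tl_lt hp U he), h4⟩
    have := blkLT_Zs_fl hp U he
    rw [if_pos h0, if_pos h1] at this
    omega
  · rintro ⟨U1, e1⟩ h1 ⟨U2, e2⟩ h2 heq
    simp only [coe_sigma, Set.mem_sigma_iff, mem_coe, mem_filter, mem_powerset] at h1 h2
    simp only [Prod.mk.injEq] at heq
    obtain ⟨hf, ht⟩ := heq
    have hone : blkLT_ind n p (blkLT_fl U1 e1) (blkLT_tl p U1 e1) = 1 := by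
      have := blkLT_ind_fl hp U1 h1.2.1 (blkLT_tl p U1 e1)
      rw [if_neg (blkLT_hd_ne_tl hp U1 h1.2.1).symm, if_pos rfl] at this
      omega
    have he : e1 = e2 := by
      unfold blkLT_ind at hone
      rw [card_eq_one] at hone
      obtain ⟨a, ha⟩ := hone
      have m1 : e1 ∈ ({a} : Finset ℕ) := by
        rw [← ha, mem_filter]
        exact ⟨h1.2.1, blkLT_hd_fl_self p U1 e1⟩
      have m2 : e2 ∈ ({a} : Finset ℕ) := by
        rw [← ha, mem_filter, hf, ht]
        exact ⟨h2.2.1, blkLT_hd_fl_self p U2 e2⟩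
      rw [mem_singleton] at m1 m2
      rw [m1, m2]
    subst he
    have hU : U1 = U2 := by
      rw [← blkLT_fl_fl U1 e1, hf, blkLT_fl_fl]
    rw [hU]

theorem blkLT_Zs_pos {n : ℕ} {p : ℕ → ℕ} (hp : TreeFn n p) (hn : 1 ≤ n) (U : Finset ℕ) :
    1 ≤ Zs n p U := by
  have := (blkLT_counts hp hn U).2
  omega

theorem blkLT_down {n : ℕ} {p : ℕ → ℕ} (hp : TreeFn n p) (U : Finset ℕ) :
    ((Ico 1 n).filter (fun e => Zs n p (blkLT_fl U e) + 1 = Zs n p U)).card ≤
      ∑ u ∈ (range n).filter (fun u => 2 ≤ blkLT_ind n p U u), blkLT_ind n p U u := by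
  rw [card_eq_sum_card_fiberwise (f := blkLT_hd p U)
    (t := (range n).filter (fun u => 2 ≤ blkLT_ind n p U u))]
  · apply sum_le_sum
    intro u _
    apply card_le_card
    intro e he
    rw [mem_filter, mem_filter] at he
    exact mem_filter.2 ⟨he.1.1, he.2⟩
  · intro e he
    rw [mem_coe, mem_filter] at he
    rw [mem_coe, mem_filter]
    refine ⟨mem_range.2 (blkLT_hd_lt hp U he.1), ?_⟩
    have h := blkLT_Zs_fl hp U he.1
    have h' := blkLT_ind_hd_pos (n := n) (p := p) U he.1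
    split_ifs at h <;> omega

theorem lower_tail {n : ℕ} {p : ℕ → ℕ} (hp : TreeFn n p) (hn : 1 ≤ n) {j : ℕ}
    (hj : 14 * j ≤ n) : cnt n p j ≤ cnt n p (j + 1) := by
  rcases Nat.eq_zero_or_pos j with h0 | hjpos
  · have : cnt n p j = 0 := by
      unfold cnt
      rw [card_eq_zero, filter_eq_empty_iff]
      intro U _ hU
      have := blkLT_Zs_pos hp hn U
      omega
    omega
  have hbij := blkLT_bij (n := n) (p := p) j
  -- upper bound for the down edges
  have hdown : ∑ U ∈ (Ico 1 n).powerset.filter (fun U => Zs n p U = j + 1),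
        ((Ico 1 n).filter (fun e => Zs n p (blkLT_fl U e) = j)).card ≤ cnt n p (j + 1) * (2 * j) := by
    unfold cnt
    rw [← smul_eq_mul, ← sum_const]
    apply sum_le_sum
    intro U hU
    rw [mem_filter] at hU
    have h1 := blkLT_down hp U
    have h2 := (blkLT_counts hp hn U).2
    rw [hU.2] at h1 h2
    simp only [Nat.add_right_cancel_iff] at h1
    omega
  -- lower bound for the up edges
  have hup : cnt n p j * (n + 1) ≤
      (∑ U ∈ (Ico 1 n).powerset.filter (fun U => Zs n p U = j),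
        ((Ico 1 n).filter (fun e => Zs n p (blkLT_fl U e) = j + 1)).card) +
      cnt n p j * ((range n).filter (fun u => 4 ≤ blkLT_deg n p u)).card + cnt n p j * (5 * j) := by
    refine le_trans ?_ (add_le_add (add_le_add le_rfl (blkLT_high hp j)) le_rfl)
    have hc : cnt n p j = ∑ U ∈ (Ico 1 n).powerset.filter (fun U => Zs n p U = j), 1 := by
      unfold cnt; rw [card_eq_sum_ones]
    rw [hc, sum_mul, sum_mul, ← sum_add_distrib, ← sum_add_distrib]
    apply sum_le_sum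
    intro U hU
    rw [mem_filter] at hU
    have h1 := blkLT_up hp U
    have h2 := blkLT_low hp U
    have h3 := (blkLT_counts hp hn U).1
    rw [hU.2] at h1 h2 h3
    omega
  have h4 := blkLT_deg4 hp
  rw [hbij] at hup
  have h5 : cnt n p j * (n + 1) ≤ cnt n p (j + 1) * (2 * j) +
      cnt n p j * ((range n).filter (fun u => 4 ≤ blkLT_deg n p u)).card + cnt n p j * (5 * j) := by
    omega
  have h6 : cnt n p j * (2 * j) ≤ cnt n p (j + 1) * (2 * j) := by
    have h7 : 2 * j + ((range n).filter (fun u => 4 ≤ blkLT_deg n p u)).card + 5 * j ≤ n + 1 := by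
      omega
    have h8 := Nat.mul_le_mul_left (cnt n p j) h7
    rw [mul_add, mul_add] at h8
    omega
  exact Nat.le_of_mul_le_mul_right h6 (by omega)

-- END BLOCK

end Pool.Agent.Lib_helper19.Src
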