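import Pool.Agent.Lib_helper19.Src.Main
import Pool.Agent.Lib_helper19.SrcA.BA
import Pool.Agent.Lib_helper19.SrcA.SW
import Pool.Agent.Lib_helper19.SrcA.KI
import Pool.Agent.Lib_helper19.SrcA.FE

set_option autoImplicit false

namespace Pool.Agent.Lib_helper19.Src

open Finset



-- BEGIN BLOCK
theorem blkSC_sum_pow (F : Finset ℕ) (x : ℝ) :
    ∑ A ∈ F.powerset, x ^ A.card = (1 + x) ^ F.card := by
  have h := Finset.sum_pow_mul_eq_add_pow x 1 F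
  simp only [one_pow, mul_one] at h
  rw [h, add_comm]

/-- weighted sums over orientations in terms of the switches -/
theorem blkSC_sum {n : ℕ} {p : ℕ → ℕ} (hp : TreeFn n p) {C : Finset ℕ} {R : ℕ → Finset ℕ}
    {b : ℕ → Bool} (hS : Switch n p C R b) (x : ℝ) (f : ℕ → ℝ) :
    ∑ U ∈ (Ico 1 n).powerset, x ^ Zs n p U * f (Fr n p C U).card =
      ∑ U₀ ∈ (Ico 1 n \ C).powerset, ∑ B ∈ (C \ Fr n p C U₀).powerset,
        x ^ Zs n p (U₀ ∪ B) * (1 + x) ^ (Fr n p C U₀).card * f (Fr n p C U₀).card := by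
  rw [sum_switch hS]
  refine Finset.sum_congr rfl fun U₀ hU₀ => Finset.sum_congr rfl fun B hB => ?_
  rw [Finset.mem_powerset] at hU₀ hB
  have hBC : B ⊆ C := hB.trans Finset.sdiff_subset
  have hterm : ∀ A ∈ (Fr n p C U₀).powerset,
      x ^ Zs n p (U₀ ∪ B ∪ A) * f (Fr n p C (U₀ ∪ B ∪ A)).card =
        (x ^ Zs n p (U₀ ∪ B) * f (Fr n p C U₀).card) * x ^ A.card := by
    intro A hA
    rw [Finset.mem_powerset] at hA
    have hAC : A ⊆ C := hA.trans (Finset.filter_subset _ _)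
    rw [Zs_switch hp hS hU₀ hA hB, Fr_union hS hAC, Fr_union hS hBC, pow_add]
    ring
  rw [Finset.sum_congr rfl hterm, ← Finset.mul_sum, blkSC_sum_pow]
  ring

theorem blkSC_kappa {l1 l2 l : ℝ} (h1 : 0 < l1) (hl : l ∈ Set.Icc l1 l2) :
    1 / (1 + max l2 l1⁻¹) ≤ 1 / (1 + max l l⁻¹) := by
  have hl0 : 0 < l := lt_of_lt_of_le h1 hl.1
  have h2 : max l l⁻¹ ≤ max l2 l1⁻¹ := max_le_max hl.2 (inv_anti₀ h1 hl.1)
  have h3 : 0 < max l l⁻¹ := lt_of_lt_of_le hl0 (le_max_left _ _)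
  apply one_div_le_one_div_of_le (by positivity)
  linarith

/-- `(1 - a κ²)^{#C} ≤ exp(- a κ₀² n / 24)` -/
theorem blkSC_exp {n : ℕ} {a κ κ₀ : ℝ} {c : ℕ} (ha0 : 0 ≤ a) (ha1 : a ≤ 1) (hκ₀ : 0 ≤ κ₀)
    (hκ : κ₀ ≤ κ) (hκ1 : κ ≤ 1) (hn : 14 ≤ n) (hc : n ≤ 12 * c + 7) :
    (1 - a * κ ^ 2) ^ c ≤ Real.exp (-(a * κ₀ ^ 2 / 24) * n) := by
  have hκ0 : 0 ≤ κ := hκ₀.trans hκ
  have h0 : 0 ≤ 1 - a * κ ^ 2 := by
    have : a * κ ^ 2 ≤ 1 * 1 := mul_le_mul ha1 (pow_le_one₀ hκ0 hκ1) (by positivity) (by norm_num)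
    linarith
  have h1 : 1 - a * κ ^ 2 ≤ Real.exp (-(a * κ ^ 2)) := by
    have := Real.add_one_le_exp (-(a * κ ^ 2))
    linarith
  calc (1 - a * κ ^ 2) ^ c ≤ (Real.exp (-(a * κ ^ 2))) ^ c := pow_le_pow_left₀ h0 h1 c
    _ = Real.exp (c * (-(a * κ ^ 2))) := (Real.exp_nat_mul _ _).symm
    _ ≤ Real.exp (-(a * κ₀ ^ 2 / 24) * n) := by
        apply Real.exp_le_exp.mpr
        have h2 : (n : ℝ) ≤ 24 * c := by
          have : n ≤ 24 * c := by omega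
          exact_mod_cast this
        have h3 : κ₀ ^ 2 ≤ κ ^ 2 := pow_le_pow_left₀ hκ₀ hκ 2
        have h4 : a * κ₀ ^ 2 / 24 * n ≤ a * κ ^ 2 / 24 * (24 * c) := by
          apply mul_le_mul _ h2 (by positivity) (by positivity)
          have := mul_le_mul_of_nonneg_left h3 ha0
          linarith
        linarith

/-- Cauchy-Schwarz for the sum over pairs -/
theorem blkSC_cs {ι : Type*} (s : Finset ι) (f g : ι → ℝ) (hf : ∀ i ∈ s, 0 ≤ f i)
    (hg : ∀ i ∈ s, 0 ≤ g i) : (∑ i ∈ s, Real.sqrt (f i * g i)) ^ 2 ≤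
      (∑ i ∈ s, f i) * ∑ i ∈ s, g i := by
  have h := Finset.sum_mul_sq_le_sq_mul_sq s (fun i => Real.sqrt (f i)) (fun i => Real.sqrt (g i))
  have h1 : ∑ i ∈ s, Real.sqrt (f i * g i) = ∑ i ∈ s, Real.sqrt (f i) * Real.sqrt (g i) :=
    Finset.sum_congr rfl fun i hi => Real.sqrt_mul (hf i hi) _
  have h2 : ∑ i ∈ s, Real.sqrt (f i) ^ 2 = ∑ i ∈ s, f i :=
    Finset.sum_congr rfl fun i hi => Real.sq_sqrt (hf i hi)
  have h3 : ∑ i ∈ s, Real.sqrt (g i) ^ 2 = ∑ i ∈ s, g i :=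
    Finset.sum_congr rfl fun i hi => Real.sq_sqrt (hg i hi)
  rw [h1]
  rw [h2, h3] at h
  exact h

theorem strong_conv (l1 l2 δ : ℝ) (h1 : 0 < l1) (h12 : l1 ≤ l2) (hδ : 0 < δ) :
    ∃ c : ℝ, 0 < c ∧ ∃ n₀ : ℕ, ∀ n ≥ n₀, ∀ p : ℕ → ℕ, TreeFn n p →
      ∀ l ∈ Set.Icc l1 l2, ∀ l' ∈ Set.Icc l1 l2, (1 + δ) * l ≤ l' →
        Real.exp (c * n) * PR n p (Real.sqrt (l * l')) ^ 2 ≤ PR n p l * PR n p l' := by
  have hl2 : 0 < l2 := h1.trans_le h12
  set κ₀ : ℝ := 1 / (1 + max l2 l1⁻¹) with hκ₀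
  have hκ₀0 : 0 < κ₀ := by
    have : 0 < max l2 l1⁻¹ := lt_of_lt_of_le hl2 (le_max_left _ _)
    positivity
  set k : ℝ := l1 * (Real.sqrt (1 + δ) - 1) ^ 2 / (1 + l2) ^ 2 with hk
  have hsδ : 1 < Real.sqrt (1 + δ) := by
    rw [Real.lt_sqrt (by norm_num)]
    linarith
  have hk0 : 0 < k := by
    have : 0 < (Real.sqrt (1 + δ) - 1) ^ 2 := by
      have : 0 < Real.sqrt (1 + δ) - 1 := by linarith
      positivity
    positivity
  set s : ℝ := Real.sqrt (1 + k) with hs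
  have hs1 : 1 < s := by
    rw [hs, Real.lt_sqrt (by norm_num)]
    linarith
  have hs0 : 0 < s := by linarith
  set a : ℝ := 1 - s⁻¹ with ha
  have hsinv : s⁻¹ < 1 := inv_lt_one_of_one_lt₀ hs1
  have hsinv0 : 0 < s⁻¹ := inv_pos.mpr hs0
  have ha0 : 0 < a := by rw [ha]; linarith
  have ha1 : a ≤ 1 := by rw [ha]; linarith
  refine ⟨a * κ₀ ^ 2 / 12, by positivity, 14, fun n hn p hp l hl l' hl' hll' => ?_⟩
  have hl0 : 0 < l := lt_of_lt_of_le h1 hl.1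
  have hl'0 : 0 < l' := lt_of_lt_of_le h1 hl'.1
  set μ : ℝ := Real.sqrt (l * l') with hμ
  have hμ0 : 0 < μ := Real.sqrt_pos.mpr (by positivity)
  have hμ2 : μ ^ 2 = l * l' := Real.sq_sqrt (by positivity)
  have hμl : l1 ≤ μ := by
    rw [hμ]
    apply Real.le_sqrt_of_sq_le
    nlinarith [hl.1, hl'.1]
  have hμu : μ ≤ l2 := by
    rw [hμ]
    rw [Real.sqrt_le_left hl2.le]
    nlinarith [hl.2, hl'.2]
  obtain ⟨C, R, b, hS, hC⟩ := exists_switch hp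
  -- pointwise inequality
  have hpt : (1 + k) * (1 + μ) ^ 2 ≤ (1 + l) * (1 + l') := by
    have e1 : (1 + l) * (1 + l') = (1 + μ) ^ 2 + (Real.sqrt l' - Real.sqrt l) ^ 2 := by
      have h3 : Real.sqrt l ^ 2 = l := Real.sq_sqrt hl0.le
      have h4 : Real.sqrt l' ^ 2 = l' := Real.sq_sqrt hl'0.le
      have h5 : μ = Real.sqrt l * Real.sqrt l' := Real.sqrt_mul hl0.le _
      have h6 : (Real.sqrt l' - Real.sqrt l) ^ 2 = l' + l - 2 * μ := by
        rw [h5]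
        nlinarith [h3, h4]
      rw [h6]
      nlinarith [hμ2]
    have e2 : k * (1 + μ) ^ 2 ≤ (Real.sqrt l' - Real.sqrt l) ^ 2 := by
      have h3 : Real.sqrt (1 + δ) * Real.sqrt l ≤ Real.sqrt l' := by
        rw [← Real.sqrt_mul (by positivity)]
        exact Real.sqrt_le_sqrt hll'
      have h4 : 0 ≤ (Real.sqrt (1 + δ) - 1) * Real.sqrt l :=
        mul_nonneg (by linarith) (Real.sqrt_nonneg _)
      have h5 : (Real.sqrt (1 + δ) - 1) * Real.sqrt l ≤ Real.sqrt l' - Real.sqrt l := by linarith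
      have h6 := pow_le_pow_left₀ h4 h5 2
      rw [mul_pow, Real.sq_sqrt hl0.le] at h6
      refine le_trans ?_ h6
      have h7 : (1 + μ) ^ 2 ≤ (1 + l2) ^ 2 := pow_le_pow_left₀ (by positivity) (by linarith) 2
      calc k * (1 + μ) ^ 2 ≤ k * (1 + l2) ^ 2 := mul_le_mul_of_nonneg_left h7 hk0.le
        _ = l1 * (Real.sqrt (1 + δ) - 1) ^ 2 := by rw [hk]; field_simp
        _ ≤ (Real.sqrt (1 + δ) - 1) ^ 2 * l := by
            rw [mul_comm]
            exact mul_le_mul_of_nonneg_left hl.1 (by positivity)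
    rw [e1]
    linarith
  -- index set
  set J : Finset ((_ : Finset ℕ) × Finset ℕ) := (Ico 1 n \ C).powerset.sigma
    (fun U₀ => (C \ Fr n p C U₀).powerset) with hJ
  set z : ((_ : Finset ℕ) × Finset ℕ) → ℕ := fun i => Zs n p (i.1 ∪ i.2) with hz
  set m : ((_ : Finset ℕ) × Finset ℕ) → ℕ := fun i => (Fr n p C i.1).card with hm
  have hsum : ∀ (x : ℝ) (f : ℕ → ℝ), ∑ U ∈ (Ico 1 n).powerset, x ^ Zs n p U * f (Fr n p C U).card =
      ∑ i ∈ J, x ^ z i * (1 + x) ^ m i * f (m i) := by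
    intro x f
    rw [blkSC_sum hp hS, hJ, Finset.sum_sigma]
  have hPRsum : ∀ x : ℝ, PR n p x = ∑ i ∈ J, x ^ z i * (1 + x) ^ m i := by
    intro x
    have := hsum x (fun _ => 1)
    simpa [PR] using this
  have hPRμ : 0 < PR n p μ := PR_pos hμ0
  -- first Cauchy-Schwarz
  have hcs1 : (∑ i ∈ J, μ ^ z i * (1 + μ) ^ m i * s ^ m i) ^ 2 ≤ PR n p l * PR n p l' := by
    have h3 := blkSC_cs J (fun i => l ^ z i * (1 + l) ^ m i) (fun i => l' ^ z i * (1 + l') ^ m i)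
      (fun i _ => by positivity) (fun i _ => by positivity)
    rw [← hPRsum l, ← hPRsum l'] at h3
    refine le_trans ?_ h3
    apply pow_le_pow_left₀ (Finset.sum_nonneg fun i _ => by positivity)
    refine Finset.sum_le_sum fun i _ => ?_
    apply Real.le_sqrt_of_sq_le
    have h4 : (μ ^ z i * (1 + μ) ^ m i * s ^ m i) ^ 2 =
        (μ ^ 2) ^ z i * (s ^ 2 * (1 + μ) ^ 2) ^ m i := by
      rw [mul_pow (s ^ 2), ← pow_mul, ← pow_mul, ← pow_mul]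
      ring
    have h5 : s ^ 2 = 1 + k := Real.sq_sqrt (by positivity)
    rw [h4, hμ2, h5]
    have h6 : l ^ z i * (1 + l) ^ m i * (l' ^ z i * (1 + l') ^ m i) =
        (l * l') ^ z i * ((1 + l) * (1 + l')) ^ m i := by
      rw [mul_pow, mul_pow]; ring
    rw [h6]
    apply mul_le_mul_of_nonneg_left _ (by positivity)
    exact pow_le_pow_left₀ (by positivity) hpt _
  -- second Cauchy-Schwarz
  have hcs2 : PR n p μ ^ 2 ≤ (∑ i ∈ J, μ ^ z i * (1 + μ) ^ m i * s ^ m i) *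
      ∑ i ∈ J, μ ^ z i * (1 + μ) ^ m i * (s⁻¹) ^ m i := by
    have h3 := blkSC_cs J (fun i => μ ^ z i * (1 + μ) ^ m i * s ^ m i)
      (fun i => μ ^ z i * (1 + μ) ^ m i * (s⁻¹) ^ m i)
      (fun i _ => by positivity) (fun i _ => by positivity)
    refine le_trans (le_of_eq ?_) h3
    rw [hPRsum μ]
    congr 1
    refine Finset.sum_congr rfl fun i _ => ?_
    have h4 : μ ^ z i * (1 + μ) ^ m i * s ^ m i * (μ ^ z i * (1 + μ) ^ m i * (s⁻¹) ^ m i) =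
        (μ ^ z i * (1 + μ) ^ m i) ^ 2 := by
      have : s ^ m i * (s⁻¹) ^ m i = 1 := by
        rw [← mul_pow, mul_inv_cancel₀ hs0.ne', one_pow]
      calc μ ^ z i * (1 + μ) ^ m i * s ^ m i * (μ ^ z i * (1 + μ) ^ m i * (s⁻¹) ^ m i)
          = (μ ^ z i * (1 + μ) ^ m i) ^ 2 * (s ^ m i * (s⁻¹) ^ m i) := by ring
        _ = _ := by rw [this, mul_one]
    rw [h4, Real.sqrt_sq (by positivity)]
  -- finite energy
  have hfe := fe_bound hp hS hμ0 ha0.le ha1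
  have h1a : 1 - a = s⁻¹ := by rw [ha]; ring
  rw [h1a, hsum μ (fun m => (s⁻¹) ^ m)] at hfe
  have hκ1 : 1 / (1 + max μ μ⁻¹) ≤ 1 := by
    have : 0 < max μ μ⁻¹ := lt_of_lt_of_le hμ0 (le_max_left _ _)
    rw [div_le_one (by positivity)]
    linarith
  have hexp := blkSC_exp (n := n) (a := a) (κ := 1 / (1 + max μ μ⁻¹)) (κ₀ := κ₀) (c := C.card)
    ha0.le ha1 hκ₀0.le (blkSC_kappa h1 ⟨hμl, hμu⟩) hκ1 hn hC
  set P : ℝ := PR n p μ with hP
  set T : ℝ := ∑ i ∈ J, μ ^ z i * (1 + μ) ^ m i * s ^ m i with hT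
  set E : ℝ := Real.exp (-(a * κ₀ ^ 2 / 24) * n) with hE
  have hT0 : 0 ≤ T := Finset.sum_nonneg fun i _ => by positivity
  have h7 : P ^ 2 ≤ T * (E * P) := by
    refine hcs2.trans (mul_le_mul_of_nonneg_left ?_ hT0)
    exact hfe.trans (mul_le_mul_of_nonneg_right hexp hPRμ.le)
  have h8 : P ≤ T * E := by
    have : P * P ≤ (T * E) * P := by nlinarith
    exact le_of_mul_le_mul_right this hPRμ
  have h9 : P ^ 2 ≤ T ^ 2 * E ^ 2 := by
    rw [← mul_pow]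
    exact pow_le_pow_left₀ hPRμ.le h8 2
  have h10 : Real.exp (a * κ₀ ^ 2 / 12 * n) * E ^ 2 = 1 := by
    rw [hE, ← Real.exp_nat_mul, ← Real.exp_add, ← Real.exp_zero]
    congr 1
    push_cast
    ring
  calc Real.exp (a * κ₀ ^ 2 / 12 * n) * P ^ 2
      ≤ Real.exp (a * κ₀ ^ 2 / 12 * n) * (T ^ 2 * E ^ 2) :=
        mul_le_mul_of_nonneg_left h9 (Real.exp_pos _).le
    _ = T ^ 2 * (Real.exp (a * κ₀ ^ 2 / 12 * n) * E ^ 2) := by ring
    _ = T ^ 2 := by rw [h10, mul_one]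
    _ ≤ _ := hcs1
-- END BLOCK

end Pool.Agent.Lib_helper19.Src
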