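import Pool.Agent.Lib_helper19.Src.Main
import Pool.Agent.Lib_helper19.SrcA.LT

set_option autoImplicit false

/-! Block UT of MP_80a94d_pr (upper tail), by helper80. -/

namespace Pool.Agent.Lib_helper19.Src

open Finset

-- BEGIN BLOCK

/-- a proper 2-colouring of the tree -/
def blkUT_col (p : ℕ → ℕ) (v : ℕ) : Bool :=
  if _h : p v < v then !(blkUT_col p (p v)) else true
termination_by v

theorem blkUT_col_ne {n : ℕ} {p : ℕ → ℕ} (hp : TreeFn n p) {e : ℕ} (he : e ∈ Ico 1 n) :
    blkUT_col p e ≠ blkUT_col p (p e) := by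
  have h := hp e he
  rw [blkUT_col, dif_pos h]
  cases blkUT_col p (p e) <;> simp

/-- number of in-edges coming from a source -/
def blkUT_s (n : ℕ) (p : ℕ → ℕ) (U : Finset ℕ) (u : ℕ) : ℕ :=
  ((Ico 1 n).filter (fun e => blkLT_hd p U e = u ∧ blkLT_ind n p U (blkLT_tl p U e) = 0)).card

/-- number of in-edges coming from a non-source -/
def blkUT_m (n : ℕ) (p : ℕ → ℕ) (U : Finset ℕ) (u : ℕ) : ℕ :=
  ((Ico 1 n).filter (fun e => blkLT_hd p U e = u ∧ blkLT_ind n p U (blkLT_tl p U e) ≠ 0)).card

/-- number of out-edges -/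
def blkUT_o (n : ℕ) (p : ℕ → ℕ) (U : Finset ℕ) (u : ℕ) : ℕ :=
  ((Ico 1 n).filter (fun e => blkLT_tl p U e = u)).card

theorem blkUT_ind_eq (n : ℕ) (p : ℕ → ℕ) (U : Finset ℕ) (u : ℕ) :
    blkLT_ind n p U u = blkUT_s n p U u + blkUT_m n p U u := by
  unfold blkLT_ind blkUT_s blkUT_m
  rw [← card_filter_add_card_filter_not (s := (Ico 1 n).filter (fun e => blkLT_hd p U e = u))
    (fun e => blkLT_ind n p U (blkLT_tl p U e) = 0), filter_filter, filter_filter]

theorem blkUT_deg_eq {n : ℕ} {p : ℕ → ℕ} (hp : TreeFn n p) (U : Finset ℕ) (u : ℕ) :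
    blkLT_deg n p u = blkLT_ind n p U u + blkUT_o n p U u := by
  unfold blkLT_deg blkLT_ind blkUT_o
  rw [← card_union_of_disjoint]
  · congr 1
    ext e
    simp only [mem_filter, mem_union]
    unfold blkLT_hd blkLT_tl
    by_cases h : e ∈ U
    · simp only [if_pos h]; tauto
    · simp only [if_neg h]; tauto
  · rw [disjoint_filter]
    intro e he h1 h2
    exact blkLT_hd_ne_tl hp U he (h1.trans h2.symm)

/-- vertices which are not sources and have no source neighbour -/
def blkUT_N (n : ℕ) (p : ℕ → ℕ) (U : Finset ℕ) : Finset ℕ :=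
  (range n).filter (fun u => blkLT_ind n p U u ≠ 0 ∧ blkUT_s n p U u = 0)

/-- the set of sources -/
def blkUT_S (n : ℕ) (p : ℕ → ℕ) (U : Finset ℕ) : Finset ℕ :=
  (range n).filter (fun u => blkLT_ind n p U u = 0)

theorem blkUT_indep {n : ℕ} {p : ℕ → ℕ} (T : Finset ℕ) (hT : T ⊆ range n)
    (hi : ∀ e ∈ Ico 1 n, e ∈ T → p e ∉ T) :
    T.card ≤ Zs n p (T.filter (fun v => 1 ≤ v)) := by
  unfold Zs
  apply card_le_card
  intro v hv
  rw [mem_filter]
  refine ⟨hT hv, ?_, ?_⟩
  · rcases Nat.eq_zero_or_pos v with h | h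
    · exact Or.inl h
    · exact Or.inr (mem_filter.2 ⟨hv, h⟩)
  · intro w hw hpw hwT
    rw [mem_filter] at hwT
    exact hi w hw hwT.1 (by rw [hpw]; exact hv)

/-- an edge leaving a source: its head has a source neighbour -/
theorem blkUT_s_pos {n : ℕ} {p : ℕ → ℕ} (U : Finset ℕ) {e : ℕ}
    (he : e ∈ Ico 1 n) (h0 : blkLT_ind n p U (blkLT_tl p U e) = 0) :
    1 ≤ blkUT_s n p U (blkLT_hd p U e) :=
  card_pos.2 ⟨e, mem_filter.2 ⟨he, rfl, h0⟩⟩

theorem blkUT_N_card {n : ℕ} {p : ℕ → ℕ} (hp : TreeFn n p) {a : ℕ}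
    (ha : ∀ U ⊆ Ico 1 n, Zs n p U ≤ a) (U : Finset ℕ) :
    2 * Zs n p U + (blkUT_N n p U).card ≤ 2 * a := by
  have key : ∀ b : Bool, Zs n p U + ((blkUT_N n p U).filter (fun v => blkUT_col p v = b)).card ≤ a := by
    intro b
    rw [blkLT_Zs hp, ← card_union_of_disjoint]
    · set T := (range n).filter (fun u => blkLT_ind n p U u = 0) ∪
        (blkUT_N n p U).filter (fun v => blkUT_col p v = b) with hT
      have hTn : T ⊆ range n := by
        intro v hv
        rw [hT, mem_union, mem_filter, mem_filter] at hv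
        rcases hv with hv | hv
        · exact hv.1
        · exact (mem_filter.1 hv.1).1
      refine (blkUT_indep T hTn ?_).trans (ha _ ?_)
      · intro e he heT hpT
        rw [hT, mem_union, mem_filter, mem_filter] at heT hpT
        unfold blkUT_N at heT hpT
        rw [mem_filter] at heT hpT
        by_cases hu : e ∈ U
        · have hh : blkLT_hd p U e = p e := if_pos hu
          have ht : blkLT_tl p U e = e := if_pos hu
          have h1 := blkLT_ind_hd_pos (n := n) (p := p) U he
          have h2 := blkUT_s_pos (n := n) (p := p) U he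
          rw [hh] at h1 h2
          rw [ht] at h2
          rcases hpT with hpT | hpT
          · omega
          · rcases heT with heT | heT
            · have := h2 heT.2; omega
            · exact blkUT_col_ne hp he (heT.2.trans hpT.2.symm)
        · have hh : blkLT_hd p U e = e := if_neg hu
          have ht : blkLT_tl p U e = p e := if_neg hu
          have h1 := blkLT_ind_hd_pos (n := n) (p := p) U he
          have h2 := blkUT_s_pos (n := n) (p := p) U he
          rw [hh] at h1 h2
          rw [ht] at h2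
          rcases heT with heT | heT
          · omega
          · rcases hpT with hpT | hpT
            · have := h2 hpT.2; omega
            · exact blkUT_col_ne hp he (heT.2.trans hpT.2.symm)
      · intro v hv
        rw [mem_filter] at hv
        exact mem_Ico.2 ⟨hv.2, mem_range.1 (hTn hv.1)⟩
    · rw [disjoint_left]
      intro v hv hv'
      rw [mem_filter] at hv hv'
      unfold blkUT_N at hv'
      rw [mem_filter] at hv'
      exact hv'.1.2.1 hv.2
  have h1 := key true
  have h2 := key false
  have h3 := card_filter_add_card_filter_not (s := blkUT_N n p U) (fun v => blkUT_col p v = true)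
  have h4 : (blkUT_N n p U).filter (fun v => ¬ blkUT_col p v = true) =
      (blkUT_N n p U).filter (fun v => blkUT_col p v = false) := by
    apply filter_congr
    intro v _
    simp
  rw [h4] at h3
  omega

/-- the up edges inject into `N` -/
theorem blkUT_up {n : ℕ} {p : ℕ → ℕ} (hp : TreeFn n p) (U : Finset ℕ) :
    ((Ico 1 n).filter (fun e => Zs n p (blkLT_fl U e) = Zs n p U + 1)).card ≤
      (blkUT_N n p U).card := by
  have hone : ∀ e ∈ (Ico 1 n).filter (fun e => Zs n p (blkLT_fl U e) = Zs n p U + 1),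
      blkLT_ind n p U (blkLT_hd p U e) = 1 ∧ blkLT_ind n p U (blkLT_tl p U e) ≠ 0 := by
    intro e he
    rw [mem_filter] at he
    have h := blkLT_Zs_fl hp U he.1
    split_ifs at h <;> omega
  apply card_le_card_of_injOn (blkLT_hd p U)
  · intro e he
    rw [mem_coe] at he
    have h := hone e he
    rw [mem_filter] at he
    rw [mem_coe]
    unfold blkUT_N
    rw [mem_filter]
    refine ⟨mem_range.2 (blkLT_hd_lt hp U he.1), by omega, ?_⟩
    have h1 := blkUT_ind_eq n p U (blkLT_hd p U e)
    have h2 : 1 ≤ blkUT_m n p U (blkLT_hd p U e) :=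
      card_pos.2 ⟨e, mem_filter.2 ⟨he.1, rfl, h.2⟩⟩
    omega
  · intro e he f hf hef
    rw [mem_coe] at he hf
    have h := (hone e he).1
    rw [mem_filter] at he hf
    unfold blkLT_ind at h
    rw [card_eq_one] at h
    obtain ⟨x, hx⟩ := h
    have m1 : e ∈ ({x} : Finset ℕ) := by
      rw [← hx, mem_filter]; exact ⟨he.1, rfl⟩
    have m2 : f ∈ ({x} : Finset ℕ) := by
      rw [← hx, mem_filter]; exact ⟨hf.1, hef.symm⟩
    rw [mem_singleton] at m1 m2
    rw [m1, m2]

/-- the down edges -/
theorem blkUT_down {n : ℕ} {p : ℕ → ℕ} (hp : TreeFn n p) (U : Finset ℕ) :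
    (∑ u ∈ range n, if 2 ≤ blkUT_s n p U u + blkUT_m n p U u then blkUT_s n p U u else 0) ≤
      ((Ico 1 n).filter (fun e => Zs n p (blkLT_fl U e) + 1 = Zs n p U)).card := by
  have h1 : ((Ico 1 n).filter (fun e => blkLT_ind n p U (blkLT_tl p U e) = 0 ∧
      2 ≤ blkLT_ind n p U (blkLT_hd p U e))).card =
      ∑ u ∈ range n, if 2 ≤ blkUT_s n p U u + blkUT_m n p U u then blkUT_s n p U u else 0 := by
    rw [card_eq_sum_card_fiberwise (f := blkLT_hd p U) (t := range n)
      (fun e he => mem_coe.2 (mem_range.2 (blkLT_hd_lt hp U (mem_filter.1 (mem_coe.1 he)).1)))]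
    apply sum_congr rfl
    intro u _
    rw [filter_filter]
    split_ifs with h
    · unfold blkUT_s
      congr 1
      apply filter_congr
      intro e _
      constructor
      · rintro ⟨⟨h1, h2⟩, h3⟩
        exact ⟨h3, h1⟩
      · rintro ⟨h1, h2⟩
        refine ⟨⟨h2, ?_⟩, h1⟩
        rw [h1, blkUT_ind_eq]
        exact h
    · rw [card_eq_zero, filter_eq_empty_iff]
      rintro e _ ⟨⟨h1, h2⟩, h3⟩
      apply h
      rw [← blkUT_ind_eq, ← h3]
      exact h2
  rw [← h1]
  apply card_le_card
  intro e he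
  rw [mem_filter] at he ⊢
  refine ⟨he.1, ?_⟩
  have h := blkLT_Zs_fl hp U he.1
  rw [if_pos he.2.1, if_neg (by omega)] at h
  omega

/-- every source has a neighbour which is not a leaf -/
theorem blkUT_nonleaf {n : ℕ} {p : ℕ → ℕ} (hp : TreeFn n p) (U : Finset ℕ)
    (h2 : 2 ≤ Zs n p U) {w : ℕ} (hw : w < n) (hw0 : blkLT_ind n p U w = 0) :
    ∃ e ∈ Ico 1 n, blkLT_tl p U e = w ∧ 2 ≤ blkLT_deg n p (blkLT_hd p U e) := by
  by_contra hcon
  push Not at hcon
  -- every other vertex is a neighbour of w
  -- if e is an edge at w then its other end point has degree one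
  have hdeg : ∀ e ∈ Ico 1 n, (e = w ∨ p e = w) → blkLT_tl p U e = w := by
    intro e he h
    by_contra hne
    have hh : blkLT_hd p U e = w := by
      unfold blkLT_tl at hne
      unfold blkLT_hd
      split_ifs at hne ⊢ <;> tauto
    have := blkLT_ind_hd_pos (n := n) (p := p) U he
    rw [hh] at this
    omega
  have hpw : w ≠ 0 → p w = 0 := by
    intro hw1
    by_contra hpw
    have he : w ∈ Ico 1 n := mem_Ico.2 ⟨by omega, hw⟩
    have ht := hdeg w he (Or.inl rfl)
    have hlt := hcon w he ht
    have hwU : w ∈ U := by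
      by_contra hwU
      unfold blkLT_tl at ht
      rw [if_neg hwU] at ht
      have := hp w he
      omega
    have hh : blkLT_hd p U w = p w := if_pos hwU
    rw [hh] at hlt
    have h3 := hp w he
    have he2 : p w ∈ Ico 1 n := mem_Ico.2 ⟨by omega, by omega⟩
    have h4 : ({w, p w} : Finset ℕ) ⊆ (Ico 1 n).filter (fun e => e = p w ∨ p e = p w) := by
      intro x hx
      rw [mem_insert, mem_singleton] at hx
      rw [mem_filter]
      rcases hx with rfl | rfl
      · exact ⟨he, Or.inr rfl⟩
      · exact ⟨he2, Or.inl rfl⟩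
    have h5 := card_le_card h4
    rw [card_pair (by omega)] at h5
    unfold blkLT_deg at hlt
    omega
  have hall : ∀ v, v < n → v = w ∨ (∃ e ∈ Ico 1 n, blkLT_tl p U e = w ∧ blkLT_hd p U e = v) := by
    intro v
    induction v using Nat.strong_induction_on with
    | _ v ih =>
      intro hv
      by_cases hvw : v = w
      · exact Or.inl hvw
      right
      rcases Nat.eq_zero_or_pos v with h0 | hpos
      · subst h0
        have hw1 : w ≠ 0 := fun h => hvw h.symm
        have he : w ∈ Ico 1 n := mem_Ico.2 ⟨by omega, hw⟩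
        have ht := hdeg w he (Or.inl rfl)
        have hwU : w ∈ U := by
          by_contra hwU
          unfold blkLT_tl at ht
          rw [if_neg hwU] at ht
          have := hp w he
          omega
        have hh : blkLT_hd p U w = p w := if_pos hwU
        exact ⟨w, he, ht, by rw [hh, hpw hw1]⟩
      · have he : v ∈ Ico 1 n := mem_Ico.2 ⟨hpos, hv⟩
        have hlt := hp v he
        by_cases hpv : p v = w
        · have ht := hdeg v he (Or.inr hpv)
          refine ⟨v, he, ht, ?_⟩
          unfold blkLT_tl at ht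
          unfold blkLT_hd
          split_ifs at ht ⊢
          · exact absurd ht hvw
          · rfl
        · exfalso
          rcases ih (p v) hlt (by omega) with h | ⟨e, heE, ht, hh⟩
          · exact hpv h
          · have hd := hcon e heE ht
            rw [hh] at hd
            have hev : e ≠ v := by
              intro h
              subst h
              unfold blkLT_tl at ht
              unfold blkLT_hd at hh
              split_ifs at ht hh <;> omega
            have h4 : ({e, v} : Finset ℕ) ⊆ (Ico 1 n).filter (fun x => x = p v ∨ p x = p v) := by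
              intro x hx
              rw [mem_insert, mem_singleton] at hx
              rw [mem_filter]
              rcases hx with rfl | rfl
              · refine ⟨heE, ?_⟩
                unfold blkLT_hd at hh
                split_ifs at hh
                · exact Or.inr hh
                · exact Or.inl hh
              · exact ⟨he, Or.inr rfl⟩
            have h5 := card_le_card h4
            rw [card_pair hev] at h5
            unfold blkLT_deg at hd
            omega
  -- hence w is the only source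
  rw [blkLT_Zs hp] at h2
  have h3 : (range n).filter (fun u => blkLT_ind n p U u = 0) ⊆ {w} := by
    intro v hv
    rw [mem_filter] at hv
    rw [mem_singleton]
    rcases hall v (mem_range.1 hv.1) with h | ⟨e, he, _, hh⟩
    · exact h
    · have := blkLT_ind_hd_pos (n := n) (p := p) U he
      rw [hh] at this
      omega
  have h4 := card_le_card h3
  rw [card_singleton] at h4
  omega

theorem blkUT_src_le {n : ℕ} {p : ℕ → ℕ} (hp : TreeFn n p) (U : Finset ℕ)
    (h2 : 2 ≤ Zs n p U) :
    Zs n p U ≤ ∑ u ∈ range n, if 2 ≤ blkUT_s n p U u + blkUT_m n p U u + blkUT_o n p U u then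
      blkUT_s n p U u else 0 := by
  have h1 : Zs n p U ≤ ((Ico 1 n).filter (fun e => blkLT_ind n p U (blkLT_tl p U e) = 0 ∧
      2 ≤ blkLT_deg n p (blkLT_hd p U e))).card := by
    rw [blkLT_Zs hp]
    refine le_trans (card_le_card ?_) (card_image_le (f := blkLT_tl p U))
    intro w hw
    rw [mem_filter] at hw
    obtain ⟨e, he, ht, hd⟩ := blkUT_nonleaf hp U h2 (mem_range.1 hw.1) hw.2
    rw [mem_image]
    exact ⟨e, mem_filter.2 ⟨he, by rw [ht]; exact hw.2, hd⟩, ht⟩
  refine h1.trans (le_of_eq ?_)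
  rw [card_eq_sum_card_fiberwise (f := blkLT_hd p U) (t := range n)
    (fun e he => mem_coe.2 (mem_range.2 (blkLT_hd_lt hp U (mem_filter.1 (mem_coe.1 he)).1)))]
  apply sum_congr rfl
  intro u _
  rw [filter_filter, ← blkUT_ind_eq, ← blkUT_deg_eq hp]
  split_ifs with h
  · unfold blkUT_s
    congr 1
    apply filter_congr
    intro e _
    constructor
    · rintro ⟨⟨h1, h2⟩, h3⟩
      exact ⟨h3, h1⟩
    · rintro ⟨h1, h2⟩
      exact ⟨⟨h2, by rw [h1]; exact h⟩, h1⟩
  · rw [card_eq_zero, filter_eq_empty_iff]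
    rintro e _ ⟨⟨h1, h2⟩, h3⟩
    exact h (by rw [← h3]; exact h2)

/-- `X` -/
def blkUT_X (n : ℕ) (p : ℕ → ℕ) (U : Finset ℕ) : Finset ℕ :=
  (range n).filter (fun u => blkUT_s n p U u = 1 ∧ blkUT_m n p U u = 0 ∧ 1 ≤ blkUT_o n p U u)

/-- `Y` -/
def blkUT_Y (n : ℕ) (p : ℕ → ℕ) (U : Finset ℕ) : Finset ℕ :=
  (range n).filter (fun u => blkUT_s n p U u = 1 ∧ 1 ≤ blkUT_m n p U u)

theorem blkUT_main {n : ℕ} {p : ℕ → ℕ} (hp : TreeFn n p) (U : Finset ℕ)
    (h2 : 2 ≤ Zs n p U) :
    Zs n p U + (blkUT_Y n p U).card ≤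
      2 * (∑ u ∈ range n, if 2 ≤ blkUT_s n p U u + blkUT_m n p U u then blkUT_s n p U u else 0) +
        (blkUT_X n p U).card := by
  refine (add_le_add (blkUT_src_le hp U h2) le_rfl).trans ?_
  unfold blkUT_X blkUT_Y
  rw [card_filter, card_filter, mul_sum, ← sum_add_distrib, ← sum_add_distrib]
  apply sum_le_sum
  intro u _
  split_ifs <;> omega

/-- `e` is an edge between `u` and a vertex outside of `S` -/
def blkUT_P (n : ℕ) (p : ℕ → ℕ) (S : Finset ℕ) (u e : ℕ) : Prop :=
  e ∈ Ico 1 n ∧ ((e = u ∧ p e ∉ S) ∨ (p e = u ∧ e ∉ S))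

open Classical in
/-- a choice of such an edge -/
noncomputable def blkUT_ed (n : ℕ) (p : ℕ → ℕ) (S : Finset ℕ) (u : ℕ) : ℕ :=
  if h : ∃ e, blkUT_P n p S u e then Classical.choose h else 0

theorem blkUT_mem_S {n : ℕ} {p : ℕ → ℕ} (U : Finset ℕ) (u : ℕ) :
    u ∈ blkUT_S n p U ↔ u < n ∧ blkLT_ind n p U u = 0 := by
  unfold blkUT_S
  rw [mem_filter, mem_range]

/-- the chosen edge is an out-edge to a non-source -/
theorem blkUT_ed_spec {n : ℕ} {p : ℕ → ℕ} (hp : TreeFn n p) (U : Finset ℕ) {u : ℕ}
    (hu : u ∈ blkUT_X n p U) :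
    blkUT_ed n p (blkUT_S n p U) u ∈ Ico 1 n ∧
      blkLT_tl p U (blkUT_ed n p (blkUT_S n p U) u) = u ∧
      blkLT_hd p U (blkUT_ed n p (blkUT_S n p U) u) ∉ blkUT_S n p U := by
  unfold blkUT_X at hu
  rw [mem_filter] at hu
  obtain ⟨hun, hs, hm, ho⟩ := hu
  have hex : ∃ e, blkUT_P n p (blkUT_S n p U) u e := by
    obtain ⟨e, he⟩ := card_pos.1 ho
    rw [mem_filter] at he
    have h1 := blkLT_ind_hd_pos (n := n) (p := p) U he.1
    refine ⟨e, he.1, ?_⟩
    have ht := he.2
    unfold blkLT_tl at ht
    unfold blkLT_hd at h1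
    split_ifs at ht h1 with h
    · left
      refine ⟨ht, ?_⟩
      rw [blkUT_mem_S]
      omega
    · right
      refine ⟨ht, ?_⟩
      rw [blkUT_mem_S]
      omega
  have hc : blkUT_P n p (blkUT_S n p U) u (blkUT_ed n p (blkUT_S n p U) u) := by
    unfold blkUT_ed
    rw [dif_pos hex]
    exact Classical.choose_spec hex
  set e := blkUT_ed n p (blkUT_S n p U) u
  obtain ⟨he, hc⟩ := hc
  have hor : (blkLT_tl p U e = u ∧ blkLT_hd p U e ∉ blkUT_S n p U) ∨
      (blkLT_hd p U e = u ∧ blkLT_tl p U e ∉ blkUT_S n p U) := by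
    unfold blkLT_tl blkLT_hd
    split_ifs <;> tauto
  rcases hor with h | h
  · exact ⟨he, h⟩
  · exfalso
    have h1 : 1 ≤ blkUT_m n p U u := by
      refine card_pos.2 ⟨e, mem_filter.2 ⟨he, h.1, ?_⟩⟩
      intro h0
      apply h.2
      rw [blkUT_mem_S]
      exact ⟨blkLT_tl_lt hp U he, h0⟩
    omega

theorem blkUT_XY {n : ℕ} {p : ℕ → ℕ} (hp : TreeFn n p) (j : ℕ) :
    ∑ U ∈ (Ico 1 n).powerset.filter (fun U => Zs n p U = j), (blkUT_X n p U).card ≤
      ∑ U ∈ (Ico 1 n).powerset.filter (fun U => Zs n p U = j), (blkUT_Y n p U).card +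
      ∑ U ∈ (Ico 1 n).powerset.filter (fun U => Zs n p U = j), (blkUT_N n p U).card := by
  -- free and blocked vertices
  have hsplit : ∀ U : Finset ℕ, (blkUT_X n p U).card =
      ((blkUT_X n p U).filter (fun u =>
        2 ≤ blkLT_ind n p U (blkLT_hd p U (blkUT_ed n p (blkUT_S n p U) u)))).card +
      ((blkUT_X n p U).filter (fun u =>
        ¬ 2 ≤ blkLT_ind n p U (blkLT_hd p U (blkUT_ed n p (blkUT_S n p U) u)))).card := by
    intro U
    rw [card_filter_add_card_filter_not]
  rw [sum_congr rfl (fun U _ => hsplit U), sum_add_distrib]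
  apply add_le_add
  · -- free ones
    rw [← card_sigma, ← card_sigma]
    apply card_le_card_of_injOn
      (fun x => ⟨blkLT_fl x.1 (blkUT_ed n p (blkUT_S n p x.1) x.2), x.2⟩)
    · rintro ⟨U, u⟩ h
      simp only [coe_sigma, Set.mem_sigma_iff, mem_coe, mem_filter, mem_powerset] at h ⊢
      obtain ⟨⟨hU, hZ⟩, hu, h2⟩ := h
      obtain ⟨he, ht, hh⟩ := blkUT_ed_spec hp U hu
      set e := blkUT_ed n p (blkUT_S n p U) u
      unfold blkUT_X at hu
      rw [mem_filter] at hu
      obtain ⟨hun, hs, hm, ho⟩ := hu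
      have hind := blkUT_ind_eq n p U u
      have hZfl := blkLT_Zs_fl hp U he
      rw [ht, if_neg (by omega), if_neg (by omega)] at hZfl
      refine ⟨⟨blkLT_fl_sub hU he, by omega⟩, ?_⟩
      -- the sources are unchanged
      have hsrc : ∀ v, (blkLT_ind n p (blkLT_fl U e) v = 0 ↔ blkLT_ind n p U v = 0) := by
        intro v
        have h := blkLT_ind_fl hp U he v
        rw [ht] at h
        by_cases h1 : v = blkLT_hd p U e
        · subst h1
          rw [if_pos rfl, if_neg (by rw [← ht]; exact blkLT_hd_ne_tl hp U he)] at h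
          omega
        · rw [if_neg h1] at h
          by_cases h3 : v = u
          · subst h3
            rw [if_pos rfl] at h
            omega
          · rw [if_neg h3] at h
            omega
      have hhne : blkLT_ind n p U (blkLT_hd p U e) ≠ 0 := by omega
      unfold blkUT_Y
      rw [mem_filter]
      refine ⟨hun, ?_, ?_⟩
      · rw [← hs]
        unfold blkUT_s
        congr 1
        apply filter_congr
        intro f hf
        by_cases hfe : f = e
        · subst hfe
          rw [blkLT_hd_fl_self, blkLT_tl_fl_self, hsrc]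
          constructor
          · rintro ⟨_, h⟩; exact absurd h hhne
          · rintro ⟨h, _⟩
            exact absurd (h.trans ht.symm) (blkLT_hd_ne_tl hp U he)
        · rw [blkLT_hd_fl_of_ne p U hfe, blkLT_tl_fl_of_ne p U hfe, hsrc]
      · refine card_pos.2 ⟨e, mem_filter.2 ⟨he, ?_, ?_⟩⟩
        · rw [blkLT_hd_fl_self]; exact ht
        · rw [blkLT_tl_fl_self, Ne, hsrc]; exact hhne
    · rintro ⟨U1, u1⟩ h1 ⟨U2, u2⟩ h2 heq
      simp only [coe_sigma, Set.mem_sigma_iff, mem_coe, mem_filter, mem_powerset] at h1 h2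
      simp only [Sigma.mk.injEq] at heq
      obtain ⟨hf, hu⟩ := heq
      have hu : u1 = u2 := eq_of_heq hu
      subst hu
      have hS : ∀ U : Finset ℕ, u1 ∈ blkUT_X n p U →
          2 ≤ blkLT_ind n p U (blkLT_hd p U (blkUT_ed n p (blkUT_S n p U) u1)) →
          blkUT_S n p (blkLT_fl U (blkUT_ed n p (blkUT_S n p U) u1)) = blkUT_S n p U := by
        intro U hu h2
        obtain ⟨he, ht, hh⟩ := blkUT_ed_spec hp U hu
        set e := blkUT_ed n p (blkUT_S n p U) u1
        unfold blkUT_X at hu
        rw [mem_filter] at hu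
        obtain ⟨hun, hs, hm, ho⟩ := hu
        have hind := blkUT_ind_eq n p U u1
        ext v
        rw [blkUT_mem_S, blkUT_mem_S]
        have h := blkLT_ind_fl hp U he v
        rw [ht] at h
        by_cases h1 : v = blkLT_hd p U e
        · subst h1
          rw [if_pos rfl, if_neg (by rw [← ht]; exact blkLT_hd_ne_tl hp U he)] at h
          omega
        · rw [if_neg h1] at h
          by_cases h3 : v = u1
          · subst h3
            rw [if_pos rfl] at h
            omega
          · rw [if_neg h3] at h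
            omega
      have hS1 := hS U1 h1.2.1 h1.2.2
      have hS2 := hS U2 h2.2.1 h2.2.2
      rw [hf, hS2] at hS1
      rw [← hS1] at hf
      have hU : U1 = U2 := by
        have := congrArg (fun W => blkLT_fl W (blkUT_ed n p (blkUT_S n p U2) u1)) hf
        simp only [blkLT_fl_fl] at this
        exact this
      rw [hU]
  · -- blocked ones
    apply sum_le_sum
    intro U _
    have hspec : ∀ u ∈ (blkUT_X n p U).filter (fun u =>
        ¬ 2 ≤ blkLT_ind n p U (blkLT_hd p U (blkUT_ed n p (blkUT_S n p U) u))),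
        blkLT_ind n p U (blkLT_hd p U (blkUT_ed n p (blkUT_S n p U) u)) = 1 := by
      intro u hu
      rw [mem_filter] at hu
      have := blkLT_ind_hd_pos (n := n) (p := p) U (blkUT_ed_spec hp U hu.1).1
      omega
    apply card_le_card_of_injOn (fun u => blkLT_hd p U (blkUT_ed n p (blkUT_S n p U) u))
    · intro u hu
      rw [mem_coe] at hu
      have h1 := hspec u hu
      rw [mem_filter] at hu
      obtain ⟨he, ht, hh⟩ := blkUT_ed_spec hp U hu.1
      rw [mem_coe]
      change blkLT_hd p U (blkUT_ed n p (blkUT_S n p U) u) ∈ blkUT_N n p U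
      unfold blkUT_N
      rw [mem_filter]
      refine ⟨mem_range.2 (blkLT_hd_lt hp U he), by omega, ?_⟩
      have h2 := blkUT_ind_eq n p U (blkLT_hd p U (blkUT_ed n p (blkUT_S n p U) u))
      have h3 : 1 ≤ blkUT_m n p U (blkLT_hd p U (blkUT_ed n p (blkUT_S n p U) u)) := by
        refine card_pos.2 ⟨_, mem_filter.2 ⟨he, rfl, ?_⟩⟩
        rw [ht]
        have hx := hu.1
        unfold blkUT_X at hx
        rw [mem_filter] at hx
        have := blkUT_ind_eq n p U u
        omega
      omega
    · intro u hu v hv huv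
      rw [mem_coe] at hu hv
      have h1 := hspec u hu
      rw [mem_filter] at hu hv
      obtain ⟨he, ht, _⟩ := blkUT_ed_spec hp U hu.1
      obtain ⟨he', ht', _⟩ := blkUT_ed_spec hp U hv.1
      simp only at huv
      unfold blkLT_ind at h1
      rw [card_eq_one] at h1
      obtain ⟨x, hx⟩ := h1
      have m1 : blkUT_ed n p (blkUT_S n p U) u ∈ ({x} : Finset ℕ) := by
        rw [← hx, mem_filter]; exact ⟨he, rfl⟩
      have m2 : blkUT_ed n p (blkUT_S n p U) v ∈ ({x} : Finset ℕ) := by
        rw [← hx, mem_filter]; exact ⟨he', huv.symm⟩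
      rw [mem_singleton] at m1 m2
      rw [← ht, ← ht', m1, m2]

theorem upper_tail {n : ℕ} {p : ℕ → ℕ} (hp : TreeFn n p) (hn : 3 ≤ n) {a j : ℕ}
    (ha : ∀ U ⊆ Ico 1 n, Zs n p U ≤ a) (hj : 6 * a ≤ 7 * j + 3) :
    cnt n p (j + 1) ≤ cnt n p j := by
  by_cases haj : a ≤ j
  · have h0 : cnt n p (j + 1) = 0 := by
      unfold cnt
      rw [card_eq_zero, filter_eq_empty_iff]
      intro U hU hZ
      have := ha U (mem_powerset.1 hU)
      omega
    omega
  have ha1 : 1 ≤ a := (blkLT_Zs_pos hp (by omega) ∅).trans (ha ∅ (empty_subset _))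
  have hj1 : 1 ≤ j := by omega
  have hbij := blkLT_bij (n := n) (p := p) j
  have hup : ∑ U ∈ (Ico 1 n).powerset.filter (fun U => Zs n p U = j),
        ((Ico 1 n).filter (fun e => Zs n p (blkLT_fl U e) = j + 1)).card ≤
      cnt n p j * (2 * (a - j)) := by
    unfold cnt
    rw [← smul_eq_mul, ← sum_const]
    apply sum_le_sum
    intro U hU
    rw [mem_filter] at hU
    have h1 := blkUT_up hp U
    have h2 := blkUT_N_card hp ha U
    rw [hU.2] at h1 h2
    omega
  have hdown : cnt n p (j + 1) * (j + 1) ≤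
      2 * (∑ U ∈ (Ico 1 n).powerset.filter (fun U => Zs n p U = j + 1),
        ((Ico 1 n).filter (fun e => Zs n p (blkLT_fl U e) = j)).card) +
      cnt n p (j + 1) * (2 * (a - (j + 1))) := by
    have hN : ∑ U ∈ (Ico 1 n).powerset.filter (fun U => Zs n p U = j + 1), (blkUT_N n p U).card ≤
        cnt n p (j + 1) * (2 * (a - (j + 1))) := by
      unfold cnt
      rw [← smul_eq_mul, ← sum_const]
      apply sum_le_sum
      intro U hU
      rw [mem_filter] at hU
      have h2 := blkUT_N_card hp ha U
      rw [hU.2] at h2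
      omega
    have hXY := blkUT_XY hp (j + 1)
    have hmain : cnt n p (j + 1) * (j + 1) +
        ∑ U ∈ (Ico 1 n).powerset.filter (fun U => Zs n p U = j + 1), (blkUT_Y n p U).card ≤
        2 * (∑ U ∈ (Ico 1 n).powerset.filter (fun U => Zs n p U = j + 1),
          ((Ico 1 n).filter (fun e => Zs n p (blkLT_fl U e) = j)).card) +
        ∑ U ∈ (Ico 1 n).powerset.filter (fun U => Zs n p U = j + 1), (blkUT_X n p U).card := by
      unfold cnt
      rw [← smul_eq_mul, ← sum_const, ← sum_add_distrib, mul_sum, ← sum_add_distrib]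
      apply sum_le_sum
      intro U hU
      rw [mem_filter] at hU
      have h1 := blkUT_main hp U (by omega)
      have h2 := blkUT_down hp U
      rw [hU.2] at h1 h2
      simp only [Nat.add_right_cancel_iff] at h2
      omega
    omega
  have h5 : cnt n p (j + 1) * (j + 1) ≤
      2 * (cnt n p j * (2 * (a - j))) + cnt n p (j + 1) * (2 * (a - (j + 1))) := by
    omega
  obtain ⟨d, rfl⟩ : ∃ d, a = j + 1 + d := ⟨a - (j + 1), by omega⟩
  have e1 : j + 1 + d - j = d + 1 := by omega
  have e2 : j + 1 + d - (j + 1) = d := by omega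
  rw [e1, e2] at h5
  have h6 : cnt n p (j + 1) * (4 * (d + 1)) ≤ cnt n p j * (4 * (d + 1)) := by
    have h7 : 4 * (d + 1) + 2 * d ≤ j + 1 := by omega
    have h8 := Nat.mul_le_mul_left (cnt n p (j + 1)) h7
    rw [mul_add] at h8
    have h9 : 2 * (cnt n p j * (2 * (d + 1))) = cnt n p j * (4 * (d + 1)) := by ring
    omega
  exact Nat.le_of_mul_le_mul_right h6 (by omega)

-- END BLOCK

end Pool.Agent.Lib_helper19.Src
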