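import Pool.Agent.Lib_helper19.Src.Main
import Pool.Agent.Lib_helper19.SrcA.LO
import Pool.Agent.Lib_helper19.SrcA.SC
import Pool.Agent.Lib_helper19.SrcA.LN
import Pool.Agent.Lib_helper19.SrcA.LT
import Pool.Agent.Lib_helper19.SrcA.UT

set_option autoImplicit false

namespace Pool.Agent.Lib_helper19.Src

open Finset



-- BEGIN BLOCK

/-- one term is at most the whole sum -/
theorem blkFI_term (n : ℕ) (p : ℕ → ℕ) (j : ℕ) {x : ℝ} (hx : 0 < x) :
    (cnt n p j : ℝ) * x ^ j ≤ PR n p x := by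
  by_cases hj : j ≤ n
  · rw [PR_eq]
    exact Finset.single_le_sum (f := fun j => (cnt n p j : ℝ) * x ^ j)
      (fun i _ => by positivity) (mem_range.mpr (Nat.lt_succ_of_le hj))
  · rw [cnt_eq_zero (by omega)]
    simp only [Nat.cast_zero, zero_mul]
    exact (PR_pos hx).le

/-- Jensen: if `log (x/y) (E_y Z - j) ≥ 0` then `PR y x^j ≤ PR x y^j` -/
theorem blkFI_jensen (n : ℕ) (p : ℕ → ℕ) (j : ℕ) {x y : ℝ} (hx : 0 < x) (hy : 0 < y)
    (h : 0 ≤ Real.log (x / y) *
      (∑ U ∈ (Ico 1 n).powerset, (Zs n p U : ℝ) * y ^ Zs n p U - j * PR n p y)) :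
    PR n p y * x ^ j ≤ PR n p x * y ^ j := by
  set u : ℝ := x / y with hu
  have hu0 : 0 < u := div_pos hx hy
  have hxy : x = y * u := by rw [hu]; field_simp
  have key : ∀ k : ℕ, u ^ j * (1 + ((k : ℝ) - j) * Real.log u) ≤ u ^ k := by
    intro k
    have h1 : ((k : ℝ) - j) * Real.log u + 1 ≤ Real.exp (((k : ℝ) - j) * Real.log u) :=
      Real.add_one_le_exp _
    have h2 : Real.exp (((k : ℝ) - j) * Real.log u) = u ^ k / u ^ j := by
      rw [sub_mul, Real.exp_sub, ← Real.log_pow, ← Real.log_pow, Real.exp_log (pow_pos hu0 k),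
        Real.exp_log (pow_pos hu0 j)]
    rw [h2, le_div_iff₀ (pow_pos hu0 j)] at h1
    linarith
  have h1 : u ^ j * PR n p y ≤ PR n p x := by
    have h2 : ∑ U ∈ (Ico 1 n).powerset,
        y ^ Zs n p U * (u ^ j * (1 + ((Zs n p U : ℝ) - j) * Real.log u)) ≤ PR n p x := by
      unfold PR
      refine Finset.sum_le_sum fun U _ => ?_
      rw [hxy, mul_pow]
      exact mul_le_mul_of_nonneg_left (key _) (pow_pos hy _).le
    have h3 : ∑ U ∈ (Ico 1 n).powerset,
        y ^ Zs n p U * (u ^ j * (1 + ((Zs n p U : ℝ) - j) * Real.log u)) =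
        u ^ j * (PR n p y + Real.log u *
          (∑ U ∈ (Ico 1 n).powerset, (Zs n p U : ℝ) * y ^ Zs n p U - j * PR n p y)) := by
      unfold PR
      rw [Finset.mul_sum (s := (Ico 1 n).powerset) (a := (j : ℝ)), ← Finset.sum_sub_distrib,
        Finset.mul_sum (a := Real.log u), ← Finset.sum_add_distrib, Finset.mul_sum]
      refine Finset.sum_congr rfl fun U _ => ?_
      ring
    rw [h3] at h2
    refine le_trans ?_ h2
    refine mul_le_mul_of_nonneg_left ?_ (pow_pos hu0 j).le
    linarith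
  calc PR n p y * x ^ j = y ^ j * (u ^ j * PR n p y) := by rw [hxy, mul_pow]; ring
    _ ≤ y ^ j * PR n p x := mul_le_mul_of_nonneg_left h1 (pow_pos hy j).le
    _ = _ := by ring

theorem final : ∃ n₀ : ℕ, ∀ n ≥ n₀, ∀ p : ℕ → ℕ, TreeFn n p →
    ∃ m : ℕ, (∀ i < m, cnt n p i ≤ cnt n p (i + 1)) ∧ ∀ i ≥ m, cnt n p (i + 1) ≤ cnt n p i := by
  have hl12 : ((1 / 2 : ℝ) ^ 16) ≤ 2 ^ 28 := by norm_num
  obtain ⟨c1, hc1, n1, hstep⟩ := step ((1 / 2 : ℝ) ^ 16) (2 ^ 28) (1 / 100) (by norm_num) hl12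
    (by norm_num)
  obtain ⟨c2, hc2, n2, hconv⟩ := strong_conv ((1 / 2 : ℝ) ^ 16) (2 ^ 28) (1 / 100) (by norm_num) hl12
    (by norm_num)
  set ε : ℝ := min (c1 / 2) (c2 / 4) with hε
  have hε0 : 0 < ε := lt_min (by linarith) (by linarith)
  have hε1 : ε ≤ c1 / 2 := min_le_left _ _
  have hε2 : ε ≤ c2 / 4 := min_le_right _ _
  obtain ⟨n3, hloc⟩ := loc ε hε0
  obtain ⟨n4, hlc⟩ := lc_near
  -- n₅ : exp (-(c1/2) n) ≤ 1/100
  obtain ⟨n5, hn5⟩ : ∃ n5 : ℕ, ∀ n : ℕ, n5 ≤ n → Real.exp (-(c1 / 2) * n) ≤ 1 / 100 := by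
    obtain ⟨N, hN⟩ := exists_nat_gt (200 / c1)
    refine ⟨N, fun n hn => ?_⟩
    have h1 : (200 : ℝ) / c1 < n := lt_of_lt_of_le hN (by exact_mod_cast hn)
    have h2 : 200 < n * c1 := by rwa [div_lt_iff₀ hc1] at h1
    have h3 : (100 : ℝ) ≤ Real.exp ((c1 / 2) * n) := by
      have := Real.add_one_le_exp ((c1 / 2) * n)
      nlinarith
    rw [neg_mul, Real.exp_neg, one_div]
    exact inv_anti₀ (by norm_num) h3
  refine ⟨max (max (max n1 n2) (max n3 n4)) (max n5 3), fun n hn p hp => ?_⟩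
  have hn1 : n1 ≤ n := by
    refine le_trans ?_ hn
    exact le_trans (le_max_left _ _) (le_trans (le_max_left _ _) (le_max_left _ _))
  have hn2 : n2 ≤ n := by
    refine le_trans ?_ hn
    exact le_trans (le_max_right _ _) (le_trans (le_max_left _ _) (le_max_left _ _))
  have hn3 : n3 ≤ n := by
    refine le_trans ?_ hn
    exact le_trans (le_max_left _ _) (le_trans (le_max_right _ _) (le_max_left _ _))
  have hn4 : n4 ≤ n := by
    refine le_trans ?_ hn
    exact le_trans (le_max_right _ _) (le_trans (le_max_right _ _) (le_max_left _ _))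
  have hn5' : n5 ≤ n := by
    refine le_trans ?_ hn
    exact le_trans (le_max_left _ _) (le_max_right _ _)
  have hn6 : 3 ≤ n := by
    refine le_trans ?_ hn
    exact le_trans (le_max_right _ _) (le_max_right _ _)
  have hexp : Real.exp (-(c1 / 2) * n) ≤ 1 / 100 := hn5 n hn5'
  have hnpos : (0 : ℝ) < n := by
    have : 0 < n := by omega
    exact_mod_cast this
  -- the maximum `a` of `Zs`
  obtain ⟨Ua, hUa, hmax⟩ := Finset.exists_max_image (Ico 1 n).powerset (fun U => Zs n p U)
    ⟨∅, Finset.empty_mem_powerset _⟩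
  set a : ℕ := Zs n p Ua with ha
  have hamax : ∀ U ⊆ Ico 1 n, Zs n p U ≤ a := fun U hU => hmax U (mem_powerset.mpr hU)
  have han : n ≤ 2 * a := by
    obtain ⟨U, hU, h⟩ := exists_half hp
    have := hamax U hU
    omega
  have haex : ∃ U ⊆ Ico 1 n, Zs n p U = a := ⟨Ua, mem_powerset.mp hUa, rfl⟩
  -- local lower bound
  have hL : ∀ j : ℕ, n < 14 * j → 7 * j + 3 < 6 * a → ∃ l ∈ Set.Icc ((1 / 2 : ℝ) ^ 16) (2 ^ 28),
      Real.exp (-ε * n) * PR n p l ≤ (cnt n p j : ℝ) * l ^ j := by
    intro j hj1 hj2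
    exact hloc n hn3 p hp a han haex j (by omega) (by omega)
  -- error absorption
  have herr : ∀ (l : ℝ) (j : ℕ), 0 < l → Real.exp (-ε * n) * PR n p l ≤ (cnt n p j : ℝ) * l ^ j →
      Real.exp (-c1 * n) * PR n p l ≤ (1 / 100) * ((cnt n p j : ℝ) * l ^ j) := by
    intro l j hl h
    have h1 : Real.exp (-c1 * n) ≤ (1 / 100) * Real.exp (-ε * n) := by
      have h2 : Real.exp (-c1 * n) = Real.exp (-(c1 / 2) * n) * Real.exp (-(c1 / 2) * n) := by
        rw [← Real.exp_add]
        ring_nf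
      have h3 : Real.exp (-(c1 / 2) * n) ≤ Real.exp (-ε * n) := by
        refine Real.exp_le_exp.mpr ?_
        nlinarith
      rw [h2]
      exact mul_le_mul hexp h3 (Real.exp_pos _).le (by norm_num)
    calc Real.exp (-c1 * n) * PR n p l ≤ ((1 / 100) * Real.exp (-ε * n)) * PR n p l :=
          mul_le_mul_of_nonneg_right h1 (PR_pos hl).le
      _ = (1 / 100) * (Real.exp (-ε * n) * PR n p l) := by ring
      _ ≤ _ := mul_le_mul_of_nonneg_left h (by norm_num)
  have hlpos : ∀ l ∈ Set.Icc ((1 / 2 : ℝ) ^ 16) (2 ^ 28), 0 < l := fun l hl =>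
    lt_of_lt_of_le (by norm_num) hl.1
  have hcpos : ∀ (l : ℝ) (j : ℕ), 0 < l → Real.exp (-ε * n) * PR n p l ≤ (cnt n p j : ℝ) * l ^ j →
      (0 : ℝ) < cnt n p j := by
    intro l j hl h
    have h1 : 0 < Real.exp (-ε * n) * PR n p l := mul_pos (Real.exp_pos _) (PR_pos hl)
    by_contra hneg
    have h2 : (cnt n p j : ℝ) = 0 := le_antisymm (not_lt.mp hneg) (Nat.cast_nonneg _)
    rw [h2, zero_mul] at h
    linarith
  -- the two step inequalities in the form of ratios
  have hup : ∀ (l : ℝ) (j : ℕ), l ∈ Set.Icc ((1 / 2 : ℝ) ^ 16) (2 ^ 28) →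
      Real.exp (-ε * n) * PR n p l ≤ (cnt n p j : ℝ) * l ^ j →
      (98 / 100) * (cnt n p j : ℝ) ≤ (cnt n p (j + 1) : ℝ) * l := by
    intro l j hl h
    have hl0 := hlpos l hl
    have h1 := (hstep n hn1 p hp l hl j).2
    have h2 := herr l j hl0 h
    have h3 : (98 / 100) * ((cnt n p j : ℝ) * l ^ j) ≤ (cnt n p (j + 1) : ℝ) * l ^ (j + 1) := by
      linarith
    have h4 : (98 / 100) * (cnt n p j : ℝ) * l ^ j ≤ ((cnt n p (j + 1) : ℝ) * l) * l ^ j := by
      rw [pow_succ] at h3
      linarith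
    exact le_of_mul_le_mul_right h4 (pow_pos hl0 j)
  have hdn : ∀ (l : ℝ) (j : ℕ), l ∈ Set.Icc ((1 / 2 : ℝ) ^ 16) (2 ^ 28) →
      Real.exp (-ε * n) * PR n p l ≤ (cnt n p j : ℝ) * l ^ j →
      (cnt n p (j + 1) : ℝ) * l ≤ (102 / 100) * (cnt n p j : ℝ) := by
    intro l j hl h
    have hl0 := hlpos l hl
    have h1 := (hstep n hn1 p hp l hl j).1
    have h2 := herr l j hl0 h
    have h3 : (cnt n p (j + 1) : ℝ) * l ^ (j + 1) ≤ (102 / 100) * ((cnt n p j : ℝ) * l ^ j) := by
      linarith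
    have h4 : ((cnt n p (j + 1) : ℝ) * l) * l ^ j ≤ (102 / 100) * (cnt n p j : ℝ) * l ^ j := by
      rw [pow_succ] at h3
      linarith
    exact le_of_mul_le_mul_right h4 (pow_pos hl0 j)
  -- an exponential gap contradiction
  have hgap : ∀ x : ℝ, 0 < x → Real.exp (c2 * n) * (Real.exp (-(2 * ε) * n) * x) ≤ x → False := by
    intro x hx h
    have h1 : Real.exp (c2 * n) * Real.exp (-(2 * ε) * n) ≤ 1 := by
      have : (Real.exp (c2 * n) * Real.exp (-(2 * ε) * n)) * x ≤ 1 * x := by
        rw [one_mul]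
        calc _ = Real.exp (c2 * n) * (Real.exp (-(2 * ε) * n) * x) := by ring
          _ ≤ x := h
      exact le_of_mul_le_mul_right this hx
    rw [← Real.exp_add] at h1
    have h2 : 0 < c2 * n + -(2 * ε) * n := by nlinarith
    have h3 := Real.add_one_le_exp (c2 * n + -(2 * ε) * n)
    linarith
  -- tilts are essentially monotone
  have hmono : ∀ (l l' : ℝ) (j j' : ℕ), l ∈ Set.Icc ((1 / 2 : ℝ) ^ 16) (2 ^ 28) →
      l' ∈ Set.Icc ((1 / 2 : ℝ) ^ 16) (2 ^ 28) → j ≤ j' → (1 + 1 / 100) * l' ≤ l →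
      Real.exp (-ε * n) * PR n p l ≤ (cnt n p j : ℝ) * l ^ j →
      Real.exp (-ε * n) * PR n p l' ≤ (cnt n p j' : ℝ) * l' ^ j' → False := by
    intro l l' j j' hl hl' hjj hll h h'
    have hl0 := hlpos l hl
    have hl0' := hlpos l' hl'
    set s : ℝ := Real.sqrt (l' * l) with hs
    have hs0 : 0 < s := Real.sqrt_pos.mpr (mul_pos hl0' hl0)
    have hss : s ^ 2 = l' * l := Real.sq_sqrt (mul_pos hl0' hl0).le
    have hsl : s ≤ l := by
      have : s ^ 2 ≤ l ^ 2 := by
        rw [hss, sq]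
        exact mul_le_mul_of_nonneg_right (by nlinarith) hl0.le
      exact le_of_sq_le_sq this hl0.le
    have hcv := hconv n hn2 p hp l' hl' l hl hll
    have ht := blkFI_term n p j hs0
    have ht' := blkFI_term n p j' hs0
    have hPs := PR_pos (n := n) (p := p) hs0
    -- product of the two local bounds
    have hprod : Real.exp (-(2 * ε) * n) * (PR n p l' * PR n p l) ≤ PR n p s ^ 2 := by
      have e1 : Real.exp (-(2 * ε) * n) = Real.exp (-ε * n) * Real.exp (-ε * n) := by
        rw [← Real.exp_add]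
        ring_nf
      have e2 : (Real.exp (-ε * n) * PR n p l') * (Real.exp (-ε * n) * PR n p l) ≤
          ((cnt n p j' : ℝ) * l' ^ j') * ((cnt n p j : ℝ) * l ^ j) :=
        mul_le_mul h' h (by have := PR_pos (n := n) (p := p) hl0; positivity) (by positivity)
      have e3 : l' ^ j' * l ^ j ≤ s ^ j' * s ^ j := by
        -- l' * l = s^2, l' ≤ s ≤ l
        obtain ⟨d, rfl⟩ := Nat.exists_eq_add_of_le hjj
        have hl's : l' ≤ s := by
          have : l' ^ 2 ≤ s ^ 2 := by
            rw [hss, sq]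
            exact mul_le_mul_of_nonneg_left (by nlinarith) hl0'.le
          exact le_of_sq_le_sq this hs0.le
        calc l' ^ (j + d) * l ^ j = (l' * l) ^ j * l' ^ d := by rw [mul_pow]; ring
          _ ≤ (l' * l) ^ j * s ^ d := by
              refine mul_le_mul_of_nonneg_left (pow_le_pow_left₀ hl0'.le hl's d) ?_
              positivity
          _ = s ^ (j + d) * s ^ j := by rw [← hss]; ring
      have e4 : ((cnt n p j' : ℝ) * l' ^ j') * ((cnt n p j : ℝ) * l ^ j) ≤
          ((cnt n p j' : ℝ) * s ^ j') * ((cnt n p j : ℝ) * s ^ j) := by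
        have : ((cnt n p j' : ℝ) * l' ^ j') * ((cnt n p j : ℝ) * l ^ j) =
          ((cnt n p j' : ℝ) * (cnt n p j : ℝ)) * (l' ^ j' * l ^ j) := by ring
        rw [this]
        calc _ ≤ ((cnt n p j' : ℝ) * (cnt n p j : ℝ)) * (s ^ j' * s ^ j) :=
              mul_le_mul_of_nonneg_left e3 (by positivity)
          _ = _ := by ring
      have e5 : ((cnt n p j' : ℝ) * s ^ j') * ((cnt n p j : ℝ) * s ^ j) ≤ PR n p s * PR n p s :=
        mul_le_mul ht' ht (by positivity) hPs.le
      calc Real.exp (-(2 * ε) * n) * (PR n p l' * PR n p l)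
          = (Real.exp (-ε * n) * PR n p l') * (Real.exp (-ε * n) * PR n p l) := by rw [e1]; ring
        _ ≤ _ := e2
        _ ≤ _ := e4
        _ ≤ _ := e5
        _ = _ := by ring
    refine hgap (PR n p l' * PR n p l) (mul_pos (PR_pos hl0') (PR_pos hl0)) ?_
    refine le_trans (mul_le_mul_of_nonneg_left hprod (Real.exp_pos _).le) ?_
    exact hcv
  -- log-concavity at the indices with tilt near 1
  have hnear : ∀ (l : ℝ) (j : ℕ), 1 ≤ j → 9 / 10 ≤ l → l ≤ 11 / 10 →
      Real.exp (-ε * n) * PR n p l ≤ (cnt n p j : ℝ) * l ^ j →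
      cnt n p (j - 1) * cnt n p (j + 1) ≤ cnt n p j ^ 2 := by
    intro l j hj hl9 hl11 h
    have hl0 : 0 < l := by linarith
    have hlI : l ∈ Set.Icc ((1 / 2 : ℝ) ^ 16) (2 ^ 28) :=
      ⟨le_trans (by norm_num) hl9, le_trans hl11 (by norm_num)⟩
    -- general contradiction
    have hgen : ∀ y : ℝ, 0 < y → y ∈ Set.Icc ((1 / 2 : ℝ) ^ 16) (2 ^ 28) →
        Real.exp (c2 * n) * PR n p (Real.sqrt (l * y)) ^ 2 ≤ PR n p l * PR n p y →
        PR n p y * l ^ j ≤ PR n p l * y ^ j → False := by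
      intro y hy _ hcv hJ
      set s : ℝ := Real.sqrt (l * y) with hs
      have hs0 : 0 < s := Real.sqrt_pos.mpr (mul_pos hl0 hy)
      have hss : s ^ 2 = l * y := Real.sq_sqrt (mul_pos hl0 hy).le
      have ht := blkFI_term n p j hs0
      have hPl := PR_pos (n := n) (p := p) hl0
      have hlj : 0 < l ^ j := pow_pos hl0 j
      refine hgap ((PR n p l * PR n p y) * (l ^ j * l ^ j)) (by
        have := PR_pos (n := n) (p := p) hy
        positivity) ?_
      have e1 : Real.exp (-(2 * ε) * n) = Real.exp (-ε * n) * Real.exp (-ε * n) := by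
        rw [← Real.exp_add]
        ring_nf
      have e2 : Real.exp (-(2 * ε) * n) * ((PR n p l * PR n p y) * (l ^ j * l ^ j)) ≤
          PR n p s ^ 2 * (l ^ j * l ^ j) := by
        have f1 : Real.exp (-(2 * ε) * n) * ((PR n p l * PR n p y) * (l ^ j * l ^ j)) ≤
            (Real.exp (-ε * n) * PR n p l) * (Real.exp (-ε * n) * PR n p l) * (y ^ j * l ^ j) := by
          rw [e1]
          have : Real.exp (-ε * n) * Real.exp (-ε * n) * (PR n p l * PR n p y * (l ^ j * l ^ j)) =
              (Real.exp (-ε * n) * Real.exp (-ε * n) * PR n p l * l ^ j) * (PR n p y * l ^ j) := by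
            ring
          rw [this]
          calc _ ≤ (Real.exp (-ε * n) * Real.exp (-ε * n) * PR n p l * l ^ j) * (PR n p l * y ^ j) :=
                mul_le_mul_of_nonneg_left hJ (by positivity)
            _ = _ := by ring
        have f2 : (Real.exp (-ε * n) * PR n p l) * (Real.exp (-ε * n) * PR n p l) * (y ^ j * l ^ j) ≤
            ((cnt n p j : ℝ) * l ^ j) * ((cnt n p j : ℝ) * l ^ j) * (y ^ j * l ^ j) := by
          refine mul_le_mul_of_nonneg_right ?_ (by positivity)
          exact mul_le_mul h h (by positivity) (by positivity)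
        have f3 : ((cnt n p j : ℝ) * l ^ j) * ((cnt n p j : ℝ) * l ^ j) * (y ^ j * l ^ j) =
            (((cnt n p j : ℝ) * s ^ j) * ((cnt n p j : ℝ) * s ^ j)) * (l ^ j * l ^ j) := by
          have : s ^ j * s ^ j = l ^ j * y ^ j := by
            rw [← mul_pow, ← sq, hss, mul_pow]
          calc _ = (cnt n p j : ℝ) * (cnt n p j : ℝ) * (l ^ j * y ^ j) * (l ^ j * l ^ j) := by ring
            _ = (cnt n p j : ℝ) * (cnt n p j : ℝ) * (s ^ j * s ^ j) * (l ^ j * l ^ j) := by rw [this]
            _ = _ := by ring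
        have f4 : (((cnt n p j : ℝ) * s ^ j) * ((cnt n p j : ℝ) * s ^ j)) * (l ^ j * l ^ j) ≤
            PR n p s ^ 2 * (l ^ j * l ^ j) := by
          refine mul_le_mul_of_nonneg_right ?_ (by positivity)
          rw [sq]
          exact mul_le_mul ht ht (by positivity) (PR_pos hs0).le
        linarith
      calc _ ≤ Real.exp (c2 * n) * (PR n p s ^ 2 * (l ^ j * l ^ j)) :=
            mul_le_mul_of_nonneg_left e2 (Real.exp_pos _).le
        _ = (Real.exp (c2 * n) * PR n p s ^ 2) * (l ^ j * l ^ j) := by ring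
        _ ≤ _ := mul_le_mul_of_nonneg_right hcv (by positivity)
    set f : ℝ → ℝ := fun x => ∑ U ∈ (Ico 1 n).powerset, (Zs n p U : ℝ) * x ^ Zs n p U -
      j * PR n p x with hf
    have hfc : Continuous f := by
      rw [hf]
      unfold PR
      fun_prop
    have hf1 : f (4 / 5) ≤ 0 := by
      by_contra hneg
      push_neg at hneg
      have hy : ((4 : ℝ) / 5) ∈ Set.Icc ((1 / 2 : ℝ) ^ 16) (2 ^ 28) := by constructor <;> norm_num
      have hcv := hconv n hn2 p hp (4 / 5) hy l hlI (by linarith)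
      rw [mul_comm ((4 : ℝ) / 5) l, mul_comm (PR n p (4 / 5))] at hcv
      refine hgen (4 / 5) (by norm_num) hy hcv ?_
      refine blkFI_jensen n p j hl0 (by norm_num) ?_
      refine mul_nonneg (Real.log_nonneg ?_) hneg.le
      rw [le_div_iff₀ (by norm_num)]
      linarith
    have hf2 : 0 ≤ f (13 / 10) := by
      by_contra hneg
      push_neg at hneg
      have hy : ((13 : ℝ) / 10) ∈ Set.Icc ((1 / 2 : ℝ) ^ 16) (2 ^ 28) := by constructor <;> norm_num
      have hcv := hconv n hn2 p hp l hlI (13 / 10) hy (by linarith)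
      refine hgen (13 / 10) (by norm_num) hy hcv ?_
      refine blkFI_jensen n p j hl0 (by norm_num) ?_
      refine mul_nonneg_of_nonpos_of_nonpos (Real.log_nonpos (by positivity) ?_) hneg.le
      rw [div_le_one (by norm_num)]
      linarith
    obtain ⟨x, hx, hx0⟩ := intermediate_value_Icc (by norm_num : (4 / 5 : ℝ) ≤ 13 / 10)
      hfc.continuousOn ⟨hf1, hf2⟩
    refine hlc n hn4 p hp x hx j hj ?_
    have : ∑ U ∈ (Ico 1 n).powerset, (Zs n p U : ℝ) * x ^ Zs n p U - j * PR n p x = 0 := hx0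
    linarith
  -- unimodality
  by_cases hex : ∃ i, cnt n p (i + 1) < cnt n p i
  · classical
    set m := Nat.find hex with hm
    have hmspec : cnt n p (m + 1) < cnt n p m := Nat.find_spec hex
    refine ⟨m, fun i hi => not_lt.mp (Nat.find_min hex hi), ?_⟩
    -- the index m is not an up-index
    have hm14 : n < 14 * m := by
      by_contra hneg
      have := lower_tail hp (by omega) (not_lt.mp hneg)
      omega
    have hmtilt : ∀ l : ℝ, l ∈ Set.Icc ((1 / 2 : ℝ) ^ 16) (2 ^ 28) →
        Real.exp (-ε * n) * PR n p l ≤ (cnt n p m : ℝ) * l ^ m → 98 / 100 ≤ l := by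
      intro l hl h
      have hc0 := hcpos l m (hlpos l hl) h
      have h1 := hup l m hl h
      have h2 : (cnt n p (m + 1) : ℝ) ≤ cnt n p m := by exact_mod_cast hmspec.le
      have h3 : (cnt n p (m + 1) : ℝ) * l ≤ cnt n p m * l :=
        mul_le_mul_of_nonneg_right h2 (hlpos l hl).le
      have h4 : (98 / 100) * (cnt n p m : ℝ) ≤ l * cnt n p m := by linarith
      exact le_of_mul_le_mul_right h4 hc0
    intro i hi
    induction i, hi using Nat.le_induction with
    | base => exact hmspec.le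
    | succ i hmi ih =>
      by_cases hUT : 6 * a ≤ 7 * (i + 1) + 3
      · exact upper_tail hp hn6 hamax hUT
      · have hUT' : 7 * (i + 1) + 3 < 6 * a := not_le.mp hUT
        obtain ⟨l, hl, hLl⟩ := hL (i + 1) (by omega) hUT'
        have hl0 := hlpos l hl
        have hc0 := hcpos l (i + 1) hl0 hLl
        rcases le_or_gt (11 / 10) l with h11 | h11
        · -- down
          have h1 := hdn l (i + 1) hl hLl
          have h2 : (cnt n p (i + 1 + 1) : ℝ) * (11 / 10) ≤ (cnt n p (i + 1 + 1) : ℝ) * l :=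
            mul_le_mul_of_nonneg_left h11 (Nat.cast_nonneg _)
          have h3 : (cnt n p (i + 1 + 1) : ℝ) ≤ cnt n p (i + 1) := by nlinarith
          exact_mod_cast h3
        · rcases le_or_gt (9 / 10) l with h9 | h9
          · -- log-concave
            have h1 := hnear l (i + 1) (by omega) h9 h11.le hLl
            rw [Nat.add_sub_cancel] at h1
            have hcpos' : 0 < cnt n p (i + 1) := by exact_mod_cast hc0
            by_contra hneg
            have hneg' : cnt n p (i + 1) < cnt n p (i + 1 + 1) := not_le.mp hneg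
            have : cnt n p (i + 1) * cnt n p (i + 1) < cnt n p i * cnt n p (i + 1 + 1) := by
              calc cnt n p (i + 1) * cnt n p (i + 1) ≤ cnt n p i * cnt n p (i + 1) :=
                    Nat.mul_le_mul_right _ ih
                _ < cnt n p i * cnt n p (i + 1 + 1) :=
                    Nat.mul_lt_mul_of_pos_left hneg' (lt_of_lt_of_le hcpos' ih)
            rw [sq] at h1
            omega
          · -- up: impossible after m
            exfalso
            obtain ⟨lm, hlm, hLm⟩ := hL m hm14 (by omega)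
            have h98 := hmtilt lm hlm hLm
            exact hmono lm l m (i + 1) hlm hl (by omega) (by linarith) hLm hLl
  · push_neg at hex
    refine ⟨n + 1, fun i _ => hex i, fun i hi => ?_⟩
    rw [cnt_eq_zero (show n < i + 1 by omega)]
    exact Nat.zero_le _
-- END BLOCK

end Pool.Agent.Lib_helper19.Src
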